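import Mathlib

/-! # Runge's method for two sequences close to squares of rational polynomials

If `a x = A(x)² + O(x^(p-1))` and `b y = B(y)² + R(y)` with `|R(y)|` of exact order `y^(q-1)`,
`A`, `B` rational polynomials of degrees `1 ≤ p < q` with positive leading coefficients, then
`a x = b y` has only finitely many solutions. -/

namespace Pool.Agent.Helper66.PF

open Polynomial Filter

/-- a common denominator of the values of a rational polynomial at the integers -/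
theorem exists_den (A : ℚ[X]) : ∃ d : ℕ, 0 < d ∧ ∀ x : ℕ, ∃ k : ℤ, (d : ℚ) * A.eval (x : ℚ) = k := by
  induction A using Polynomial.induction_on' with
  | add P Q hP hQ =>
    obtain ⟨d, hd, h⟩ := hP
    obtain ⟨e, he, h'⟩ := hQ
    refine ⟨d * e, Nat.mul_pos hd he, fun x => ?_⟩
    obtain ⟨k, hk⟩ := h x
    obtain ⟨l, hl⟩ := h' x
    refine ⟨e * k + d * l, ?_⟩
    push_cast
    rw [eval_add, ← hk, ← hl]
    ring
  | monomial m c =>
    refine ⟨c.den, c.den_pos, fun x => ⟨c.num * (x : ℤ) ^ m, ?_⟩⟩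
    rw [eval_monomial, ← mul_assoc, Rat.den_mul_eq_num]
    push_cast
    ring

/-- two-sided bounds for the values of a polynomial -/
theorem two_sided {A : ℚ[X]} {p : ℕ} (hA : A.natDegree = p) (h0 : 0 < A.leadingCoeff) :
    ∀ᶠ x : ℕ in atTop, A.leadingCoeff / 2 * (x : ℚ) ^ p ≤ A.eval (x : ℚ) ∧
      A.eval (x : ℚ) ≤ 2 * A.leadingCoeff * (x : ℚ) ^ p := by
  have hdeg : A.degree = (X ^ p : ℚ[X]).degree := by
    rw [degree_X_pow, degree_eq_natDegree (leadingCoeff_ne_zero.mp h0.ne'), hA]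
  have h1 := Polynomial.div_tendsto_atTop_leadingCoeff_div_of_degree_eq A (X ^ p : ℚ[X]) hdeg
  rw [leadingCoeff_X_pow, div_one] at h1
  have h2 : Tendsto (fun x : ℕ => A.eval (x : ℚ) / (X ^ p : ℚ[X]).eval (x : ℚ)) atTop
      (nhds A.leadingCoeff) := h1.comp tendsto_natCast_atTop_atTop
  have h3 := h2.eventually (eventually_gt_nhds (show A.leadingCoeff / 2 < A.leadingCoeff by linarith))
  have h4 := h2.eventually (eventually_lt_nhds (show A.leadingCoeff < 2 * A.leadingCoeff by linarith))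
  filter_upwards [h3, h4, eventually_gt_atTop 0] with x h5 h6 h7
  have hx : (0 : ℚ) < (x : ℚ) ^ p := by
    have : (0 : ℚ) < x := by exact_mod_cast h7
    positivity
  rw [eval_pow, eval_X] at h5 h6
  rw [lt_div_iff₀ hx] at h5
  rw [div_lt_iff₀ hx] at h6
  exact ⟨h5.le, h6.le⟩

theorem tendsto_of_close {a : ℕ → ℚ} {A : ℚ[X]} {p : ℕ} (hp : 1 ≤ p) (hA : A.natDegree = p)
    (h0 : 0 < A.leadingCoeff) {C : ℚ}
    (h1 : ∀ᶠ x : ℕ in atTop, |a x - A.eval (x : ℚ) ^ 2| ≤ C * (x : ℚ) ^ (p - 1)) :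
    Tendsto a atTop atTop := by
  have hd : 0 < A.degree := by
    rw [← natDegree_pos_iff_degree_pos, hA]
    exact hp
  have hT : Tendsto (fun x : ℕ => A.eval (x : ℚ)) atTop atTop :=
    (A.tendsto_atTop_of_leadingCoeff_nonneg hd h0.le).comp tendsto_natCast_atTop_atTop
  have hT2 : Tendsto (fun x : ℕ => A.eval (x : ℚ) * (A.eval (x : ℚ) - 2 * |C| / A.leadingCoeff))
      atTop atTop :=
    hT.atTop_mul_atTop₀ (by simpa [sub_eq_add_neg] using
      tendsto_atTop_add_const_right atTop (-(2 * |C| / A.leadingCoeff)) hT)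
  refine tendsto_atTop_mono' _ ?_ hT2
  filter_upwards [h1, two_sided hA h0, eventually_gt_atTop 0] with x h2 h3 h4
  have hx1 : (1 : ℚ) ≤ x := by exact_mod_cast h4
  have h5 : (x : ℚ) ^ (p - 1) ≤ (x : ℚ) ^ p := pow_le_pow_right₀ hx1 (Nat.sub_le _ _)
  have h6 : C * (x : ℚ) ^ (p - 1) ≤ |C| * (x : ℚ) ^ p :=
    mul_le_mul (le_abs_self C) h5 (by positivity) (abs_nonneg C)
  have h7 : |C| * (x : ℚ) ^ p ≤ 2 * |C| / A.leadingCoeff * A.eval (x : ℚ) := by
    have h8 := mul_le_mul_of_nonneg_left h3.1 (show 0 ≤ 2 * |C| / A.leadingCoeff by positivity)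
    refine le_trans (le_of_eq ?_) h8
    field_simp
  have h9 := (abs_le.mp h2).1
  nlinarith

/-- **Runge's method.** -/
theorem runge_large {a b : ℕ → ℚ} {A B : ℚ[X]} {p q : ℕ} (hp : 1 ≤ p) (hpq : p < q)
    (hA : A.natDegree = p) (hB : B.natDegree = q) (hA0 : 0 < A.leadingCoeff)
    (hB0 : 0 < B.leadingCoeff) {C C' c : ℚ} (hc : 0 < c)
    (h1 : ∀ᶠ x : ℕ in atTop, |a x - A.eval (x : ℚ) ^ 2| ≤ C * (x : ℚ) ^ (p - 1))
    (h2 : ∀ᶠ y : ℕ in atTop, |b y - B.eval (y : ℚ) ^ 2| ≤ C' * (y : ℚ) ^ (q - 1))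
    (h3 : ∀ᶠ y : ℕ in atTop, c * (y : ℚ) ^ (q - 1) ≤ |b y - B.eval (y : ℚ) ^ 2|) :
    ∃ X Y : ℕ, ∀ x y : ℕ, X ≤ x → Y ≤ y → a x ≠ b y := by
  obtain ⟨d, hd, hdA⟩ := exists_den A
  obtain ⟨e, he, heB⟩ := exists_den B
  set α := A.leadingCoeff with hα
  set β := B.leadingCoeff with hβ
  set D : ℚ := (d : ℚ) * e with hD
  have hD0 : 0 < D := by positivity
  set K : ℚ := 4 * β / α with hK
  have hK0 : 0 < K := by positivity
  -- choose the thresholds
  have e1 : ∀ᶠ x : ℕ in atTop, 4 * |C| * D / α + 1 ≤ (x : ℚ) :=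
    tendsto_natCast_atTop_atTop.eventually (eventually_ge_atTop _)
  have e2 : ∀ᶠ y : ℕ in atTop, 4 * |C'| * D / β + 1 ≤ (y : ℚ) :=
    tendsto_natCast_atTop_atTop.eventually (eventually_ge_atTop _)
  have e3 : ∀ᶠ y : ℕ in atTop, |C| ^ p * K ^ (p - 1) / c ^ p + 1 ≤ (y : ℚ) :=
    tendsto_natCast_atTop_atTop.eventually (eventually_ge_atTop _)
  obtain ⟨X, hX⟩ := eventually_atTop.mp ((h1.and (two_sided hA hA0)).and
    (e1.and (eventually_gt_atTop 0)))
  obtain ⟨Y, hY⟩ := eventually_atTop.mp (((h2.and h3).and (two_sided hB hB0)).and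
    ((e2.and e3).and (eventually_gt_atTop 0)))
  refine ⟨X, Y, fun x y hx hy hxy => ?_⟩
  obtain ⟨⟨g1, g2, -⟩, g3, g4⟩ := hX x hx
  obtain ⟨⟨⟨f1, f2⟩, f3, f4⟩, ⟨f5, f6⟩, f7⟩ := hY y hy
  have hx0 : (0 : ℚ) < x := by exact_mod_cast g4
  have hy0 : (0 : ℚ) < y := by exact_mod_cast f7
  have hxp : (0 : ℚ) < (x : ℚ) ^ (p - 1) := by positivity
  have hyq : (0 : ℚ) < (y : ℚ) ^ (q - 1) := by positivity
  have exp : (x : ℚ) ^ p = (x : ℚ) ^ (p - 1) * x := by
    rw [← pow_succ]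
    congr 1
    omega
  have eyq : (y : ℚ) ^ q = (y : ℚ) ^ (q - 1) * y := by
    rw [← pow_succ]
    congr 1
    omega
  set u := A.eval (x : ℚ) with hu
  set v := B.eval (y : ℚ) with hv
  have hu0 : 0 < u := lt_of_lt_of_le (by positivity) g2
  have hv0 : 0 < v := lt_of_lt_of_le (by positivity) f3
  -- the difference is small
  have s1 : |u - v| * (u + v) ≤ |C| * (x : ℚ) ^ (p - 1) + |C'| * (y : ℚ) ^ (q - 1) := by
    have t1 : |u - v| * (u + v) = |u ^ 2 - v ^ 2| := by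
      rw [← abs_of_pos (show 0 < u + v by linarith), ← abs_mul]
      congr 1
      ring
    have t2 : u ^ 2 - v ^ 2 = (b y - v ^ 2) - (a x - u ^ 2) := by
      rw [hxy]
      ring
    rw [t1, t2]
    refine (abs_sub _ _).trans ?_
    have t3 : |a x - u ^ 2| ≤ |C| * (x : ℚ) ^ (p - 1) :=
      g1.trans (mul_le_mul_of_nonneg_right (le_abs_self C) hxp.le)
    have t4 : |b y - v ^ 2| ≤ |C'| * (y : ℚ) ^ (q - 1) :=
      f1.trans (mul_le_mul_of_nonneg_right (le_abs_self C') hyq.le)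
    linarith
  have s2 : D * (|C| * (x : ℚ) ^ (p - 1)) < u / 2 := by
    have t1 : 4 * |C| * D < α * x := by
      have := g3
      have t2 : 4 * |C| * D / α < x := by linarith
      rwa [div_lt_iff₀ hA0, mul_comm (x : ℚ)] at t2
    have t3 : α / 2 * ((x : ℚ) ^ (p - 1) * x) ≤ u := by
      rw [← exp]
      exact g2
    nlinarith [mul_lt_mul_of_pos_right t1 hxp]
  have s3 : D * (|C'| * (y : ℚ) ^ (q - 1)) < v / 2 := by
    have t1 : 4 * |C'| * D < β * y := by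
      have t2 : 4 * |C'| * D / β < y := by linarith
      rwa [div_lt_iff₀ hB0, mul_comm (y : ℚ)] at t2
    have t3 : β / 2 * ((y : ℚ) ^ (q - 1) * y) ≤ v := by
      rw [← eyq]
      exact f3
    nlinarith [mul_lt_mul_of_pos_right t1 hyq]
  have s4 : D * |u - v| < 1 := by
    by_contra hcon
    push Not at hcon
    have t1 : (1 : ℚ) * (u + v) ≤ D * |u - v| * (u + v) :=
      mul_le_mul_of_nonneg_right hcon (by linarith)
    have t2 : D * |u - v| * (u + v) ≤ D * (|C| * (x : ℚ) ^ (p - 1) + |C'| * (y : ℚ) ^ (q - 1)) := by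
      rw [mul_assoc]
      exact mul_le_mul_of_nonneg_left s1 hD0.le
    nlinarith
  -- hence it vanishes
  have huv : u = v := by
    obtain ⟨k, hk⟩ := hdA x
    obtain ⟨l, hl⟩ := heB y
    have t1 : D * (u - v) = ((e * k - d * l : ℤ) : ℚ) := by
      push_cast
      rw [← hk, ← hl]
      ring
    have t2 : |((e * k - d * l : ℤ) : ℚ)| < 1 := by
      rw [← t1, abs_mul, abs_of_pos hD0]
      exact s4
    have t3 : (e * k - d * l : ℤ) = 0 := by
      have : |(e * k - d * l : ℤ)| < 1 := by exact_mod_cast t2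
      exact Int.abs_lt_one_iff.mp this
    rw [t3, Int.cast_zero] at t1
    rcases mul_eq_zero.mp t1 with h | h
    · exact absurd h hD0.ne'
    · linarith
  have r1 : c * (y : ℚ) ^ (q - 1) ≤ |C| * (x : ℚ) ^ (p - 1) := by
    have t1 : b y - v ^ 2 = a x - u ^ 2 := by rw [hxy, huv]
    rw [t1] at f2
    exact (f2.trans g1).trans (mul_le_mul_of_nonneg_right (le_abs_self C) hxp.le)
  have r2 : (x : ℚ) ^ p ≤ K * (y : ℚ) ^ q := by
    have t1 : α / 2 * (x : ℚ) ^ p ≤ 2 * β * (y : ℚ) ^ q := by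
      rw [huv] at g2
      exact g2.trans f4
    have t2 : K * (y : ℚ) ^ q = (2 * β * (y : ℚ) ^ q) * (2 / α) := by
      rw [hK]
      field_simp
      ring
    rw [t2]
    calc (x : ℚ) ^ p = (α / 2 * (x : ℚ) ^ p) * (2 / α) := by field_simp
      _ ≤ _ := mul_le_mul_of_nonneg_right t1 (by positivity)
  have r3 : c ^ p * (y : ℚ) ^ (p * (q - 1)) ≤ |C| ^ p * K ^ (p - 1) * (y : ℚ) ^ (q * (p - 1)) := by
    have t1 : (c * (y : ℚ) ^ (q - 1)) ^ p ≤ (|C| * (x : ℚ) ^ (p - 1)) ^ p :=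
      pow_le_pow_left₀ (by positivity) r1 p
    have t2 : ((x : ℚ) ^ (p - 1)) ^ p = ((x : ℚ) ^ p) ^ (p - 1) := by
      rw [← pow_mul, ← pow_mul, mul_comm]
    have t3 : ((x : ℚ) ^ p) ^ (p - 1) ≤ (K * (y : ℚ) ^ q) ^ (p - 1) :=
      pow_le_pow_left₀ (by positivity) r2 _
    rw [mul_pow, mul_pow, ← pow_mul, t2] at t1
    have t4 := mul_le_mul_of_nonneg_left t3 (show 0 ≤ |C| ^ p by positivity)
    rw [mul_pow K, ← pow_mul (y : ℚ)] at t4
    rw [mul_comm p (q - 1), mul_assoc (|C| ^ p)]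
    exact t1.trans t4
  have r4 : (y : ℚ) ^ (p * (q - 1)) = (y : ℚ) ^ (q * (p - 1)) * (y : ℚ) ^ (q - p) := by
    rw [← pow_add]
    congr 1
    obtain ⟨p', rfl⟩ : ∃ p', p = p' + 1 := ⟨p - 1, by omega⟩
    obtain ⟨q', rfl⟩ : ∃ q', q = q' + 1 := ⟨q - 1, by omega⟩
    obtain ⟨s, rfl⟩ : ∃ s, q' = p' + s := ⟨q' - p', by omega⟩
    have w1 : p' + 1 - 1 = p' := by omega
    have w2 : p' + s + 1 - 1 = p' + s := by omega
    have w3 : p' + s + 1 - (p' + 1) = s := by omega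
    rw [w1, w2, w3]
    ring
  have hyy : (0 : ℚ) < (y : ℚ) ^ (q * (p - 1)) := by positivity
  rw [r4, ← mul_assoc, mul_comm (c ^ p), mul_assoc, mul_comm (|C| ^ p * K ^ (p - 1))] at r3
  have r5 : c ^ p * (y : ℚ) ^ (q - p) ≤ |C| ^ p * K ^ (p - 1) := le_of_mul_le_mul_left r3 hyy
  have hy1 : (1 : ℚ) ≤ y := by exact_mod_cast f7
  have r6 : (y : ℚ) ≤ (y : ℚ) ^ (q - p) := le_self_pow₀ hy1 (by omega)
  have hcp : 0 < c ^ p := by positivity
  have r7 : (y : ℚ) ≤ |C| ^ p * K ^ (p - 1) / c ^ p := by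
    rw [le_div_iff₀ hcp, mul_comm]
    exact (mul_le_mul_of_nonneg_left r6 hcp.le).trans r5
  linarith

theorem runge_glue {a b : ℕ → ℚ} {A B : ℚ[X]} {p q : ℕ} (hp : 1 ≤ p) (hpq : p < q)
    (hA : A.natDegree = p) (hB : B.natDegree = q) (hA0 : 0 < A.leadingCoeff)
    (hB0 : 0 < B.leadingCoeff) {C C' c : ℚ} (hc : 0 < c)
    (h1 : ∀ᶠ x : ℕ in atTop, |a x - A.eval (x : ℚ) ^ 2| ≤ C * (x : ℚ) ^ (p - 1))
    (h2 : ∀ᶠ y : ℕ in atTop, |b y - B.eval (y : ℚ) ^ 2| ≤ C' * (y : ℚ) ^ (q - 1))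
    (h3 : ∀ᶠ y : ℕ in atTop, c * (y : ℚ) ^ (q - 1) ≤ |b y - B.eval (y : ℚ) ^ 2|) :
    {z : ℕ × ℕ | a z.1 = b z.2}.Finite := by
  obtain ⟨X, Y, hXY⟩ := runge_large hp hpq hA hB hA0 hB0 hc h1 h2 h3
  have ha := tendsto_of_close hp hA hA0 h1
  have hb := tendsto_of_close (by omega) hB hB0 h2
  have fa : ∀ t : ℚ, {x : ℕ | a x = t}.Finite := fun t => by
    obtain ⟨N, hN⟩ := eventually_atTop.mp (ha.eventually (eventually_gt_atTop t))
    refine (Set.finite_lt_nat N).subset fun x hx => ?_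
    by_contra hcon
    have := hN x (not_lt.mp hcon)
    exact absurd hx this.ne'
  have fb : ∀ t : ℚ, {y : ℕ | b y = t}.Finite := fun t => by
    obtain ⟨N, hN⟩ := eventually_atTop.mp (hb.eventually (eventually_gt_atTop t))
    refine (Set.finite_lt_nat N).subset fun x hx => ?_
    by_contra hcon
    have := hN x (not_lt.mp hcon)
    exact absurd hx this.ne'
  have F1 : (⋃ x ∈ Finset.range X, ({x} : Set ℕ) ×ˢ {y : ℕ | b y = a x}).Finite :=
    Set.Finite.biUnion (Finset.finite_toSet _) fun x _ => (Set.finite_singleton x).prod (fb _)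
  have F2 : (⋃ y ∈ Finset.range Y, {x : ℕ | a x = b y} ×ˢ ({y} : Set ℕ)).Finite :=
    Set.Finite.biUnion (Finset.finite_toSet _) fun y _ => (fa _).prod (Set.finite_singleton y)
  refine (F1.union F2).subset ?_
  rintro ⟨x, y⟩ hz
  have hz' : a x = b y := hz
  by_cases hx : x < X
  · left
    simp only [Set.mem_iUnion, Finset.mem_range]
    exact ⟨x, hx, rfl, hz'.symm⟩
  · right
    have hy : y < Y := by
      by_contra hy
      exact hXY x y (not_lt.mp hx) (not_lt.mp hy) hz'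
    simp only [Set.mem_iUnion, Finset.mem_range]
    exact ⟨y, hy, hz', rfl⟩

end Pool.Agent.Helper66.PF
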