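import Pool.Agent.Helper30.PF.Todd

/-! # 2-integrality of the coefficients of the Todd type series -/

namespace Pool.Agent.Helper66.PF

open Finset PowerSeries Pool.Agent.Helper30.PF

/-- the 2-integral rational numbers -/
def Z2 : Subring ℚ where
  carrier := {q | padicNorm 2 q ≤ 1}
  mul_mem' {a b} ha hb := by
    change padicNorm 2 (a * b) ≤ 1
    rw [padicNorm.mul]
    exact mul_le_one₀ ha (padicNorm.nonneg _) hb
  one_mem' := by
    change padicNorm 2 1 ≤ 1
    rw [padicNorm.one]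
  add_mem' {a b} ha hb := (padicNorm.nonarchimedean (p := 2)).trans (max_le ha hb)
  zero_mem' := by
    change padicNorm 2 0 ≤ 1
    rw [padicNorm.zero]
    exact zero_le_one
  neg_mem' {a} ha := by
    change padicNorm 2 (-a) ≤ 1
    rw [padicNorm.neg]
    exact ha

theorem mem_Z2 {q : ℚ} : q ∈ Z2 ↔ padicNorm 2 q ≤ 1 := Iff.rfl

theorem half_not : ¬ padicNorm 2 (1 / 2) ≤ 1 := by
  have h : padicNorm 2 2 = 2⁻¹ := by
    have := padicNorm.padicNorm_p_of_prime (p := 2)
    exact_mod_cast this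
  rw [padicNorm.div, padicNorm.one, h]
  norm_num

/-- all coefficients are 2-integral -/
def I2 (F : ℚ⟦X⟧) : Prop := ∀ k, coeff k F ∈ Z2

theorem I2.mul {F G : ℚ⟦X⟧} (hF : I2 F) (hG : I2 G) : I2 (F * G) := fun k => by
  rw [coeff_mul]
  exact Z2.sum_mem fun p _ => Z2.mul_mem (hF _) (hG _)

theorem I2_one : I2 1 := fun k => by
  rw [coeff_one]
  split_ifs
  · exact Z2.one_mem
  · exact Z2.zero_mem

theorem I2_prod {n : ℕ} {F : ℕ → ℚ⟦X⟧} (h : ∀ i < n, I2 (F i)) : I2 (∏ i ∈ range n, F i) := by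
  induction n with
  | zero => simpa using I2_one
  | succ n ih =>
    rw [Finset.prod_range_succ]
    exact (ih fun i hi => h i (by omega)).mul (h n (by omega))

/-- a series with 2-integral inverse and constant coefficient one -/
theorem I2_of_mul {F G : ℚ⟦X⟧} (hG : I2 G) (h0 : constantCoeff G = 1) (h : F * G = 1) : I2 F := by
  intro k
  induction k using Nat.strong_induction_on with
  | _ k ih =>
    have h1 := congrArg (coeff k) h
    rw [coeff_mul, Finset.Nat.sum_antidiagonal_eq_sum_range_succ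
      (fun i j => coeff i F * coeff j G), Finset.sum_range_succ, Nat.sub_self,
      coeff_zero_eq_constantCoeff_apply, h0, mul_one] at h1
    have h2 : coeff k F = coeff k 1 - ∑ i ∈ range k, coeff i F * coeff (k - i) G := by
      rw [← h1]
      ring
    rw [h2]
    refine Z2.sub_mem (I2_one k) (Z2.sum_mem fun i hi => ?_)
    exact Z2.mul_mem (ih i (Finset.mem_range.mp hi)) (hG _)

theorem nat_mem (m : ℕ) : (m : ℚ) ∈ Z2 := by
  rw [mem_Z2]
  exact padicNorm.of_nat m

theorem int_mem (m : ℤ) : (m : ℚ) ∈ Z2 := by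
  rw [mem_Z2]
  exact padicNorm.of_int m

theorem padicNorm_two_pow (k : ℕ) : padicNorm 2 ((2 : ℚ) ^ k) = (2 : ℚ) ^ (-(k : ℤ)) := by
  have h : padicNorm 2 2 = 2⁻¹ := by
    have := padicNorm.padicNorm_p_of_prime (p := 2)
    exact_mod_cast this
  induction k with
  | zero => simp
  | succ k ih =>
    rw [pow_succ, padicNorm.mul, ih, h]
    push_cast
    rw [neg_add, zpow_add₀ (by norm_num)]
    norm_num

theorem two_pow_div {m k : ℕ} (hm : m ≠ 0) (h : padicValNat 2 m ≤ k) :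
    (2 : ℚ) ^ k / m ∈ Z2 := by
  rw [mem_Z2]
  have hm' : (m : ℚ) ≠ 0 := by exact_mod_cast hm
  rw [padicNorm.div, padicNorm_two_pow, padicNorm.eq_zpow_of_nonzero hm', padicValRat.of_nat,
    Nat.cast_ofNat]
  rw [div_le_one (by positivity)]
  exact zpow_le_zpow_right₀ (by norm_num) (by omega)

theorem two_pow_div_factorial (k : ℕ) : (2 : ℚ) ^ k / (k.factorial : ℚ) ∈ Z2 := by
  refine two_pow_div (Nat.factorial_ne_zero k) ?_
  have := sub_one_mul_padicValNat_factorial (p := 2) k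
  omega

theorem two_pow_div_factorial_succ (k : ℕ) : (2 : ℚ) ^ k / ((k + 1).factorial : ℚ) ∈ Z2 := by
  refine two_pow_div (Nat.factorial_ne_zero (k + 1)) ?_
  have := sub_one_mul_padicValNat_factorial_lt_of_ne_zero (p := 2) (n := k + 1) (by omega)
  omega

theorem I2_ex (a : ℤ) : I2 (ex (-(2 * (a : ℚ)))) := fun k => by
  rw [coeff_ex]
  have h : (-(2 * (a : ℚ))) ^ k / (k.factorial : ℚ) = ((-a) ^ k : ℤ) * (2 ^ k / k.factorial) := by
    push_cast
    rw [show -(2 * (a : ℚ)) = -(a : ℚ) * 2 by ring, mul_pow]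
    ring
  rw [h]
  exact Z2.mul_mem (int_mem _) (two_pow_div_factorial k)

theorem I2_eps (i : ℕ) : I2 (rescale (2 * (i : ℚ)) eps) := fun k => by
  rw [coeff_rescale, eps, coeff_mk]
  have h : (2 * (i : ℚ)) ^ k * (1 / ((k + 1).factorial : ℚ)) =
      ((i ^ k : ℕ) : ℚ) * (2 ^ k / (k + 1).factorial) := by
    push_cast
    rw [mul_pow]
    ring
  rw [h]
  exact Z2.mul_mem (nat_mem _) (two_pow_div_factorial_succ k)

theorem rescale_ex (a b : ℚ) : rescale a (ex b) = ex (a * b) := by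
  ext k
  rw [coeff_rescale, coeff_ex, coeff_ex, mul_pow]
  ring

theorem sg_eq (i : ℕ) : sg i = ex (-(i : ℚ) / 2) * (C (i : ℚ) * rescale (i : ℚ) eps) := by
  have h1 : (X : ℚ⟦X⟧) * sg i = X * (ex (-(i : ℚ) / 2) * (C (i : ℚ) * rescale (i : ℚ) eps)) := by
    rw [X_mul_sg]
    have h2 : (C (i : ℚ) * X) * rescale (i : ℚ) eps = ex i - 1 := by
      have h3 : rescale (i : ℚ) ((X : ℚ⟦X⟧) * eps) = rescale (i : ℚ) (ex 1 - 1) := by
        rw [X_mul_eps]
      rw [map_mul, rescale_X, map_sub, map_one, rescale_ex, mul_one] at h3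
      exact h3
    calc ex ((i : ℚ) / 2) - ex (-(i : ℚ) / 2) =
        ex (-(i : ℚ) / 2) * (ex i - 1) := by
          rw [mul_sub, mul_one, ← ex_add]
          congr 2
          ring
      _ = ex (-(i : ℚ) / 2) * ((C (i : ℚ) * X) * rescale (i : ℚ) eps) := by rw [h2]
      _ = _ := by ring
  exact mul_left_cancel₀ X_ne_zero h1

theorem rescale_const (a b : ℚ) : rescale a (C b : ℚ⟦X⟧) = C b := by
  ext k
  rw [coeff_rescale, coeff_C]
  split_ifs with h
  · rw [h, pow_zero, one_mul]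
  · rw [mul_zero]

theorem rescale_sg (i : ℕ) : rescale 2 (sg i) =
    ex (-(i : ℚ)) * (C (i : ℚ) * rescale (2 * (i : ℚ)) eps) := by
  rw [sg_eq, map_mul, map_mul, rescale_ex, rescale_rescale, rescale_const]
  congr 2
  · ring
  · congr 2
    ring

theorem rescale_Pi' (n : ℕ) : rescale 2 (Pi' n) = ex (-((n : ℚ) * (n + 1) / 2)) *
    (C (n.factorial : ℚ) * ∏ i ∈ range n, rescale (2 * ((i + 1 : ℕ) : ℚ)) eps) := by
  induction n with
  | zero => simp [Pi', ex_zero]
  | succ n ih =>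
    have h1 : Pi' (n + 1) = Pi' n * sg (n + 1) := by rw [Pi', Pi', Finset.prod_range_succ]
    rw [h1, map_mul, ih, rescale_sg, Finset.prod_range_succ, Nat.factorial_succ]
    have h2 : ex (-(((n + 1 : ℕ) : ℚ) * (((n + 1 : ℕ) : ℚ) + 1) / 2)) =
        ex (-((n : ℚ) * (n + 1) / 2)) * ex (-((n + 1 : ℕ) : ℚ)) := by
      rw [← ex_add]
      congr 1
      push_cast
      ring
    have h3 : C (((n + 1) * n.factorial : ℕ) : ℚ) =
        (C ((n + 1 : ℕ) : ℚ) * C (n.factorial : ℚ) : ℚ⟦X⟧) := by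
      rw [← map_mul]
      push_cast
      rfl
    rw [h2, h3]
    ring

theorem A_int {n : ℕ} (hn : n % 4 = 3) (k : ℕ) :
    padicNorm 2 (2 ^ k * (n.factorial * PowerSeries.coeff k (Th n))) ≤ 1 := by
  obtain ⟨a, ha⟩ : ∃ a : ℕ, n + 1 = 4 * a := ⟨(n + 1) / 4, by omega⟩
  have hn0 : (n.factorial : ℚ) ≠ 0 := by exact_mod_cast Nat.factorial_ne_zero n
  set S : ℚ⟦X⟧ := ex (-((n : ℚ) * (n + 1) / 2)) *
    ∏ i ∈ range n, rescale (2 * ((i + 1 : ℕ) : ℚ)) eps with hS
  have hR : rescale 2 (Pi' n) = C (n.factorial : ℚ) * S := by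
    rw [rescale_Pi', hS]
    ring
  have hSI : I2 S := by
    refine I2.mul ?_ (I2_prod fun i _ => I2_eps (i + 1))
    have h1 : -((n : ℚ) * (n + 1) / 2) = -(2 * (((n * a : ℕ) : ℤ) : ℚ)) := by
      have h2 : (n : ℚ) + 1 = 4 * a := by exact_mod_cast ha
      rw [h2]
      push_cast
      ring
    rw [h1]
    exact I2_ex _
  have hS0 : constantCoeff S = 1 := by
    have h1 := congrArg constantCoeff hR
    have h2 : constantCoeff (rescale (2 : ℚ) (Pi' n)) = n.factorial := by
      rw [← coeff_zero_eq_constantCoeff_apply, coeff_rescale, pow_zero, one_mul,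
        coeff_zero_eq_constantCoeff_apply, constantCoeff_Pi']
    rw [h2, map_mul, constantCoeff_C] at h1
    exact mul_left_cancel₀ hn0 (by rw [← h1, mul_one])
  have hmul : (C (n.factorial : ℚ) * rescale 2 (Th n)) * S = 1 := by
    have h1 : rescale 2 (Th n * Pi' n) = (1 : ℚ⟦X⟧) := by rw [Th_mul, map_one]
    rw [map_mul, hR] at h1
    rw [← h1]
    ring
  have h := I2_of_mul hSI hS0 hmul k
  rw [mem_Z2, coeff_C_mul, coeff_rescale] at h
  have e : (n.factorial : ℚ) * (2 ^ k * coeff k (Th n)) =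
      2 ^ k * (n.factorial * coeff k (Th n)) := by ring
  rw [← e]
  exact h

end Pool.Agent.Helper66.PF
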