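import Pool.Agent.Helper66.PF.PowTwoD

/-! # finiteness for all odd `m < n` with `m n` a square -/

namespace Pool.Agent.Helper66.PF

open Pool.Agent.Helper30.PF

theorem nonVan_all {s : ℕ} (hs : 2 ≤ s) (h7 : s ≠ 7) (h15 : s ≠ 15) : NonVan s := by
  by_cases h : ∃ e, 2 * s + 2 = 2 ^ e
  · obtain ⟨e, he⟩ := h
    rcases Nat.lt_or_ge e 6 with h6 | h6
    · interval_cases e
      · omega
      · omega
      · omega
      · have : s = 3 := by omega
        subst this
        exact nonvan (by norm_num) (by norm_num)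
      · omega
      · omega
    · obtain ⟨f, rfl⟩ : ∃ f, e = f + 4 := ⟨e - 4, by omega⟩
      have h1 : 2 ^ (f + 4) = 2 * 2 ^ (f + 3) := by ring
      exact nonVan_pow (f := f) (by omega) (by omega)
  · push Not at h
    exact nonvan' hs h

/-- for odd `3 ≤ m < n` with `m n` a perfect square the equation `P_m(x) = P_n(y)` has only
finitely many solutions -/
theorem finite_all {m n : ℕ} (hm : 3 ≤ m) (hmn : m < n) (hmo : m % 2 = 1) (hno : n % 2 = 1)
    (hsq : ∃ r : ℕ, m * n = r ^ 2) : {z : ℕ × ℕ | P m z.1 = P n z.2}.Finite := by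
  refine finite_of_nonVan hm hmn hmo hno hsq (nonVan_all (by omega) ?_ ?_)
  · intro h
    have hn : n = 15 := by omega
    obtain ⟨r, hr⟩ := hsq
    rw [hn] at hr
    have h3 : 3 ∣ r := Nat.prime_three.dvd_of_dvd_pow (n := 2) ⟨m * 5, by rw [← hr]; ring⟩
    have h5 : 5 ∣ r := Nat.prime_five.dvd_of_dvd_pow (n := 2) ⟨m * 3, by rw [← hr]; ring⟩
    have h15 : 15 ∣ r := by omega
    obtain ⟨c, rfl⟩ := h15
    have h6 : m = 15 * c ^ 2 := by
      have : m * 15 = (15 * c ^ 2) * 15 := by rw [hr]; ring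
      exact Nat.eq_of_mul_eq_mul_right (by norm_num) this
    have hc : c ≠ 0 := by
      rintro rfl
      omega
    have hc2 : 1 ≤ c ^ 2 := Nat.one_le_iff_ne_zero.mpr (pow_ne_zero 2 hc)
    omega
  · intro h
    have hn : n = 31 := by omega
    obtain ⟨r, hr⟩ := hsq
    rw [hn] at hr
    have h31 : 31 ∣ r :=
      (by norm_num : Nat.Prime 31).dvd_of_dvd_pow (n := 2) ⟨m, by rw [← hr]; ring⟩
    obtain ⟨c, rfl⟩ := h31
    have h6 : m = 31 * c ^ 2 := by
      have : m * 31 = (31 * c ^ 2) * 31 := by rw [hr]; ring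
      exact Nat.eq_of_mul_eq_mul_right (by norm_num) this
    have hc : c ≠ 0 := by
      rintro rfl
      omega
    have hc2 : 1 ≤ c ^ 2 := Nat.one_le_iff_ne_zero.mpr (pow_ne_zero 2 hc)
    omega

end Pool.Agent.Helper66.PF
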