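import Pool.Agent.Helper66.PF.Od
import Pool.Agent.Helper30.PF.TwoAdic

/-! # the recursion for the coefficients of `Th n` -/

namespace Pool.Agent.Helper66.PF

open Finset PowerSeries Pool.Agent.Helper30.PF

/-- `(X/2) coth(X/2)` -/
noncomputable def bt : ℚ⟦X⟧ := tau + C (1 / 2 : ℚ) * X

theorem tau_eq : tau = bernoulliPowerSeries ℚ := by
  have h1 := bernoulliPowerSeries_mul_exp_sub_one ℚ
  have h2 : ex 1 = exp ℚ := by
    rw [ex, rescale_one]
    rfl
  have h3 : (X : ℚ⟦X⟧) * (bernoulliPowerSeries ℚ * eps) = X * 1 := by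
    calc (X : ℚ⟦X⟧) * (bernoulliPowerSeries ℚ * eps) = bernoulliPowerSeries ℚ * (X * eps) := by
          ring
      _ = bernoulliPowerSeries ℚ * (ex 1 - 1) := by rw [X_mul_eps]
      _ = X * 1 := by rw [h2, h1, mul_one]
  have h4 := mul_left_cancel₀ X_ne_zero h3
  calc tau = tau * (bernoulliPowerSeries ℚ * eps) := by rw [h4, mul_one]
    _ = bernoulliPowerSeries ℚ * (tau * eps) := by ring
    _ = _ := by rw [tau_mul_eps, mul_one]

theorem coeff_tau (k : ℕ) : coeff k tau = bernoulli k / k.factorial := by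
  rw [tau_eq, bernoulliPowerSeries, coeff_mk]
  rfl

theorem coeff_bt {k : ℕ} (hk : k % 2 = 0) : coeff k bt = bernoulli k / k.factorial := by
  rw [bt, map_add, coeff_tau, coeff_C_mul, coeff_X, if_neg (by omega), mul_zero, add_zero]

theorem eps_mul_bt : eps * bt = C (1 / 2 : ℚ) * (ex 1 + 1) := by
  have h1 : eps * bt = tau * eps + C (1 / 2 : ℚ) * (X * eps) := by
    rw [bt]
    ring
  have h2 : (C (1 / 2 : ℚ) * 2 : ℚ⟦X⟧) = 1 := by
    have : (2 : ℚ⟦X⟧) = C (2 : ℚ) := by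
      rw [map_ofNat]
    rw [this, ← map_mul]
    norm_num
  rw [h1, tau_mul_eps, X_mul_eps]
  linear_combination (-1 : ℚ⟦X⟧) * h2

theorem sg_log (i : ℕ) : (X : ℚ⟦X⟧) * d⁄dX ℚ (sg i) = sg i * (rescale (i : ℚ) bt - 1) := by
  have h1 : d⁄dX ℚ ((X : ℚ⟦X⟧) * sg i) = d⁄dX ℚ (ex ((i : ℚ) / 2) - ex (-(i : ℚ) / 2)) := by
    rw [X_mul_sg]
  rw [Derivation.leibniz, derivative_X, map_sub, derivative_ex, derivative_ex] at h1
  have h2 : (X : ℚ⟦X⟧) * d⁄dX ℚ (sg i) + sg i =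
      C ((i : ℚ) / 2) * ex ((i : ℚ) / 2) - C (-(i : ℚ) / 2) * ex (-(i : ℚ) / 2) := by
    simpa [smul_eq_mul] using h1
  have h3 : sg i * rescale (i : ℚ) bt =
      C ((i : ℚ) / 2) * ex ((i : ℚ) / 2) - C (-(i : ℚ) / 2) * ex (-(i : ℚ) / 2) := by
    have e1 : ex ((i : ℚ) / 2) = ex (-(i : ℚ) / 2) * ex i := by
      rw [← ex_add]
      congr 1
      ring
    have e2 : rescale (i : ℚ) eps * rescale (i : ℚ) bt = C (1 / 2 : ℚ) * (ex i + 1) := by
      rw [← map_mul, eps_mul_bt, map_mul, rescale_const, map_add, map_one, rescale_ex, mul_one]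
    have e3 : (C ((i : ℚ) / 2) : ℚ⟦X⟧) = C (i : ℚ) * C (1 / 2 : ℚ) := by
      rw [← map_mul]
      congr 1
      ring
    have e4 : (C (-(i : ℚ) / 2) : ℚ⟦X⟧) = -(C (i : ℚ) * C (1 / 2 : ℚ)) := by
      rw [← map_mul, ← map_neg]
      congr 1
      ring
    calc sg i * rescale (i : ℚ) bt = ex (-(i : ℚ) / 2) * C (i : ℚ) *
          (rescale (i : ℚ) eps * rescale (i : ℚ) bt) := by
            rw [sg_eq]
            ring
      _ = _ := by
        rw [e2, e3, e4, e1]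
        ring
  rw [mul_sub, mul_one, h3, ← h2]
  ring

theorem Pi_log (n : ℕ) : (X : ℚ⟦X⟧) * d⁄dX ℚ (Pi' n) =
    Pi' n * ∑ i ∈ range n, (rescale ((i + 1 : ℕ) : ℚ) bt - 1) := by
  induction n with
  | zero => simp [Pi']
  | succ n ih =>
    have h1 : Pi' (n + 1) = Pi' n * sg (n + 1) := by rw [Pi', Pi', Finset.prod_range_succ]
    rw [h1, Derivation.leibniz, Finset.sum_range_succ]
    have h2 := sg_log (n + 1)
    simp only [smul_eq_mul]
    linear_combination (Pi' n) * h2 + sg (n + 1) * ih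

theorem Th_log (n : ℕ) : (X : ℚ⟦X⟧) * d⁄dX ℚ (Th n) =
    -(Th n * ∑ i ∈ range n, (rescale ((i + 1 : ℕ) : ℚ) bt - 1)) := by
  have h1 : d⁄dX ℚ (Th n * Pi' n) = 0 := by rw [Th_mul, derivative_one]
  rw [Derivation.leibniz] at h1
  simp only [smul_eq_mul] at h1
  have h2 := Pi_log n
  have h3 := Th_mul n
  set S := ∑ i ∈ range n, (rescale ((i + 1 : ℕ) : ℚ) bt - 1) with hS
  have h4 : Th n * d⁄dX ℚ (Pi' n) * X = S := by
    calc Th n * d⁄dX ℚ (Pi' n) * X = Th n * (X * d⁄dX ℚ (Pi' n)) := by ring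
      _ = (Th n * Pi' n) * S := by rw [h2]; ring
      _ = S := by rw [h3, one_mul]
  calc (X : ℚ⟦X⟧) * d⁄dX ℚ (Th n) = X * d⁄dX ℚ (Th n) * (Th n * Pi' n) := by rw [h3, mul_one]
    _ = Th n * (X * (Pi' n * d⁄dX ℚ (Th n))) := by ring
    _ = Th n * (X * (Th n * d⁄dX ℚ (Pi' n) + Pi' n * d⁄dX ℚ (Th n)) -
          Th n * d⁄dX ℚ (Pi' n) * X) := by ring
    _ = -(Th n * S) := by rw [h1, h4]; ring

/-- normalised even coefficients -/
noncomputable def Gc (n k : ℕ) : ℚ := (2 * k).factorial * (n.factorial * coeff (2 * k) (Th n))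

/-- power sums -/
def Ps (n r : ℕ) : ℚ := ∑ i ∈ range n, ((i + 1 : ℕ) : ℚ) ^ r

/-- the cumulants -/
noncomputable def kap (n m : ℕ) : ℚ := -(bernoulli (2 * m) / (2 * m) * Ps n (2 * m))

theorem Gc_zero (n : ℕ) : Gc n 0 = 1 := by
  rw [Gc, mul_zero, coeff_zero_Th]
  simp

theorem coeff_S (n k : ℕ) (hk : k % 2 = 0) (hk0 : k ≠ 0) :
    coeff k (∑ i ∈ range n, (rescale ((i + 1 : ℕ) : ℚ) bt - 1)) =
      bernoulli k / k.factorial * Ps n k := by
  rw [map_sum, Ps, Finset.mul_sum]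
  refine Finset.sum_congr rfl fun i _ => ?_
  rw [map_sub, coeff_rescale, coeff_bt hk, coeff_one, if_neg hk0, sub_zero, mul_comm]

theorem coeff_S_zero (n : ℕ) :
    coeff 0 (∑ i ∈ range n, (rescale ((i + 1 : ℕ) : ℚ) bt - 1)) = 0 := by
  rw [map_sum]
  refine Finset.sum_eq_zero fun i _ => ?_
  rw [map_sub, coeff_rescale, coeff_bt (by norm_num), coeff_one, if_pos rfl]
  simp

theorem Th_rec (n k : ℕ) : (2 * (k : ℚ) + 2) * coeff (2 * (k + 1)) (Th n) =
    -∑ l ∈ range (k + 1), bernoulli (2 * (l + 1)) / (2 * (l + 1)).factorial *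
      Ps n (2 * (l + 1)) * coeff (2 * (k - l)) (Th n) := by
  have h1 := congrArg (coeff (2 * k + 1 + 1)) (Th_log n)
  rw [coeff_succ_X_mul, coeff_derivative, map_neg, coeff_mul,
    Finset.Nat.sum_antidiagonal_eq_sum_range_succ
      (fun i j => coeff i (Th n) * coeff j
        (∑ i ∈ range n, (rescale ((i + 1 : ℕ) : ℚ) bt - 1)))] at h1
  have e0 : (2 * k + 1 + 1).succ = 2 * (k + 1) + 1 := by omega
  rw [e0, sum_even_odd _ (fun i hi => by rw [coeff_Th_odd n i hi, zero_mul]) (k + 1),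
    Finset.sum_range_succ] at h1
  have e1 : 2 * k + 1 + 1 - 2 * (k + 1) = 0 := by omega
  rw [e1, coeff_S_zero, mul_zero, add_zero, ← Finset.sum_range_reflect] at h1
  have e2 : 2 * k + 1 + 1 = 2 * (k + 1) := by ring
  rw [e2] at h1
  have e3 : (2 * (k : ℚ) + 2) * coeff (2 * (k + 1)) (Th n) =
      coeff (2 * (k + 1)) (Th n) * (((2 * k + 1 : ℕ) : ℚ) + 1) := by
    push_cast
    ring
  rw [e3, h1]
  congr 1
  refine Finset.sum_congr rfl fun l hl => ?_
  have hl' : l ≤ k := by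
    have := Finset.mem_range.mp hl
    omega
  have e4 : k + 1 - 1 - l = k - l := by omega
  have e5 : 2 * (k + 1) - 2 * (k - l) = 2 * (l + 1) := by omega
  rw [e4, e5, coeff_S n _ (by omega) (by omega)]
  ring

theorem Gc_rec (n k : ℕ) : Gc n (k + 1) =
    ∑ l ∈ range (k + 1), ((2 * k + 1).choose (2 * l + 1) : ℚ) * kap n (l + 1) * Gc n (k - l) := by
  have h1 := Th_rec n k
  have h0 : (2 * (k : ℚ) + 2) ≠ 0 := by positivity
  apply mul_left_cancel₀ h0
  have e1 : (2 * (k : ℚ) + 2) * Gc n (k + 1) = (2 * (k + 1)).factorial * n.factorial *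
      ((2 * (k : ℚ) + 2) * coeff (2 * (k + 1)) (Th n)) := by
    rw [Gc]
    ring
  rw [e1, h1, Finset.mul_sum, mul_neg, Finset.mul_sum, ← Finset.sum_neg_distrib]
  refine Finset.sum_congr rfl fun l hl => ?_
  have hl' : l ≤ k := by
    have := Finset.mem_range.mp hl
    omega
  have h2 : (((2 * k + 1).choose (2 * l + 1) : ℕ) : ℚ) * (2 * l + 1).factorial *
      (2 * (k - l)).factorial = (2 * k + 1).factorial := by
    have := Nat.choose_mul_factorial_mul_factorial (n := 2 * k + 1) (k := 2 * l + 1) (by omega)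
    have e2 : 2 * k + 1 - (2 * l + 1) = 2 * (k - l) := by omega
    rw [e2] at this
    exact_mod_cast this
  have h3 : ((2 * (k + 1)).factorial : ℚ) = (2 * k + 2) * (2 * k + 1).factorial := by
    have e2 : 2 * (k + 1) = 2 * k + 1 + 1 := by ring
    rw [e2, Nat.factorial_succ]
    push_cast
    ring
  have h4 : ((2 * (l + 1)).factorial : ℚ) = (2 * l + 2) * (2 * l + 1).factorial := by
    have e2 : 2 * (l + 1) = 2 * l + 1 + 1 := by ring
    rw [e2, Nat.factorial_succ]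
    push_cast
    ring
  have h5 : ((2 * l + 1).factorial : ℚ) ≠ 0 := by exact_mod_cast Nat.factorial_ne_zero _
  have h6 : (2 * (l : ℚ) + 2) ≠ 0 := by positivity
  rw [kap, Gc, h3, ← h2, h4]
  push_cast
  have h7 : (2 * ((l : ℚ) + 1)) ≠ 0 := by positivity
  field_simp

theorem Ps_eq (n i : ℕ) (hi : 1 ≤ i) :
    Ps n (2 * i) = ((∑ x ∈ range (n + 1), x ^ (2 * i) : ℕ) : ℚ) := by
  rw [Ps, Finset.sum_range_succ', Nat.zero_pow (by omega), add_zero]
  push_cast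
  rfl

theorem kap_form {n e b : ℕ} (hb : b % 2 = 1) (hn : n + 1 = 2 ^ (e + 3) * b) {i : ℕ}
    (hi : 1 ≤ i) : ∃ ε, Od ε ∧ kap n i = 2 ^ e * ε / i := by
  obtain ⟨t, ht⟩ := pow_sum_odd i b hi hb (e + 2)
  refine ⟨-(2 * bernoulli (2 * i) * ((2 * t + 1 : ℕ) : ℚ)),
    ((bern_odd hi).mul (Od_nat (by omega))).neg, ?_⟩
  have e1 : e + 3 = e + 2 + 1 := by ring
  have hi0 : (i : ℚ) ≠ 0 := by
    have : i ≠ 0 := by omega
    exact_mod_cast this
  rw [kap, Ps_eq n i hi, hn, e1, ht]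
  push_cast
  field_simp
  ring

end Pool.Agent.Helper66.PF
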