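import Pool.Agent.Helper66.PF.Cg
import Pool.Agent.Helper66.PF.Cum

/-! # Bernoulli numbers and power sums modulo 16 -/

namespace Pool.Agent.Helper66.PF

open Finset

theorem two_bern_mem (t : ℕ) : 2 * bernoulli t ∈ Z2 := by
  rcases Nat.even_or_odd' t with ⟨i, hi | hi⟩
  · rcases Nat.eq_zero_or_pos i with h | h
    · rw [hi, h, mul_zero, bernoulli_zero, mul_one]
      exact two_mem
    · rw [hi]
      exact (bern_odd h).mem
  · rcases Nat.eq_zero_or_pos i with h | h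
    · rw [hi, h, mul_zero, zero_add, bernoulli_one]
      have : (2 : ℚ) * (-1 / 2) = -1 := by norm_num
      rw [this]
      exact Z2.neg_mem Z2.one_mem
    · rw [hi, bernoulli_eq_zero_of_odd ⟨i, rfl⟩ (by omega), mul_zero]
      exact Z2.zero_mem

theorem bern_exp {r i : ℕ} (hr : 2 ≤ r) (hi : 2 ≤ i) : ∃ z ∈ Z2,
    ((∑ x ∈ range (2 ^ r), x ^ (2 * i) : ℕ) : ℚ) =
      2 ^ (r - 1) * (2 * bernoulli (2 * i) + 16 * z) := by
  obtain ⟨j, rfl⟩ : ∃ j, i = j + 1 := ⟨i - 1, by omega⟩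
  obtain ⟨r', rfl⟩ : ∃ r', r = r' + 1 := ⟨r - 1, by omega⟩
  have h1 := sum_range_pow (2 ^ (r' + 1)) (2 * (j + 1))
  have e1 : 2 * (j + 1) + 1 = 2 * j + 1 + 1 + 1 := by ring
  rw [e1, Finset.sum_range_succ, Finset.sum_range_succ] at h1
  have e2 : bernoulli (2 * j + 1) = 0 := bernoulli_eq_zero_of_odd ⟨j, rfl⟩ (by omega)
  have h3 : ∀ t ∈ range (2 * j + 1), ∃ z ∈ Z2, bernoulli t *
      ((2 * j + 1 + 1 + 1).choose t : ℚ) * ((2 ^ (r' + 1) : ℕ) : ℚ) ^ (2 * j + 1 + 1 + 1 - t) /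
        ((2 * (j + 1) : ℕ) + 1) = 2 ^ r' * (16 * z) := by
    intro t ht
    have ht' := Finset.mem_range.mp ht
    obtain ⟨m, hm⟩ : ∃ m, 2 * j + 1 + 1 = t + m := ⟨2 * j + 1 + 1 - t, by omega⟩
    have e3 : 2 * j + 1 + 1 + 1 - t = m + 1 := by omega
    obtain ⟨p, hp⟩ : ∃ p, (r' + 1) * m = 4 + p := by
      refine ⟨(r' + 1) * m - 4, ?_⟩
      have h5 : 2 * 2 ≤ (r' + 1) * m := Nat.mul_le_mul (by omega) (by omega)
      omega
    refine ⟨(2 * bernoulli t) * ((2 * j + 1 + 1 + 1).choose t : ℚ) * 2 ^ p *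
      (1 / ((2 * (j + 1) + 1 : ℕ) : ℚ)), ?_, ?_⟩
    · exact Z2.mul_mem (Z2.mul_mem (Z2.mul_mem (two_bern_mem t) (nat_mem _))
        (Z2.pow_mem two_mem _)) (inv_mem (by omega))
    · have e4 : ((2 ^ (r' + 1) : ℕ) : ℚ) ^ (m + 1) = 2 ^ r' * 2 * (16 * 2 ^ p) := by
        push_cast
        rw [pow_succ ((2 : ℚ) ^ (r' + 1)) m, ← pow_mul, hp, pow_add, pow_succ]
        norm_num
        ring
      rw [e3, e4]
      push_cast
      field_simp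
  choose! z hz hz' using h3
  refine ⟨∑ t ∈ range (2 * j + 1), z t, Z2.sum_mem fun t ht => hz t ht, ?_⟩
  rw [Nat.cast_sum]
  have e0 : ∀ x ∈ range (2 ^ (r' + 1)), ((x ^ (2 * (j + 1)) : ℕ) : ℚ) =
      (x : ℚ) ^ (2 * (j + 1)) := fun x _ => by push_cast; rfl
  rw [Finset.sum_congr rfl e0, h1, e2, Finset.sum_congr rfl hz', Nat.add_sub_cancel]
  have e5 : 2 * j + 1 + 1 = 2 * (j + 1) := by ring
  have e6 : 2 * (j + 1) + 1 - 2 * (j + 1) = 1 := by omega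
  have e7 : (2 * (j + 1) + 1).choose (2 * (j + 1)) = 2 * (j + 1) + 1 :=
    Nat.choose_succ_self_right _
  rw [e5, e6, e7, ← Finset.mul_sum, ← Finset.mul_sum]
  have e8 : (2 * ((j : ℚ) + 1) + 1) ≠ 0 := by positivity
  push_cast
  field_simp
  ring

theorem bern16 {i : ℕ} (hi : 1 ≤ i) (h4 : 4 ∣ i) : Cg 4 (2 * bernoulli (2 * i)) 1 := by
  obtain ⟨c, rfl⟩ := h4
  obtain ⟨z, hz, h1⟩ := bern_exp (r := 2) (i := 4 * c) le_rfl (by omega)
  have h2 : ∃ d : ℕ, ∑ x ∈ range (2 ^ 2), x ^ (2 * (4 * c)) = 2 + 32 * d := by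
    have e1 : ∑ x ∈ range (2 ^ 2), x ^ (2 * (4 * c)) = 1 + 256 ^ c + 6561 ^ c := by
      have e0 : (0 : ℕ) ^ (2 * (4 * c)) = 0 := Nat.zero_pow (by omega)
      have e2 : (2 : ℕ) ^ (2 * (4 * c)) = 256 ^ c := by
        rw [← mul_assoc, pow_mul]
        norm_num
      have e3 : (3 : ℕ) ^ (2 * (4 * c)) = 6561 ^ c := by
        rw [← mul_assoc, pow_mul]
        norm_num
      rw [show (2 : ℕ) ^ 2 = 3 + 1 by norm_num, Finset.sum_range_succ, Finset.sum_range_succ,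
        Finset.sum_range_succ, Finset.sum_range_succ, Finset.sum_range_zero, e0, one_pow, e2, e3]
      ring
    obtain ⟨c', hc'⟩ : ∃ c', c = c' + 1 := ⟨c - 1, by omega⟩
    have e4 : (6561 : ℕ) ^ c % 32 = 1 := by
      rw [Nat.pow_mod]
      norm_num
    have e5 : (256 : ℕ) ^ c = 32 * (8 * 256 ^ c') := by
      rw [hc', pow_succ]
      ring
    refine ⟨8 * 256 ^ c' + 6561 ^ c / 32, ?_⟩
    rw [e1, e5]
    omega
  obtain ⟨d, hd⟩ := h2
  rw [hd] at h1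
  refine ⟨d - z, Z2.sub_mem (nat_mem d) hz, ?_⟩
  have h3 : ((2 + 32 * d : ℕ) : ℚ) = 2 * (2 * bernoulli (2 * (4 * c)) + 16 * z) := by
    rw [h1]
    norm_num
  push_cast at h3 ⊢
  linarith

theorem kap_two {n f μ : ℕ} (hf : 2 ≤ f) (hn : n + 1 = 2 ^ (f + 4)) (hμ : 1 ≤ μ) :
    ∃ E, Cg 4 E 1 ∧ kap n (2 ^ f * μ) = -(2 * E / μ) := by
  have hp : 4 ∣ 2 ^ f := by
    obtain ⟨g, rfl⟩ := Nat.exists_eq_add_of_le hf
    rw [pow_add]
    exact Dvd.intro _ rfl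
  have hi1 : 1 ≤ 2 ^ f * μ := Nat.mul_pos (by positivity) hμ
  have hi4 : 4 ∣ 2 ^ f * μ := hp.mul_right μ
  have hi2 : 2 ≤ 2 ^ f * μ := by
    have := Nat.le_of_dvd hi1 hi4
    omega
  obtain ⟨z, hz, h1⟩ := bern_exp (r := f + 4) (i := 2 ^ f * μ) (by omega) hi2
  have hB := bern16 hi1 hi4
  have hE : Cg 4 (2 * bernoulli (2 * (2 ^ f * μ)) + 16 * z) 1 := by
    have h2 : Cg 4 (2 ^ 4 * z) 0 := Cg_pow_mul hz
    have h3 := hB.add h2
    norm_num at h3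
    exact h3
  refine ⟨(2 * bernoulli (2 * (2 ^ f * μ))) * (2 * bernoulli (2 * (2 ^ f * μ)) + 16 * z), ?_, ?_⟩
  · have := hB.mul hE
    norm_num at this
    exact this
  · rw [kap, Ps_eq n _ hi1, hn, h1]
    have e1 : f + 4 - 1 = f + 3 := by omega
    have hμ0 : (μ : ℚ) ≠ 0 := by
      have : μ ≠ 0 := by omega
      exact_mod_cast this
    rw [e1, pow_add]
    push_cast
    field_simp

end Pool.Agent.Helper66.PF
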