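import Pool.Agent.Helper66.PF.Cg

/-! # some binomial coefficients modulo powers of two -/

namespace Pool.Agent.Helper66.PF

open Finset

/-- the product of the first `n` odd numbers -/
def wd (n : ℕ) : ℕ := ∏ i ∈ range n, (2 * i + 1)

theorem wd_succ (n : ℕ) : wd (n + 1) = wd n * (2 * n + 1) := by
  rw [wd, wd, Finset.prod_range_succ]

theorem fact_wd (n : ℕ) : (2 * n).factorial = 2 ^ n * n.factorial * wd n := by
  induction n with
  | zero => simp [wd]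
  | succ n ih =>
    have e : 2 * (n + 1) = 2 * n + 1 + 1 := by ring
    rw [e, Nat.factorial_succ, Nat.factorial_succ, ih, wd_succ, Nat.factorial_succ, pow_succ]
    ring

theorem wd_even (m : ℕ) : wd (2 * m) ≡ 3 ^ m [MOD 16] := by
  induction m with
  | zero => simp [wd, Nat.ModEq]
  | succ m ih =>
    have e : 2 * (m + 1) = 2 * m + 1 + 1 := by ring
    rw [e, wd_succ, wd_succ, mul_assoc, pow_succ]
    apply ih.mul
    have h : (2 * (2 * m) + 1) * (2 * (2 * m + 1) + 1) = 3 + 16 * (m * m + m) := by ring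
    rw [h]
    exact Nat.add_mul_mod_self_left 3 16 _

theorem choose_wd {n k : ℕ} (hk : k ≤ n) :
    (2 * n).choose (2 * k) * (wd k * wd (n - k)) = n.choose k * wd n := by
  have h1 := Nat.choose_mul_factorial_mul_factorial (n := 2 * n) (k := 2 * k) (by omega)
  have h2 := Nat.choose_mul_factorial_mul_factorial hk
  have e : 2 * n - 2 * k = 2 * (n - k) := by omega
  rw [e, fact_wd, fact_wd, fact_wd, ← h2] at h1
  have h3 : 2 ^ n = 2 ^ k * 2 ^ (n - k) := by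
    rw [← pow_add]
    congr 1
    omega
  rw [h3] at h1
  have h4 : 0 < 2 ^ k * 2 ^ (n - k) * (k.factorial * (n - k).factorial) :=
    Nat.mul_pos (by positivity) (Nat.mul_pos (Nat.factorial_pos _) (Nat.factorial_pos _))
  apply Nat.eq_of_mul_eq_mul_left h4
  calc 2 ^ k * 2 ^ (n - k) * (k.factorial * (n - k).factorial) *
        ((2 * n).choose (2 * k) * (wd k * wd (n - k))) =
        (2 * n).choose (2 * k) * (2 ^ k * k.factorial * wd k) *
          (2 ^ (n - k) * (n - k).factorial * wd (n - k)) := by ring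
    _ = _ := by
      rw [h1]
      ring

/-- quotients of congruent odd numbers -/
theorem Cg_div {k A B : ℕ} (hB : B % 2 = 1) (h : A ≡ B [MOD 2 ^ k]) :
    Cg k ((A : ℚ) / B) 1 := by
  have hB0 : (B : ℚ) ≠ 0 := by
    have : B ≠ 0 := by omega
    exact_mod_cast this
  obtain ⟨c, hc⟩ := (Nat.modEq_iff_dvd.mp h)
  refine ⟨-c * (1 / (B : ℚ)), Z2.mul_mem (Z2.neg_mem (int_mem c)) (inv_mem hB), ?_⟩
  have h1 : (B : ℚ) - A = 2 ^ k * c := by exact_mod_cast hc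
  have h2 : (A : ℚ) = B - 2 ^ k * c := by linarith
  rw [h2]
  push_cast
  field_simp
  ring

theorem three_pow_odd (m : ℕ) : 3 ^ m % 2 = 1 := by
  rw [Nat.pow_mod]
  norm_num

theorem wd_odd (m : ℕ) : wd m % 2 = 1 := by
  induction m with
  | zero => simp [wd]
  | succ m ih =>
    rw [wd_succ, Nat.mul_mod, ih]
    omega

/-- doubling step -/
theorem choose_step {m k : ℕ} (hk : k ≤ m) : ∃ u, Cg 4 u 1 ∧
    ((4 * m).choose (4 * k) : ℚ) = ((2 * m).choose (2 * k) : ℚ) * u := by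
  have h1 := choose_wd (n := 2 * m) (k := 2 * k) (by omega)
  have e1 : 2 * (2 * m) = 4 * m := by ring
  have e2 : 2 * (2 * k) = 4 * k := by ring
  have e3 : 2 * m - 2 * k = 2 * (m - k) := by omega
  rw [e1, e2, e3] at h1
  refine ⟨((wd (2 * m) : ℕ) : ℚ) / ((wd (2 * k) * wd (2 * (m - k)) : ℕ) : ℚ), ?_, ?_⟩
  · apply Cg_div
    · rw [Nat.mul_mod, wd_odd, wd_odd]
    · have h2 := (wd_even k).mul (wd_even (m - k))
      rw [← pow_add] at h2
      have e4 : k + (m - k) = m := by omega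
      rw [e4] at h2
      have e5 : (2 : ℕ) ^ 4 = 16 := by norm_num
      rw [e5]
      exact (wd_even m).trans h2.symm
  · have h2 : ((wd (2 * k) * wd (2 * (m - k)) : ℕ) : ℚ) ≠ 0 := by
      have h3 : (wd (2 * k) * wd (2 * (m - k))) % 2 = 1 := by
        rw [Nat.mul_mod, wd_odd, wd_odd]
      have : wd (2 * k) * wd (2 * (m - k)) ≠ 0 := by omega
      exact_mod_cast this
    rw [← mul_div_assoc, eq_div_iff h2]
    exact_mod_cast h1

theorem choose_chain {α β : ℕ} (h : β ≤ α) (f : ℕ) : ∃ u, Cg 4 u 1 ∧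
    ((2 ^ f * (2 * α)).choose (2 ^ f * (2 * β)) : ℚ) = ((2 * α).choose (2 * β) : ℚ) * u := by
  induction f with
  | zero => exact ⟨1, by simpa using Cg_nat 4 1, by simp⟩
  | succ f ih =>
    obtain ⟨u, hu, h1⟩ := ih
    obtain ⟨u', hu', h2⟩ := choose_step (m := 2 ^ f * α) (k := 2 ^ f * β)
      (Nat.mul_le_mul_left _ h)
    refine ⟨u * u', ?_, ?_⟩
    · have := hu.mul hu'
      norm_num at this
      exact this
    · have e1 : 2 ^ (f + 1) * (2 * α) = 4 * (2 ^ f * α) := by ring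
      have e2 : 2 ^ (f + 1) * (2 * β) = 4 * (2 ^ f * β) := by ring
      have e3 : 2 * (2 ^ f * α) = 2 ^ f * (2 * α) := by ring
      have e4 : 2 * (2 ^ f * β) = 2 ^ f * (2 * β) := by ring
      rw [e1, e2, h2, e3, e4, h1]
      ring

/-- `n * C(n-1,k-1) = k * C(n,k)` for positive `n, k` -/
theorem choose_pred {n k : ℕ} (hn : 0 < n) (hk : 0 < k) :
    (n : ℚ) * ((n - 1).choose (k - 1) : ℚ) = (k : ℚ) * (n.choose k : ℚ) := by
  obtain ⟨n', rfl⟩ : ∃ n', n = n' + 1 := ⟨n - 1, by omega⟩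
  obtain ⟨k', rfl⟩ : ∃ k', k = k' + 1 := ⟨k - 1, by omega⟩
  have := Nat.add_one_mul_choose_eq n' k'
  rw [Nat.add_sub_cancel, Nat.add_sub_cancel]
  have h2 : ((n' + 1 : ℕ) : ℚ) * (n'.choose k' : ℚ) =
      ((n' + 1).choose (k' + 1) : ℚ) * ((k' + 1 : ℕ) : ℚ) := by exact_mod_cast this
  rw [h2]
  ring

theorem b62 (f : ℕ) : Cg 4 ((6 * 2 ^ f - 1).choose (2 * 2 ^ f - 1) : ℚ) 5 := by
  have hp : 0 < 2 ^ f := by positivity
  obtain ⟨u, hu, h1⟩ := choose_chain (α := 3) (β := 1) (by norm_num) f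
  have h2 := choose_pred (n := 6 * 2 ^ f) (k := 2 * 2 ^ f) (by omega) (by omega)
  have e1 : 2 ^ f * (2 * 3) = 6 * 2 ^ f := by ring
  have e2 : 2 ^ f * (2 * 1) = 2 * 2 ^ f := by ring
  have e3 : (2 * 3).choose (2 * 1) = 15 := by decide
  rw [e1, e2, e3] at h1
  rw [h1] at h2
  have h3 : ((6 * 2 ^ f - 1).choose (2 * 2 ^ f - 1) : ℚ) = 5 * u := by
    have hq : (0 : ℚ) < 2 ^ f := by positivity
    apply mul_left_cancel₀ hq.ne'
    push_cast at h2
    linarith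
  rw [h3]
  have := (Cg_int 4 5).mul hu
  norm_num at this
  exact this

theorem b64 (f : ℕ) : Cg 4 ((6 * 2 ^ f - 1).choose (4 * 2 ^ f - 1) : ℚ) 10 := by
  have hp : 0 < 2 ^ f := by positivity
  obtain ⟨u, hu, h1⟩ := choose_chain (α := 3) (β := 2) (by norm_num) f
  have h2 := choose_pred (n := 6 * 2 ^ f) (k := 4 * 2 ^ f) (by omega) (by omega)
  have e1 : 2 ^ f * (2 * 3) = 6 * 2 ^ f := by ring
  have e2 : 2 ^ f * (2 * 2) = 4 * 2 ^ f := by ring
  have e3 : (2 * 3).choose (2 * 2) = 15 := by decide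
  rw [e1, e2, e3] at h1
  rw [h1] at h2
  have h3 : ((6 * 2 ^ f - 1).choose (4 * 2 ^ f - 1) : ℚ) = 10 * u := by
    have hq : (0 : ℚ) < 2 ^ f := by positivity
    apply mul_left_cancel₀ hq.ne'
    push_cast at h2
    linarith
  rw [h3]
  have := (Cg_int 4 10).mul hu
  norm_num at this
  exact this

theorem b84 (f : ℕ) : Cg 3 ((8 * 2 ^ f - 1).choose (4 * 2 ^ f - 1) : ℚ) 3 := by
  have hp : 0 < 2 ^ f := by positivity
  obtain ⟨u, hu, h1⟩ := choose_chain (α := 4) (β := 2) (by norm_num) f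
  have h2 := choose_pred (n := 8 * 2 ^ f) (k := 4 * 2 ^ f) (by omega) (by omega)
  have e1 : 2 ^ f * (2 * 4) = 8 * 2 ^ f := by ring
  have e2 : 2 ^ f * (2 * 2) = 4 * 2 ^ f := by ring
  have e3 : (2 * 4).choose (2 * 2) = 70 := by decide
  rw [e1, e2, e3] at h1
  rw [h1] at h2
  have h3 : ((8 * 2 ^ f - 1).choose (4 * 2 ^ f - 1) : ℚ) = 35 * u := by
    have hq : (0 : ℚ) < 2 ^ f := by positivity
    apply mul_left_cancel₀ hq.ne'
    push_cast at h2
    linarith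
  rw [h3]
  have := ((Cg_int 4 35).mul hu).mono (by norm_num : 3 ≤ 4)
  norm_num at this
  exact this.red (by norm_num)

/-- from `C(16H,2k)` to `C(16H-2,2k)` -/
theorem choose_drop {N k : ℕ} (hN : 2 ≤ N) (hk : k + 1 ≤ N) :
    ((N - 2).choose k : ℚ) * ((N : ℚ) * (N - 1)) =
      (N.choose k : ℚ) * (((N : ℚ) - k) * (N - 1 - k)) := by
  obtain ⟨m, rfl⟩ : ∃ m, N = m + 2 := ⟨N - 2, by omega⟩
  have h1 := Nat.choose_mul_succ_eq m k
  have h2 := Nat.choose_mul_succ_eq (m + 1) k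
  rw [Nat.add_sub_cancel]
  have c1 : ((m + 1 - k : ℕ) : ℚ) = (m : ℚ) + 1 - k := by
    rw [Nat.cast_sub (by omega)]
    push_cast
    ring
  have c2 : ((m + 1 + 1 - k : ℕ) : ℚ) = (m : ℚ) + 2 - k := by
    rw [Nat.cast_sub (by omega)]
    push_cast
    ring
  have h1' : (m.choose k : ℚ) * ((m : ℚ) + 1) = ((m + 1).choose k : ℚ) * ((m : ℚ) + 1 - k) := by
    rw [← c1]
    exact_mod_cast h1
  have h2' : ((m + 1).choose k : ℚ) * ((m : ℚ) + 2) =
      ((m + 2).choose k : ℚ) * ((m : ℚ) + 2 - k) := by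
    rw [← c2]
    have : (m + 1).choose k * (m + 2) = (m + 2).choose k * (m + 1 + 1 - k) := h2
    exact_mod_cast this
  push_cast
  linear_combination ((m : ℚ) + 2) * h1' + ((m : ℚ) + 1 - k) * h2'

theorem b16_4 {f : ℕ} (hf : 2 ≤ f) :
    Cg 3 ((16 * 2 ^ f - 2).choose (4 * 2 ^ f) : ℚ) 5 := by
  have hp : 0 < 2 ^ f := by positivity
  obtain ⟨u, hu, h1⟩ := choose_chain (α := 8) (β := 2) (by norm_num) f
  have e1 : 2 ^ f * (2 * 8) = 16 * 2 ^ f := by ring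
  have e2 : 2 ^ f * (2 * 2) = 4 * 2 ^ f := by ring
  have e3 : (2 * 8).choose (2 * 2) = 1820 := by decide
  rw [e1, e2, e3] at h1
  have h2 := choose_drop (N := 16 * 2 ^ f) (k := 4 * 2 ^ f) (by omega) (by omega)
  rw [h1] at h2
  obtain ⟨g, rfl⟩ := Nat.exists_eq_add_of_le hf
  have hA : Cg 4 (((12 * 2 ^ (2 + g) - 1 : ℕ) : ℚ) / ((16 * 2 ^ (2 + g) - 1 : ℕ) : ℚ)) 1 := by
    apply Cg_div (by omega)
    apply Nat.ModEq.symm
    have e4 : 16 * 2 ^ (2 + g) = 16 * (4 * 2 ^ g) := by rw [pow_add]; ring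
    have e5 : 12 * 2 ^ (2 + g) = 16 * (3 * 2 ^ g) := by rw [pow_add]; ring
    have hg : 0 < 2 ^ g := by positivity
    have e6 : (2 : ℕ) ^ 4 = 16 := by norm_num
    rw [e4, e5, e6]
    unfold Nat.ModEq
    omega
  have hB : ((16 * 2 ^ (2 + g) - 1 : ℕ) : ℚ) ≠ 0 := by
    have : 16 * 2 ^ (2 + g) - 1 ≠ 0 := by omega
    exact_mod_cast this
  have h3 : ((16 * 2 ^ (2 + g) - 2).choose (4 * 2 ^ (2 + g)) : ℚ) = 1365 * u *
      (((12 * 2 ^ (2 + g) - 1 : ℕ) : ℚ) / ((16 * 2 ^ (2 + g) - 1 : ℕ) : ℚ)) := by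
    rw [← mul_div_assoc, eq_div_iff hB]
    have hq : (0 : ℚ) < 2 ^ (2 + g) := by positivity
    have e7 : ((12 * 2 ^ (2 + g) - 1 : ℕ) : ℚ) = 12 * 2 ^ (2 + g) - 1 := by
      rw [Nat.cast_sub (by omega)]
      push_cast
      ring
    have e8 : ((16 * 2 ^ (2 + g) - 1 : ℕ) : ℚ) = 16 * 2 ^ (2 + g) - 1 := by
      rw [Nat.cast_sub (by omega)]
      push_cast
      ring
    rw [e7, e8]
    have hq16 : (16 * (2 : ℚ) ^ (2 + g)) ≠ 0 := by positivity
    apply mul_left_cancel₀ hq16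
    push_cast at h2
    linear_combination h2
  rw [h3]
  have e9 : (1365 : ℚ) = ((1365 : ℤ) : ℚ) := by norm_num
  rw [e9]
  exact ((((Cg_int 4 1365).mul hu).mul hA).mono (by norm_num : 3 ≤ 4)).red (by norm_num)

theorem b16_8 {f : ℕ} (hf : 2 ≤ f) :
    Cg 4 ((16 * 2 ^ f - 2).choose (8 * 2 ^ f) : ℚ) 3 := by
  have hp : 0 < 2 ^ f := by positivity
  obtain ⟨u, hu, h1⟩ := choose_chain (α := 8) (β := 4) (by norm_num) f
  have e1 : 2 ^ f * (2 * 8) = 16 * 2 ^ f := by ring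
  have e2 : 2 ^ f * (2 * 4) = 8 * 2 ^ f := by ring
  have e3 : (2 * 8).choose (2 * 4) = 12870 := by decide
  rw [e1, e2, e3] at h1
  have h2 := choose_drop (N := 16 * 2 ^ f) (k := 8 * 2 ^ f) (by omega) (by omega)
  rw [h1] at h2
  obtain ⟨g, rfl⟩ := Nat.exists_eq_add_of_le hf
  have hA : Cg 4 (((8 * 2 ^ (2 + g) - 1 : ℕ) : ℚ) / ((16 * 2 ^ (2 + g) - 1 : ℕ) : ℚ)) 1 := by
    apply Cg_div (by omega)
    apply Nat.ModEq.symm
    have e4 : 16 * 2 ^ (2 + g) = 16 * (4 * 2 ^ g) := by rw [pow_add]; ring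
    have e5 : 8 * 2 ^ (2 + g) = 16 * (2 * 2 ^ g) := by rw [pow_add]; ring
    have hg : 0 < 2 ^ g := by positivity
    have e6 : (2 : ℕ) ^ 4 = 16 := by norm_num
    rw [e4, e5, e6]
    unfold Nat.ModEq
    omega
  have hB : ((16 * 2 ^ (2 + g) - 1 : ℕ) : ℚ) ≠ 0 := by
    have : 16 * 2 ^ (2 + g) - 1 ≠ 0 := by omega
    exact_mod_cast this
  have h3 : ((16 * 2 ^ (2 + g) - 2).choose (8 * 2 ^ (2 + g)) : ℚ) = 6435 * u *
      (((8 * 2 ^ (2 + g) - 1 : ℕ) : ℚ) / ((16 * 2 ^ (2 + g) - 1 : ℕ) : ℚ)) := by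
    rw [← mul_div_assoc, eq_div_iff hB]
    have e7 : ((8 * 2 ^ (2 + g) - 1 : ℕ) : ℚ) = 8 * 2 ^ (2 + g) - 1 := by
      rw [Nat.cast_sub (by omega)]
      push_cast
      ring
    have e8 : ((16 * 2 ^ (2 + g) - 1 : ℕ) : ℚ) = 16 * 2 ^ (2 + g) - 1 := by
      rw [Nat.cast_sub (by omega)]
      push_cast
      ring
    rw [e7, e8]
    have hq16 : (16 * (2 : ℚ) ^ (2 + g)) ≠ 0 := by positivity
    apply mul_left_cancel₀ hq16
    push_cast at h2
    linear_combination h2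
  rw [h3]
  have e9 : (6435 : ℚ) = ((6435 : ℤ) : ℚ) := by norm_num
  rw [e9]
  exact (((Cg_int 4 6435).mul hu).mul hA).red (by norm_num)

end Pool.Agent.Helper66.PF
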