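import Pool.Agent.Helper66.PF.Od

/-! # the square root of the coefficient series, 2-adically -/

namespace Pool.Agent.Helper66.PF

open Finset

/-- the situation of the argument: `H = 2^f`, `h = 4H` -/
structure Dat where
  /-- the exponent -/
  f : ℕ
  /-- cumulants -/
  κ : ℕ → ℚ
  /-- coefficients -/
  G : ℕ → ℚ
  /-- the square -/
  c : ℕ → ℚ
  /-- the square root -/
  q : ℕ → ℚ
  /-- binomials -/
  Bin : ℕ → ℕ
  hκ : ∀ i, 1 ≤ i → ∃ ε, Od ε ∧ κ i = 2 ^ (f + 1) * ε / i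
  hG0 : G 0 = 1
  hG : ∀ k, G (k + 1) =
    ∑ l ∈ range (k + 1), ((2 * k + 1).choose (2 * l + 1) : ℚ) * κ (l + 1) * G (k - l)
  hBin : ∀ k, k ≤ 4 * 2 ^ f → Bin k % 2 = 1
  hc : ∀ k, c k = Bin k * G k
  hq0 : q 0 = 1
  hq : ∀ k, ∑ l ∈ range (k + 1), q l * q (k - l) = c k

namespace Dat

variable (D : Dat)

/-- the small block -/
def H : ℕ := 2 ^ D.f

/-- the block length -/
def h : ℕ := 4 * 2 ^ D.f

theorem H_pos : 0 < D.H := by
  unfold H
  positivity

theorem h_eq : D.h = 4 * D.H := rfl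

theorem h_pos : 0 < D.h := by
  have := D.H_pos
  rw [h_eq]
  omega

theorem kap_h {i : ℕ} (hi : 1 ≤ i) (hd : ¬ D.h ∣ i) : D.κ i ∈ Z2 := by
  obtain ⟨ε, hε, he⟩ := D.hκ i hi
  have h1 : padicValNat 2 i ≤ D.f + 1 := by
    by_contra hc
    apply hd
    have : (2 : ℕ) ^ (D.f + 2) ∣ i := (padicValNat_dvd_iff_le (by omega)).mpr (by omega)
    have e : D.h = 2 ^ (D.f + 2) := by
      unfold h
      rw [pow_add]
      ring
    rw [e]
    exact this
  have h2 : D.κ i = ε * ((2 : ℚ) ^ (D.f + 1) / i) := by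
    rw [he]
    ring
  rw [h2]
  exact Z2.mul_mem hε.mem (two_pow_div (by omega) h1)

theorem kap_H {i : ℕ} (hi : 1 ≤ i) (hd : ¬ D.H ∣ i) : D.κ i / 4 ∈ Z2 := by
  obtain ⟨ε, hε, he⟩ := D.hκ i hi
  have h1 : padicValNat 2 i + 1 ≤ D.f := by
    by_contra hc
    apply hd
    exact (padicValNat_dvd_iff_le (by omega)).mpr (by omega)
  obtain ⟨g, hg⟩ : ∃ g, D.f = g + 1 := ⟨D.f - 1, by omega⟩
  have h2 : D.κ i / 4 = ε * ((2 : ℚ) ^ g / i) := by
    rw [he, hg]
    ring
  rw [h2]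
  exact Z2.mul_mem hε.mem (two_pow_div (by omega) (by omega))

theorem castH : ((D.H : ℕ) : ℚ) = 2 ^ D.f := by
  unfold H
  push_cast
  rfl

theorem kap1 : Od (D.κ D.H / 2) := by
  obtain ⟨ε, hε, he⟩ := D.hκ D.H D.H_pos
  have h2 : D.κ D.H / 2 = ε := by
    rw [he, castH]
    field_simp
    ring
  rw [h2]
  exact hε

theorem kap2 : Od (D.κ (2 * D.H)) := by
  obtain ⟨ε, hε, he⟩ := D.hκ (2 * D.H) (by have := D.H_pos; omega)
  have h2 : D.κ (2 * D.H) = ε := by
    rw [he]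
    push_cast
    rw [castH]
    field_simp
    ring
  rw [h2]
  exact hε

theorem kap3 : D.κ (3 * D.H) / 2 ∈ Z2 := by
  obtain ⟨ε, hε, he⟩ := D.hκ (3 * D.H) (by have := D.H_pos; omega)
  have h2 : D.κ (3 * D.H) / 2 = ε * (1 / ((3 : ℕ) : ℚ)) := by
    rw [he]
    push_cast
    rw [castH]
    field_simp
    ring
  rw [h2]
  exact Z2.mul_mem hε.mem (inv_mem (by norm_num))

theorem kap4 : Od (2 * D.κ D.h) := by
  obtain ⟨ε, hε, he⟩ := D.hκ D.h D.h_pos
  have h2 : 2 * D.κ D.h = ε := by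
    rw [he, h_eq]
    push_cast
    rw [castH]
    field_simp
    ring
  rw [h2]
  exact hε

theorem kap_mul {i : ℕ} (hi : 1 ≤ i) : 2 ^ (i / D.h) * D.κ i ∈ Z2 := by
  by_cases hd : D.h ∣ i
  · obtain ⟨m, rfl⟩ := hd
    have hm : 1 ≤ m := by
      rcases m with _ | m
      · simp at hi
      · omega
    obtain ⟨ε, hε, he⟩ := D.hκ _ hi
    rw [Nat.mul_div_cancel_left _ D.h_pos]
    obtain ⟨m', rfl⟩ : ∃ m', m = m' + 1 := ⟨m - 1, by omega⟩
    have h2 : 2 ^ (m' + 1) * D.κ (D.h * (m' + 1)) = ε * (2 ^ m' / ((m' + 1 : ℕ) : ℚ)) := by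
      rw [he, h_eq]
      push_cast
      rw [castH]
      field_simp
      ring
    rw [h2]
    refine Z2.mul_mem hε.mem (two_pow_div (by omega) ?_)
    have h3 : 2 ^ padicValNat 2 (m' + 1) ∣ m' + 1 := pow_padicValNat_dvd
    have h4 := Nat.le_of_dvd (by omega) h3
    have h5 : padicValNat 2 (m' + 1) < 2 ^ padicValNat 2 (m' + 1) := Nat.lt_two_pow_self
    omega
  · exact Z2.mul_mem (Z2.pow_mem two_mem _) (D.kap_h hi hd)

theorem G_all (k : ℕ) : 2 ^ (k / D.h) * D.G k ∈ Z2 := by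
  induction k using Nat.strong_induction_on with
  | _ k ih =>
    rcases k with _ | k
    · rw [D.hG0]
      simp [Z2.one_mem]
    · rw [D.hG, Finset.mul_sum]
      refine Z2.sum_mem fun l hl => ?_
      have hl' : l ≤ k := by
        have := Finset.mem_range.mp hl
        omega
      have h1 : (l + 1) / D.h + (k - l) / D.h ≤ (k + 1) / D.h := by
        have h2 : k + 1 = (l + 1) + (k - l) := by omega
        rw [h2]
        exact Nat.div_add_div_le_add_div
      obtain ⟨r, hr⟩ := Nat.exists_eq_add_of_le h1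
      have h3 : (2 : ℚ) ^ ((k + 1) / D.h) * (((2 * k + 1).choose (2 * l + 1) : ℚ) *
          D.κ (l + 1) * D.G (k - l)) = (2 ^ r * ((2 * k + 1).choose (2 * l + 1) : ℚ)) *
          ((2 ^ ((l + 1) / D.h) * D.κ (l + 1)) * (2 ^ ((k - l) / D.h) * D.G (k - l))) := by
        rw [hr, pow_add, pow_add]
        ring
      rw [h3]
      exact Z2.mul_mem (Z2.mul_mem (Z2.pow_mem two_mem _) (nat_mem _))
        (Z2.mul_mem (D.kap_mul (by omega)) (ih _ (by omega)))

theorem G_mem {k : ℕ} (hk : k < D.h) : D.G k ∈ Z2 := by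
  have := D.G_all k
  rwa [Nat.div_eq_of_lt hk, pow_zero, one_mul] at this

theorem not_h {i : ℕ} (hi : 1 ≤ i) (hk : i < D.h) : ¬ D.h ∣ i := fun hd => by
  have := Nat.le_of_dvd hi hd
  omega

theorem G_quart {k : ℕ} (hk : k < D.h) (hd : ¬ D.H ∣ k) : D.G k / 4 ∈ Z2 := by
  induction k using Nat.strong_induction_on with
  | _ k ih =>
    rcases k with _ | k
    · exact absurd (dvd_zero _) hd
    · rw [D.hG, Finset.sum_div]
      refine Z2.sum_mem fun l hl => ?_
      have hl' : l ≤ k := by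
        have := Finset.mem_range.mp hl
        omega
      by_cases hl2 : D.H ∣ l + 1
      · have h1 : ¬ D.H ∣ k - l := fun h2 => by
          apply hd
          have h3 : k + 1 = (l + 1) + (k - l) := by omega
          rw [h3]
          exact dvd_add hl2 h2
        have h2 := ih (k - l) (by omega) (by omega) h1
        have h3 := D.kap_h (i := l + 1) (by omega) (D.not_h (by omega) (by omega))
        have h4 : ((2 * k + 1).choose (2 * l + 1) : ℚ) * D.κ (l + 1) * D.G (k - l) / 4 =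
            ((2 * k + 1).choose (2 * l + 1) : ℚ) * D.κ (l + 1) * (D.G (k - l) / 4) := by ring
        rw [h4]
        exact Z2.mul_mem (Z2.mul_mem (nat_mem _) h3) h2
      · have h1 := D.kap_H (i := l + 1) (by omega) hl2
        have h2 := D.G_mem (k := k - l) (by omega)
        have h4 : ((2 * k + 1).choose (2 * l + 1) : ℚ) * D.κ (l + 1) * D.G (k - l) / 4 =
            ((2 * k + 1).choose (2 * l + 1) : ℚ) * (D.κ (l + 1) / 4) * (D.G (k - l)) := by ring
        rw [h4]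
        exact Z2.mul_mem (Z2.mul_mem (nat_mem _) h1) h2

/-- the terms with a small index -/
theorem term_quart {k l : ℕ} (hl : l ≤ k) (hk : k + 1 ≤ D.h) (hl2 : ¬ D.H ∣ l + 1) :
    ((2 * k + 1).choose (2 * l + 1) : ℚ) * D.κ (l + 1) * D.G (k - l) / 4 ∈ Z2 := by
  have h1 := D.kap_H (i := l + 1) (by omega) hl2
  have h2 := D.G_mem (k := k - l) (by omega)
  have h4 : ((2 * k + 1).choose (2 * l + 1) : ℚ) * D.κ (l + 1) * D.G (k - l) / 4 =
      ((2 * k + 1).choose (2 * l + 1) : ℚ) * (D.κ (l + 1) / 4) * (D.G (k - l)) := by ring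
  rw [h4]
  exact Z2.mul_mem (Z2.mul_mem (nat_mem _) h1) h2

theorem G_last (k : ℕ) : D.G (k + 1) = D.κ (k + 1) +
    ∑ l ∈ range k, ((2 * k + 1).choose (2 * l + 1) : ℚ) * D.κ (l + 1) * D.G (k - l) := by
  rw [D.hG, Finset.sum_range_succ, Nat.sub_self, D.hG0, Nat.choose_self, Nat.cast_one]
  ring

theorem G1 : Od (D.G D.H / 2) := by
  obtain ⟨k, hk⟩ : ∃ k, D.H = k + 1 := ⟨D.H - 1, by have := D.H_pos; omega⟩
  have h1 := D.G_last k
  have h2 : (∑ l ∈ range k, ((2 * k + 1).choose (2 * l + 1) : ℚ) * D.κ (l + 1) * D.G (k - l)) / 4 ∈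
      Z2 := by
    rw [Finset.sum_div]
    refine Z2.sum_mem fun l hl => ?_
    have hl' := Finset.mem_range.mp hl
    exact D.term_quart (by omega) (by rw [h_eq]; omega) (fun hd => by
      have := Nat.le_of_dvd (by omega) hd
      omega)
  have h3 := D.kap1
  rw [hk] at h3 ⊢
  rw [h1, add_div]
  refine h3.add ?_
  rw [div_div]
  norm_num
  exact h2

theorem G1_half : D.G D.H / 2 ∈ Z2 := D.G1.mem

theorem G2 : Od (D.G (2 * D.H)) := by
  have hH := D.H_pos
  obtain ⟨k, hk⟩ : ∃ k, 2 * D.H = k + 1 := ⟨2 * D.H - 1, by omega⟩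
  have h1 := D.G_last k
  have h2 : (∑ l ∈ range k, ((2 * k + 1).choose (2 * l + 1) : ℚ) * D.κ (l + 1) * D.G (k - l)) / 2 ∈
      Z2 := by
    rw [Finset.sum_div]
    refine Z2.sum_mem fun l hl => ?_
    have hl' := Finset.mem_range.mp hl
    by_cases hd : l + 1 = D.H
    · have e1 : k - l = D.H := by omega
      rw [hd, e1]
      have h3 : ((2 * k + 1).choose (2 * l + 1) : ℚ) * D.κ D.H * D.G D.H / 2 =
          ((2 * k + 1).choose (2 * l + 1) : ℚ) * 2 * (D.κ D.H / 2) * (D.G D.H / 2) := by ring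
      rw [h3]
      exact Z2.mul_mem (Z2.mul_mem (Z2.mul_mem (nat_mem _) two_mem) D.kap1.mem) D.G1_half
    · have h3 := D.term_quart (k := k) (l := l) (by omega) (by rw [h_eq]; omega) (fun hd2 => by
        obtain ⟨c, hc⟩ := hd2
        have hc1 : c ≠ 1 := by
          rintro rfl
          omega
        have hc2 : c < 2 := by
          by_contra hc3
          have : D.H * 2 ≤ D.H * c := Nat.mul_le_mul_left _ (by omega)
          omega
        have hc0 : c = 0 := by omega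
        rw [hc0] at hc
        omega)
      have h4 : ((2 * k + 1).choose (2 * l + 1) : ℚ) * D.κ (l + 1) * D.G (k - l) / 2 =
          2 * (((2 * k + 1).choose (2 * l + 1) : ℚ) * D.κ (l + 1) * D.G (k - l) / 4) := by ring
      rw [h4]
      exact Z2.mul_mem two_mem h3
  have h3 := D.kap2
  rw [hk] at h3 ⊢
  rw [h1]
  exact h3.add h2

theorem G3 : D.G (3 * D.H) / 2 ∈ Z2 := by
  have hH := D.H_pos
  obtain ⟨k, hk⟩ : ∃ k, 3 * D.H = k + 1 := ⟨3 * D.H - 1, by omega⟩
  have h1 := D.G_last k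
  have h2 : (∑ l ∈ range k, ((2 * k + 1).choose (2 * l + 1) : ℚ) * D.κ (l + 1) * D.G (k - l)) / 2 ∈
      Z2 := by
    rw [Finset.sum_div]
    refine Z2.sum_mem fun l hl => ?_
    have hl' := Finset.mem_range.mp hl
    by_cases hd : l + 1 = D.H
    · rw [hd]
      have h3 : ((2 * k + 1).choose (2 * l + 1) : ℚ) * D.κ D.H * D.G (k - l) / 2 =
          ((2 * k + 1).choose (2 * l + 1) : ℚ) * (D.κ D.H / 2) * (D.G (k - l)) := by ring
      rw [h3]
      exact Z2.mul_mem (Z2.mul_mem (nat_mem _) D.kap1.mem) (D.G_mem (by rw [h_eq]; omega))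
    · by_cases hd' : l + 1 = 2 * D.H
      · have e1 : k - l = D.H := by omega
        rw [e1]
        have h3 : ((2 * k + 1).choose (2 * l + 1) : ℚ) * D.κ (l + 1) * D.G D.H / 2 =
            ((2 * k + 1).choose (2 * l + 1) : ℚ) * D.κ (l + 1) * (D.G D.H / 2) := by ring
        rw [h3]
        exact Z2.mul_mem (Z2.mul_mem (nat_mem _) (D.kap_h (by omega)
          (D.not_h (by omega) (by rw [h_eq]; omega)))) D.G1_half
      · have h3 := D.term_quart (k := k) (l := l) (by omega) (by rw [h_eq]; omega) (fun hd2 => by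
          obtain ⟨c, hc⟩ := hd2
          have hc1 : c ≠ 1 := by
            rintro rfl
            omega
          have hc2 : c ≠ 2 := by
            rintro rfl
            omega
          have hc2 : c < 3 := by
            by_contra hc3
            have : D.H * 3 ≤ D.H * c := Nat.mul_le_mul_left _ (by omega)
            omega
          have hc0 : c = 0 := by omega
          rw [hc0] at hc
          omega)
        have h4 : ((2 * k + 1).choose (2 * l + 1) : ℚ) * D.κ (l + 1) * D.G (k - l) / 2 =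
            2 * (((2 * k + 1).choose (2 * l + 1) : ℚ) * D.κ (l + 1) * D.G (k - l) / 4) := by ring
        rw [h4]
        exact Z2.mul_mem two_mem h3
  have h3 := D.kap3
  rw [hk] at h3 ⊢
  rw [h1, add_div]
  exact Z2.add_mem h3 h2

theorem G4 : Od (2 * D.G D.h) := by
  have hH := D.h_pos
  obtain ⟨k, hk⟩ : ∃ k, D.h = k + 1 := ⟨D.h - 1, by omega⟩
  have h1 := D.G_last k
  have h2 : (∑ l ∈ range k, ((2 * k + 1).choose (2 * l + 1) : ℚ) * D.κ (l + 1) * D.G (k - l)) ∈
      Z2 := by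
    refine Z2.sum_mem fun l hl => ?_
    have hl' := Finset.mem_range.mp hl
    exact Z2.mul_mem (Z2.mul_mem (nat_mem _) (D.kap_h (by omega)
      (D.not_h (by omega) (by omega)))) (D.G_mem (by omega))
  have h3 := D.kap4
  rw [hk] at h3 ⊢
  rw [h1, mul_add]
  refine h3.add ?_
  rw [mul_div_assoc, mul_comm, div_mul_cancel₀ _ (by norm_num : (2 : ℚ) ≠ 0)]
  exact h2

/-! ### the coefficients of the square -/

theorem c_quart {k : ℕ} (hk : k < D.h) (hd : ¬ D.H ∣ k) : D.c k / 4 ∈ Z2 := by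
  rw [D.hc, mul_div_assoc]
  exact Z2.mul_mem (nat_mem _) (D.G_quart hk hd)

theorem c1 : Od (D.c D.H / 2) := by
  rw [D.hc, mul_div_assoc]
  exact (Od_nat (D.hBin _ (by have := D.H_pos; change D.H ≤ 4 * D.H; omega))).mul D.G1

theorem c2 : Od (D.c (2 * D.H)) := by
  rw [D.hc]
  exact (Od_nat (D.hBin _ (by have := D.H_pos; change 2 * D.H ≤ 4 * D.H; omega))).mul D.G2

theorem c3 : D.c (3 * D.H) / 2 ∈ Z2 := by
  rw [D.hc, mul_div_assoc]
  exact Z2.mul_mem (nat_mem _) D.G3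

theorem c4 : Od (2 * D.c D.h) := by
  have h1 := (Od_nat (D.hBin D.h le_rfl)).mul D.G4
  have h2 : 2 * D.c D.h = (D.Bin D.h : ℚ) * (2 * D.G D.h) := by
    rw [D.hc]
    ring
  rw [h2]
  exact h1

theorem c_all {m k : ℕ} (hm : 1 ≤ m) (hk : k / D.h = m) :
    4 ^ m * (m.factorial : ℚ) * D.c k / 2 ∈ Z2 := by
  obtain ⟨t, rfl⟩ : ∃ t, m = t + 1 := ⟨m - 1, by omega⟩
  have h1 := D.G_all k
  rw [hk] at h1
  have h2 : 4 ^ (t + 1) * ((t + 1).factorial : ℚ) * D.c k / 2 =
      ((2 ^ t * (t + 1).factorial * D.Bin k : ℕ) : ℚ) * (2 ^ (t + 1) * D.G k) := by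
    rw [D.hc]
    have : (4 : ℚ) ^ (t + 1) = 2 ^ (t + 1) * 2 ^ (t + 1) := by
      rw [← mul_pow]
      norm_num
    rw [this]
    push_cast
    ring
  rw [h2]
  exact Z2.mul_mem (nat_mem _) h1

theorem c_block {m : ℕ} (hm : 2 ≤ m) : 4 ^ m * (m.factorial : ℚ) * D.c (D.h * m) / 4 ∈ Z2 := by
  obtain ⟨t, rfl⟩ : ∃ t, m = t + 2 := ⟨m - 2, by omega⟩
  have h1 := D.G_all (D.h * (t + 2))
  rw [Nat.mul_div_cancel_left _ D.h_pos] at h1
  have h2 : 4 ^ (t + 2) * ((t + 2).factorial : ℚ) * D.c (D.h * (t + 2)) / 4 =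
      ((2 ^ t * (t + 2).factorial * D.Bin (D.h * (t + 2)) : ℕ) : ℚ) *
        (2 ^ (t + 2) * D.G (D.h * (t + 2))) := by
    rw [D.hc]
    have : (4 : ℚ) ^ (t + 2) = 2 ^ (t + 2) * 2 ^ (t + 2) := by
      rw [← mul_pow]
      norm_num
    rw [this]
    push_cast
    ring
  rw [h2]
  exact Z2.mul_mem (nat_mem _) h1

end Dat

end Pool.Agent.Helper66.PF
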