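import Pool.Agent.Helper66.PF.Od

/-! # congruences modulo powers of two in the 2-integral rational numbers -/

namespace Pool.Agent.Helper66.PF

open Finset

/-- `x ≡ a` modulo `2^k` -/
def Cg (k : ℕ) (x : ℚ) (a : ℤ) : Prop := ∃ z ∈ Z2, x = a + 2 ^ k * z

theorem Cg.mem {k : ℕ} {x : ℚ} {a : ℤ} (h : Cg k x a) : x ∈ Z2 := by
  obtain ⟨z, hz, rfl⟩ := h
  exact Z2.add_mem (int_mem a) (Z2.mul_mem (Z2.pow_mem two_mem _) hz)

theorem Cg.add {k : ℕ} {x y : ℚ} {a b : ℤ} (h : Cg k x a) (h' : Cg k y b) :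
    Cg k (x + y) (a + b) := by
  obtain ⟨z, hz, rfl⟩ := h
  obtain ⟨z', hz', rfl⟩ := h'
  exact ⟨z + z', Z2.add_mem hz hz', by push_cast; ring⟩

theorem Cg.neg {k : ℕ} {x : ℚ} {a : ℤ} (h : Cg k x a) : Cg k (-x) (-a) := by
  obtain ⟨z, hz, rfl⟩ := h
  exact ⟨-z, Z2.neg_mem hz, by push_cast; ring⟩

theorem Cg.sub {k : ℕ} {x y : ℚ} {a b : ℤ} (h : Cg k x a) (h' : Cg k y b) :
    Cg k (x - y) (a - b) := by
  obtain ⟨z, hz, rfl⟩ := h
  obtain ⟨z', hz', rfl⟩ := h'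
  exact ⟨z - z', Z2.sub_mem hz hz', by push_cast; ring⟩

theorem Cg.mul {k : ℕ} {x y : ℚ} {a b : ℤ} (h : Cg k x a) (h' : Cg k y b) :
    Cg k (x * y) (a * b) := by
  have hx := h.mem
  obtain ⟨z, hz, e⟩ := h
  obtain ⟨z', hz', e'⟩ := h'
  refine ⟨z * b + x * z', Z2.add_mem (Z2.mul_mem hz (int_mem b)) (Z2.mul_mem hx hz'), ?_⟩
  rw [e']
  push_cast
  have : x * ((b : ℚ) + 2 ^ k * z') = x * b + 2 ^ k * (x * z') := by ring
  rw [this]
  have h2 : x * (b : ℚ) = a * b + 2 ^ k * (z * b) := by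
    rw [e]
    ring
  rw [h2]
  ring

theorem Cg.red {k : ℕ} {x : ℚ} {a b : ℤ} (h : Cg k x a) (hab : (2 : ℤ) ^ k ∣ a - b) :
    Cg k x b := by
  obtain ⟨z, hz, e⟩ := h
  obtain ⟨c, hc⟩ := hab
  refine ⟨z + c, Z2.add_mem hz (int_mem c), ?_⟩
  have h1 : (a : ℚ) = b + 2 ^ k * c := by
    have : a = b + 2 ^ k * c := by omega
    rw [this]
    push_cast
    ring
  rw [e, h1]
  ring

theorem Cg.mono {k j : ℕ} {x : ℚ} {a : ℤ} (h : Cg k x a) (hj : j ≤ k) : Cg j x a := by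
  obtain ⟨z, hz, e⟩ := h
  obtain ⟨r, rfl⟩ := Nat.exists_eq_add_of_le hj
  exact ⟨2 ^ r * z, Z2.mul_mem (Z2.pow_mem two_mem _) hz, by rw [e, pow_add]; ring⟩

theorem Cg.two {k : ℕ} {x : ℚ} {a : ℤ} (h : Cg k x a) : Cg (k + 1) (2 * x) (2 * a) := by
  obtain ⟨z, hz, e⟩ := h
  exact ⟨z, hz, by rw [e, pow_succ]; push_cast; ring⟩

theorem Cg.half {k : ℕ} {x : ℚ} {a : ℤ} (h : Cg (k + 1) (2 * x) (2 * a)) : Cg k x a := by
  obtain ⟨z, hz, e⟩ := h
  refine ⟨z, hz, ?_⟩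
  rw [pow_succ] at e
  push_cast at e
  linarith

theorem Cg_int (k : ℕ) (a : ℤ) : Cg k (a : ℚ) a := ⟨0, Z2.zero_mem, by ring⟩

theorem Cg_nat (k m : ℕ) : Cg k (m : ℚ) (m : ℤ) := ⟨0, Z2.zero_mem, by push_cast; ring⟩

theorem Cg_zero {k : ℕ} {z : ℚ} (h : z / 2 ^ k ∈ Z2) : Cg k z 0 := by
  refine ⟨z / 2 ^ k, h, ?_⟩
  have : (2 : ℚ) ^ k ≠ 0 := by positivity
  field_simp
  push_cast
  ring

theorem Cg.zero {k : ℕ} {z : ℚ} (h : Cg k z 0) : z / 2 ^ k ∈ Z2 := by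
  obtain ⟨w, hw, e⟩ := h
  have h1 : (2 : ℚ) ^ k ≠ 0 := by positivity
  have : z / 2 ^ k = w := by
    rw [e]
    push_cast
    field_simp
    ring
  rw [this]
  exact hw

theorem Cg_pow_mul {k : ℕ} {z : ℚ} (h : z ∈ Z2) : Cg k (2 ^ k * z) 0 :=
  ⟨z, h, by push_cast; ring⟩

theorem Cg_of_mem {z : ℚ} (h : z ∈ Z2) (a : ℤ) : Cg 0 z a :=
  ⟨z - a, Z2.sub_mem h (int_mem a), by ring⟩

theorem Cg_of_Od {x : ℚ} (h : Od x) : Cg 1 x 1 := ⟨(x - 1) / 2, h, by push_cast; ring⟩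

theorem Cg.Od {x : ℚ} (h : Cg 1 x 1) : Od x := by
  obtain ⟨z, hz, e⟩ := h
  unfold Pool.Agent.Helper66.PF.Od
  have : (x - 1) / 2 = z := by
    rw [e]
    push_cast
    ring
  rw [this]
  exact hz

theorem Cg_sum {ι : Type*} (s : Finset ι) (k : ℕ) (f : ι → ℚ) (h : ∀ i ∈ s, Cg k (f i) 0) :
    Cg k (∑ i ∈ s, f i) 0 := by
  apply Cg_zero
  rw [Finset.sum_div]
  exact Z2.sum_mem fun i hi => (h i hi).zero

/-- the denominators of the elements are odd -/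
theorem den_odd {z : ℚ} (h : z ∈ Z2) : z.den % 2 = 1 := by
  by_contra hc
  have hd : 2 ∣ z.den := by omega
  have hn : ¬ (2 : ℤ) ∣ z.num := fun h2 => by
    have h3 := z.reduced
    have h4 : 2 ∣ z.num.natAbs := by omega
    have h5 : 2 ∣ Nat.gcd z.num.natAbs z.den := Nat.dvd_gcd h4 hd
    rw [h3] at h5
    omega
  obtain ⟨d, hd'⟩ := hd
  have hd0 : z.den ≠ 0 := z.den_ne_zero
  have h1 : (z.num : ℚ) = 2 * (d * z) := by
    have h2 : (z.den : ℚ) = 2 * d := by exact_mod_cast hd'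
    have h3 : z * z.den = z.num := Rat.mul_den_eq_num z
    rw [← h3, h2]
    ring
  have h4 : (d * z : ℚ) ∈ Z2 := Z2.mul_mem (nat_mem d) h
  have h5 : Od (z.num : ℚ) := by
    have h6 : z.num = 2 * (z.num / 2) + 1 := by omega
    unfold Od
    have h7 : ((z.num : ℚ) - 1) / 2 = ((z.num / 2 : ℤ) : ℚ) := by
      have : (z.num : ℚ) = 2 * ((z.num / 2 : ℤ) : ℚ) + 1 := by exact_mod_cast h6
      rw [this]
      ring_nf
    rw [h7]
    exact int_mem _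
  apply h5.not_even
  rw [h1]
  have : 2 * (d * z : ℚ) / 2 = d * z := by ring
  rw [this]
  exact h4

theorem Z2_cases {z : ℚ} (h : z ∈ Z2) : z / 2 ∈ Z2 ∨ Od z := by
  have hd := den_odd h
  have h3 : z = z.num * (1 / (z.den : ℚ)) := by
    have := Rat.num_div_den z
    rw [mul_one_div]
    exact this.symm
  rcases Int.even_or_odd' z.num with ⟨c, hc | hc⟩
  · left
    have h4 : z / 2 = c * (1 / (z.den : ℚ)) := by
      have h5 : (z.num : ℚ) = 2 * c := by exact_mod_cast hc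
      calc z / 2 = z.num * (1 / (z.den : ℚ)) / 2 := by rw [← h3]
        _ = _ := by
          rw [h5]
          ring
    rw [h4]
    exact Z2.mul_mem (int_mem c) (inv_mem hd)
  · right
    have h5 : (z.num : ℚ) = 2 * c + 1 := by exact_mod_cast hc
    have h6 : Od (z.num : ℚ) := by
      unfold Od
      have : ((z.num : ℚ) - 1) / 2 = c := by
        rw [h5]
        ring
      rw [this]
      exact int_mem c
    have h7 := h6.div hd
    rwa [← mul_one_div, ← h3] at h7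

theorem Od.sq {x : ℚ} (h : Od x) : Cg 3 (x * x) 1 := by
  obtain ⟨z, hz, e⟩ := Cg_of_Od h
  have h1 : x * x = 1 + 4 * (z * (z + 1)) := by
    rw [e]
    push_cast
    ring
  have h2 : z * (z + 1) / 2 ∈ Z2 := by
    rcases Z2_cases hz with h3 | h3
    · have : z * (z + 1) / 2 = z / 2 * (z + 1) := by ring
      rw [this]
      exact Z2.mul_mem h3 (Z2.add_mem hz Z2.one_mem)
    · have : z * (z + 1) / 2 = z * ((z - 1) / 2 + 1) := by ring
      rw [this]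
      exact Z2.mul_mem hz (Z2.add_mem h3 Z2.one_mem)
  exact ⟨z * (z + 1) / 2, h2, by rw [h1]; push_cast; ring⟩

end Pool.Agent.Helper66.PF
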