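import Pool.Agent.Helper66.PF.Root
import Pool.Agent.Helper66.PF.Cum
import Pool.Agent.Helper30.PF.Final

/-! # finiteness for `n` congruent to 15 modulo 16, `n + 1` not a power of two -/

namespace Pool.Agent.Helper66.PF

open Finset Pool.Agent.Helper30.PF

instance : Fact (Nat.Prime 2) := ⟨Nat.prime_two⟩

theorem choose_odd (b : ℕ) (hb : 1 ≤ b) (a : ℕ) : ∀ k < 2 ^ a, (2 ^ a * b - 1).choose k % 2 = 1 := by
  induction a with
  | zero =>
    intro k hk
    obtain rfl : k = 0 := by omega
    simp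
  | succ a ih =>
    intro k hk
    have h1 := Choose.choose_modEq_choose_mod_mul_choose_div_nat (n := 2 ^ (a + 1) * b - 1) (k := k)
      (p := 2)
    have hpos : 1 ≤ 2 ^ a * b := Nat.mul_pos (by positivity) hb
    have e1 : 2 ^ (a + 1) * b = 2 * (2 ^ a * b) := by
      rw [pow_succ]
      ring
    have e2 : (2 ^ (a + 1) * b - 1) % 2 = 1 := by omega
    have e3 : (2 ^ (a + 1) * b - 1) / 2 = 2 ^ a * b - 1 := by omega
    rw [e2, e3] at h1
    have e4 : Nat.choose 1 (k % 2) = 1 := by
      rcases Nat.mod_two_eq_zero_or_one k with h | h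
      · rw [h]
        rfl
      · rw [h]
        rfl
    rw [e4, one_mul] at h1
    have h2 := ih (k / 2) (by
      rw [pow_succ] at hk
      omega)
    unfold Nat.ModEq at h1
    rw [h1, h2]

theorem choose_odd' {s b a : ℕ} (hb : 1 ≤ b) (hs : s + 1 = 2 ^ a * b) {k : ℕ} (hk : k < 2 ^ a) :
    (2 * s).choose (2 * k) % 2 = 1 := by
  have h1 := Choose.choose_modEq_choose_mod_mul_choose_div_nat (n := 2 * s) (k := 2 * k) (p := 2)
  rw [Nat.mul_mod_right, Nat.mul_mod_right, Nat.mul_div_cancel_left _ (by norm_num),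
    Nat.mul_div_cancel_left _ (by norm_num), Nat.choose_zero_right, one_mul] at h1
  have h2 := choose_odd b hb a k hk
  have e : 2 ^ a * b - 1 = s := by omega
  rw [e] at h2
  unfold Nat.ModEq at h1
  rw [h1, h2]

/-- the data of our problem -/
noncomputable def dat (s f b : ℕ) (hb : b % 2 = 1) (hs : s + 1 = 2 ^ (f + 3) * b) : Dat where
  f := f
  κ := kap (2 * s + 1)
  G := Gc (2 * s + 1)
  c := fun k => cc s (2 * k)
  q := fun k => sq (cc s) (2 * k)
  Bin := fun k => (2 * s).choose (2 * k)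
  hκ := fun i hi => by
    refine kap_form hb ?_ hi
    have e : 2 ^ (f + 1 + 3) * b = 2 * (2 ^ (f + 3) * b) := by ring
    rw [e, ← hs]
    ring
  hG0 := Gc_zero _
  hG := fun k => Gc_rec _ k
  hBin := fun k hk => by
    refine choose_odd' (a := f + 3) (b := b) (by omega) hs ?_
    have e : 2 ^ (f + 3) = 8 * 2 ^ f := by ring
    have : 0 < 2 ^ f := by positivity
    omega
  hc := fun k => by
    have h1 : ((2 * s).descFactorial (2 * k) : ℚ) =
        (2 * k).factorial * (2 * s).choose (2 * k) := by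
      exact_mod_cast Nat.descFactorial_eq_factorial_mul_choose (2 * s) (2 * k)
    rw [cc, Gc, h1]
    ring
  hq0 := by rw [mul_zero, sq_zero]
  hq := fun k => conv_even s k

theorem four_q_not_mem' {s f b : ℕ} (hb : b % 2 = 1) (hb3 : 2 ≤ b)
    (hs : s + 1 = 2 ^ (f + 3) * b) : 4 * sq (cc s) (s + 1) ∉ Z2 := by
  have h1 := (dat s f b hb hs).not_mem hb3
  have h2 : (dat s f b hb hs).q ((dat s f b hb hs).h * b) = sq (cc s) (s + 1) := by
    show sq (cc s) (2 * (4 * 2 ^ f * b)) = sq (cc s) (s + 1)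
    congr 1
    rw [hs]
    ring
  rw [h2] at h1
  exact h1

end Pool.Agent.Helper66.PF
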