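import Pool.Agent.Helper66.PF.Int2

/-! # odd 2-adic units among the rational numbers -/

namespace Pool.Agent.Helper66.PF

open Finset

/-- odd 2-adic units -/
def Od (x : ℚ) : Prop := (x - 1) / 2 ∈ Z2

theorem two_mem : (2 : ℚ) ∈ Z2 := by exact_mod_cast nat_mem 2

theorem Od.mem {x : ℚ} (h : Od x) : x ∈ Z2 := by
  have h1 : x = (x - 1) / 2 * 2 + 1 := by ring
  rw [h1]
  exact Z2.add_mem (Z2.mul_mem h two_mem) Z2.one_mem

theorem Od.mul {x y : ℚ} (hx : Od x) (hy : Od y) : Od (x * y) := by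
  have hy' := hy.mem
  unfold Od at *
  have h1 : (x * y - 1) / 2 = (x - 1) / 2 * y + (y - 1) / 2 := by ring
  rw [h1]
  exact Z2.add_mem (Z2.mul_mem hx hy') hy

theorem Od.add {x y : ℚ} (hx : Od x) (hy : y / 2 ∈ Z2) : Od (x + y) := by
  unfold Od at *
  have h1 : (x + y - 1) / 2 = (x - 1) / 2 + y / 2 := by ring
  rw [h1]
  exact Z2.add_mem hx hy

theorem Od.sub {x y : ℚ} (hx : Od x) (hy : y / 2 ∈ Z2) : Od (x - y) := by
  unfold Od at *
  have h1 : (x - y - 1) / 2 = (x - 1) / 2 - y / 2 := by ring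
  rw [h1]
  exact Z2.sub_mem hx hy

theorem Od.neg {x : ℚ} (hx : Od x) : Od (-x) := by
  unfold Od at *
  have h1 : (-x - 1) / 2 = -((x - 1) / 2) - 1 := by ring
  rw [h1]
  exact Z2.sub_mem (Z2.neg_mem hx) Z2.one_mem

theorem Od.sub_odd {x y : ℚ} (hx : Od x) (hy : Od y) : (x - y) / 2 ∈ Z2 := by
  unfold Od at *
  have h1 : (x - y) / 2 = (x - 1) / 2 - (y - 1) / 2 := by ring
  rw [h1]
  exact Z2.sub_mem hx hy

theorem Od.not_even {x : ℚ} (hx : Od x) : x / 2 ∉ Z2 := fun h => by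
  have h1 := Z2.sub_mem h hx
  have h2 : x / 2 - (x - 1) / 2 = 1 / 2 := by ring
  rw [h2] at h1
  exact half_not h1

theorem Od_one : Od 1 := by
  unfold Od
  norm_num

theorem Od_nat {m : ℕ} (h : m % 2 = 1) : Od (m : ℚ) := by
  obtain ⟨t, rfl⟩ : ∃ t, m = 2 * t + 1 := ⟨m / 2, by omega⟩
  unfold Od
  have : (((2 * t + 1 : ℕ) : ℚ) - 1) / 2 = (t : ℚ) := by
    push_cast
    ring
  rw [this]
  exact nat_mem t

theorem inv_mem {m : ℕ} (h : m % 2 = 1) : 1 / (m : ℚ) ∈ Z2 := by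
  have h1 := two_pow_div (m := m) (k := 0) (by omega) (by
    have : ¬ 2 ∣ m := by omega
    rw [padicValNat.eq_zero_of_not_dvd this])
  simpa using h1

theorem Od.div {x : ℚ} {m : ℕ} (hx : Od x) (h : m % 2 = 1) : Od (x / m) := by
  have hm : (m : ℚ) ≠ 0 := by
    have : m ≠ 0 := by omega
    exact_mod_cast this
  have hm' := Od_nat h
  unfold Od at *
  have h1 : (x / m - 1) / 2 = ((x - 1) / 2 - ((m : ℚ) - 1) / 2) * (1 / m) := by
    field_simp
    ring
  rw [h1]
  exact Z2.mul_mem (Z2.sub_mem hx hm') (inv_mem h)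

/-- twice an even Bernoulli number is an odd unit -/
theorem bern_odd {i : ℕ} (hi : 1 ≤ i) : Od (2 * bernoulli (2 * i)) := by
  obtain ⟨z, hz⟩ := Bernoulli.vonStaudt_clausen i
  have h2 : 2 ∈ (range (2 * i + 2)).filter (fun p => p.Prime ∧ (p - 1) ∣ 2 * i) := by
    simp only [Finset.mem_filter, Finset.mem_range]
    exact ⟨by omega, Nat.prime_two, by norm_num⟩
  rw [← Finset.add_sum_erase _ _ h2] at hz
  set S := ∑ p ∈ ((range (2 * i + 2)).filter (fun p => p.Prime ∧ (p - 1) ∣ 2 * i)).erase 2,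
    (1 : ℚ) / p with hS
  have hSm : S ∈ Z2 := by
    rw [hS]
    refine Z2.sum_mem fun p hp => ?_
    rw [Finset.mem_erase, Finset.mem_filter] at hp
    exact inv_mem (by
      rcases hp.2.2.1.eq_two_or_odd with h | h
      · exact absurd h hp.1
      · exact h)
  have h3 : (2 * bernoulli (2 * i) - 1) / 2 = (z : ℚ) - S - 1 := by
    rw [hz]
    push_cast
    ring
  unfold Od
  rw [h3]
  exact Z2.sub_mem (Z2.sub_mem (int_mem z) hSm) Z2.one_mem

/-- power sums over `2^(a+1) b` consecutive integers -/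
theorem pow_sum_odd (i b : ℕ) (hi : 1 ≤ i) (hb : b % 2 = 1) (a : ℕ) :
    ∃ t : ℕ, ∑ x ∈ range (2 ^ (a + 1) * b), x ^ (2 * i) = 2 ^ a * (2 * t + 1) := by
  induction a with
  | zero =>
    have h1 : ∀ c : ℕ, (∑ x ∈ range (2 * c), x ^ (2 * i)) % 2 = c % 2 := by
      intro c
      induction c with
      | zero => simp
      | succ c ih =>
        have e1 : 2 * (c + 1) = 2 * c + 1 + 1 := by ring
        rw [e1, Finset.sum_range_succ, Finset.sum_range_succ, Nat.add_mod,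
          Nat.add_mod _ ((2 * c) ^ (2 * i)), ih]
        have e2 : (2 * c) ^ (2 * i) % 2 = 0 := by
          rw [Nat.pow_mod, Nat.mul_mod_right, Nat.zero_pow (by omega)]
        have e3 : (2 * c + 1) ^ (2 * i) % 2 = 1 := by
          rw [Nat.pow_mod]
          have : (2 * c + 1) % 2 = 1 := by omega
          rw [this, one_pow]
          norm_num
        rw [e2, e3]
        omega
    have h2 := h1 b
    refine ⟨(∑ x ∈ range (2 * b), x ^ (2 * i)) / 2, ?_⟩
    rw [zero_add, pow_one, pow_zero, one_mul]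
    omega
  | succ a ih =>
    obtain ⟨t, ht⟩ := ih
    set M := 2 ^ (a + 1) * b with hM
    have e1 : 2 ^ (a + 1 + 1) * b = M + M := by
      rw [hM, pow_succ]
      ring
    have h1 : ∀ x, (M + x) ^ (2 * i) ≡ x ^ (2 * i) [MOD 2 * M] := by
      intro x
      rw [pow_mul, pow_mul]
      apply Nat.ModEq.pow
      have e2 : (M + x) ^ 2 = x ^ 2 + 2 * M * (x + 2 ^ a * b) := by
        rw [hM, pow_succ]
        ring
      rw [e2]
      exact (Nat.modEq_iff_dvd' (Nat.le_add_right _ _)).mpr (by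
        rw [Nat.add_sub_cancel_left]
        exact Dvd.intro _ rfl) |>.symm
    have h2 : ∑ x ∈ range M, (M + x) ^ (2 * i) ≡ ∑ x ∈ range M, x ^ (2 * i) [MOD 2 * M] :=
      Nat.ModEq.sum fun x _ => h1 x
    rw [e1, Finset.sum_range_add]
    have h3 : ∑ x ∈ range M, x ^ (2 * i) ≤ ∑ x ∈ range M, (M + x) ^ (2 * i) :=
      Finset.sum_le_sum fun x _ => Nat.pow_le_pow_left (by omega) _
    obtain ⟨c, hc⟩ := (Nat.modEq_iff_dvd' h3).mp h2.symm
    refine ⟨t + b * c, ?_⟩
    have h4 : ∑ x ∈ range M, (M + x) ^ (2 * i) = ∑ x ∈ range M, x ^ (2 * i) + 2 * M * c := by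
      omega
    rw [h4, ht, hM]
    ring

end Pool.Agent.Helper66.PF
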