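import Pool.Agent.Helper66.PF.Fifteen

/-! # finiteness of the solutions of `P m x = P n y` -/

namespace Pool.Agent.Helper66.PF

open Polynomial Pool.Agent.Helper30.PF

/-- the coefficient is not the bad value -/
def NonVan (s : ℕ) : Prop :=
  2 * sq (cc s) (s + 1) ≠ ((2 * s).factorial * (2 * s + 1).factorial) * v s ∧
    2 * sq (cc s) (s + 1) ≠ -(((2 * s).factorial * (2 * s + 1).factorial) * v s)

theorem nonVan_of_not_mem {s : ℕ} (hs : 1 ≤ s) (hnot : 4 * sq (cc s) (s + 1) ∉ Z2) :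
    NonVan s := by
  have h2 := two_mul_fact_v (s := s) hs
  constructor
  · intro h
    apply hnot
    have : 4 * sq (cc s) (s + 1) = 2 * (2 * sq (cc s) (s + 1)) := by ring
    rw [this, h, h2]
    exact nat_mem _
  · intro h
    apply hnot
    have : 4 * sq (cc s) (s + 1) = 2 * (2 * sq (cc s) (s + 1)) := by ring
    rw [this, h, mul_neg, h2]
    exact Z2.neg_mem (nat_mem _)

theorem nonvan' {s : ℕ} (hs : 2 ≤ s) (h2 : ∀ e, 2 * s + 2 ≠ 2 ^ e) : NonVan s := by
  by_cases h16 : (2 * s + 1) % 16 = 15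
  · obtain ⟨a, b, hb, hab⟩ := Nat.exists_eq_two_pow_mul_odd (n := s + 1) (by omega)
    have ha : 3 ≤ a := by
      by_contra hc
      have h8 : 8 ∣ s + 1 := ⟨(s + 1) / 8, by omega⟩
      rw [hab] at h8
      have hb' := Nat.odd_iff.mp hb
      have : a < 3 := by omega
      interval_cases a <;> omega
    obtain ⟨f, rfl⟩ : ∃ f, a = f + 3 := ⟨a - 3, by omega⟩
    refine nonVan_of_not_mem (by omega) (four_q_not_mem' (Nat.odd_iff.mp hb) ?_ hab)
    by_contra hc
    have hb1 : b = 1 := by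
      have := Nat.odd_iff.mp hb
      omega
    apply h2 (f + 4)
    rw [hb1, mul_one] at hab
    rw [show 2 * s + 2 = 2 * (s + 1) by ring, hab]
    ring
  · exact nonvan hs h16

/-- Runge's method -/
theorem finite_of_nonVan {m n : ℕ} (hm : 3 ≤ m) (hmn : m < n) (hmo : m % 2 = 1) (hno : n % 2 = 1)
    (hsq : ∃ r : ℕ, m * n = r ^ 2) (h : NonVan (n / 2)) :
    {z : ℕ × ℕ | P m z.1 = P n z.2}.Finite := by
  obtain ⟨s', rfl⟩ : ∃ s', m = 2 * s' + 1 := ⟨m / 2, by omega⟩
  obtain ⟨s, rfl⟩ : ∃ s, n = 2 * s + 1 := ⟨n / 2, by omega⟩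
  have hs2 : (2 * s + 1) / 2 = s := by omega
  rw [hs2] at h
  obtain ⟨r, hr⟩ := hsq
  have hr0 : 0 < r := by
    rcases Nat.eq_zero_or_pos r with h | h
    · rw [h] at hr
      have : 0 < (2 * s' + 1) * (2 * s + 1) := by positivity
      omega
    · exact h
  have hrq : ((2 * s' + 1 : ℕ) : ℚ) * ((2 * s + 1 : ℕ) : ℚ) = (r : ℚ) ^ 2 := by exact_mod_cast hr
  set μ : ℚ := ((2 * s' + 1 : ℕ) : ℚ) with hμ
  have hμ0 : 0 < μ := by rw [hμ]; positivity
  have hf1 : ((2 * s' + 1).factorial : ℚ) = ((2 * s' + 1 : ℕ) : ℚ) * (2 * s').factorial := by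
    rw [Nat.factorial_succ]; push_cast; ring
  have hf2 : ((2 * s + 1).factorial : ℚ) = ((2 * s + 1 : ℕ) : ℚ) * (2 * s).factorial := by
    rw [Nat.factorial_succ]; push_cast; ring
  have hg1 : ((2 * s').factorial : ℚ) ≠ 0 := by exact_mod_cast Nat.factorial_ne_zero _
  have hg2 : ((2 * s).factorial : ℚ) ≠ 0 := by exact_mod_cast Nat.factorial_ne_zero _
  have hn0 : ((2 * s + 1 : ℕ) : ℚ) ≠ 0 := by positivity
  set α : ℚ := 1 / (2 * s').factorial with hα
  set β : ℚ := r / (((2 * s + 1 : ℕ) : ℚ) * (2 * s).factorial) with hβd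
  have hα2 : α ^ 2 * ((2 * s').factorial * (2 * s' + 1).factorial) = μ := by
    rw [hα, hf1, hμ]
    field_simp
  have hβ2 : β ^ 2 * ((2 * s).factorial * (2 * s + 1).factorial) = μ := by
    rw [hβd, hf2, div_pow, ← hrq]
    field_simp
  have hα0 : 0 < α := by rw [hα]; positivity
  have hβ0 : 0 < β := by
    rw [hβd]
    have : (0 : ℚ) < r := by exact_mod_cast hr0
    positivity
  obtain ⟨C1, hC1⟩ := close (s := s') (by omega) hμ0 hα2
  obtain ⟨C2, hC2⟩ := close (s := s) (by omega) hμ0 hβ2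
  obtain ⟨hne, hne'⟩ := h
  obtain ⟨c, hc, hc'⟩ := lower (s := s) (by omega) hμ0 hβ2 hne hne'
  have key := runge_glue (a := fun x => μ * Pq (2 * s' + 1) x)
    (b := fun y => μ * Pq (2 * s + 1) y) (A := B s' α) (B := B s β) (p := s') (q := s)
    (by omega) (by omega) (natDegree_B s' hα0.ne') (natDegree_B s hβ0.ne')
    (by rw [leadingCoeff_B]; exact hα0) (by rw [leadingCoeff_B]; exact hβ0) hc hC1 hC2 hc'
  refine key.subset (fun z hz => ?_)
  have hz' : P (2 * s' + 1) z.1 = P (2 * s + 1) z.2 := hz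
  show μ * Pq (2 * s' + 1) z.1 = μ * Pq (2 * s + 1) z.2
  rw [Pq, Pq, hz']

/-- for odd `3 ≤ m < n` with `m n` a perfect square and `n + 1` not a power of two the equation
`P_m(x) = P_n(y)` has only finitely many solutions -/
theorem finite_pairs' {m n : ℕ} (hm : 3 ≤ m) (hmn : m < n) (hmo : m % 2 = 1) (hno : n % 2 = 1)
    (hsq : ∃ r : ℕ, m * n = r ^ 2) (h2 : ∀ e, n + 1 ≠ 2 ^ e) :
    {z : ℕ × ℕ | P m z.1 = P n z.2}.Finite :=
  finite_of_nonVan hm hmn hmo hno hsq (nonvan' (by omega) (fun e => by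
    have : 2 * (n / 2) + 2 = n + 1 := by omega
    rw [this]
    exact h2 e))

end Pool.Agent.Helper66.PF
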