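import Pool.Agent.Helper66.PF.Root
import Pool.Agent.Helper66.PF.BinTwo
import Pool.Agent.Helper66.PF.Fifteen

/-! # one block: the coefficient modulo 16 -/

namespace Pool.Agent.Helper66.PF

open Finset

/-- finer data for `2^(f+4) = n + 1` -/
structure Dat2 extends Dat where
  hf : 2 ≤ f
  k1 : Cg 3 (κ (2 ^ f) / 2) (-1)
  k2 : Cg 3 (κ (2 * 2 ^ f)) (-1)
  k3 : Cg 2 (κ (3 * 2 ^ f) / 2) 1
  k4 : Cg 4 (2 * κ (4 * 2 ^ f)) (-1)
  b2 : Cg 3 (Bin (2 * 2 ^ f) : ℚ) 5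
  b4 : Cg 4 (Bin (4 * 2 ^ f) : ℚ) 3

namespace Dat2

variable (D : Dat2)

/-- half of the small block -/
def K : ℕ := 2 ^ (D.f - 1)

theorem H_eq : D.H = 2 * D.K := by
  have := D.hf
  obtain ⟨g, hg⟩ : ∃ g, D.f = g + 1 := ⟨D.f - 1, by omega⟩
  unfold Dat.H K
  rw [hg, Nat.add_sub_cancel, pow_succ]
  ring

theorem K_even : ∃ L, 0 < L ∧ D.K = 2 * L := by
  have := D.hf
  obtain ⟨g, hg⟩ : ∃ g, D.f = g + 2 := ⟨D.f - 2, by omega⟩
  refine ⟨2 ^ g, by positivity, ?_⟩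
  unfold K
  rw [hg, show g + 2 - 1 = g + 1 by omega, pow_succ]
  ring

theorem K_pos : 0 < D.K := by
  unfold K
  positivity

theorem castK : ((D.K : ℕ) : ℚ) = 2 ^ (D.f - 1) := by
  unfold K
  push_cast
  rfl

theorem kap_K {i : ℕ} (hi : 1 ≤ i) (hd : ¬ D.K ∣ i) : D.κ i / 8 ∈ Z2 := by
  obtain ⟨ε, hε, he⟩ := D.hκ i hi
  have hf := D.hf
  have h1 : padicValNat 2 i + 2 ≤ D.f := by
    by_contra hc
    apply hd
    exact (padicValNat_dvd_iff_le (by omega)).mpr (by omega)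
  obtain ⟨g, hg⟩ : ∃ g, D.f = g + 2 := ⟨D.f - 2, by omega⟩
  have h2 : D.κ i / 8 = ε * ((2 : ℚ) ^ g / i) := by
    rw [he, hg]
    ring
  rw [h2]
  exact Z2.mul_mem hε.mem (two_pow_div (by omega) (by omega))

theorem kapK1 : Od (D.κ D.K / 4) := by
  obtain ⟨ε, hε, he⟩ := D.hκ D.K D.K_pos
  have hf := D.hf
  have h2 : D.κ D.K / 4 = ε := by
    rw [he, castK]
    have : (2 : ℚ) ^ (D.f + 1) = 4 * 2 ^ (D.f - 1) := by
      obtain ⟨g, hg⟩ : ∃ g, D.f = g + 1 := ⟨D.f - 1, by omega⟩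
      rw [hg, Nat.add_sub_cancel]
      ring
    rw [this]
    field_simp
  rw [h2]
  exact hε

theorem kapK3 : Od (D.κ (3 * D.K) / 4) := by
  obtain ⟨ε, hε, he⟩ := D.hκ (3 * D.K) (by have := D.K_pos; omega)
  have hf := D.hf
  have h2 : D.κ (3 * D.K) / 4 = ε / ((3 : ℕ) : ℚ) := by
    rw [he]
    push_cast
    rw [castK]
    have : (2 : ℚ) ^ (D.f + 1) = 4 * 2 ^ (D.f - 1) := by
      obtain ⟨g, hg⟩ : ∃ g, D.f = g + 1 := ⟨D.f - 1, by omega⟩
      rw [hg, Nat.add_sub_cancel]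
      ring
    rw [this]
    field_simp
  rw [h2]
  exact hε.div (by norm_num)

/-- terms of the recursion -/
theorem term8 {k l : ℕ} (hl : l ≤ k) (hk : k + 1 ≤ D.h) (hl2 : ¬ D.K ∣ l + 1) :
    ((2 * k + 1).choose (2 * l + 1) : ℚ) * D.κ (l + 1) * D.G (k - l) / 8 ∈ Z2 := by
  have h1 := D.kap_K (i := l + 1) (by omega) hl2
  have h2 := D.G_mem (k := k - l) (by omega)
  have h4 : ((2 * k + 1).choose (2 * l + 1) : ℚ) * D.κ (l + 1) * D.G (k - l) / 8 =
      ((2 * k + 1).choose (2 * l + 1) : ℚ) * (D.κ (l + 1) / 8) * (D.G (k - l)) := by ring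
  rw [h4]
  exact Z2.mul_mem (Z2.mul_mem (nat_mem _) h1) h2

theorem G8 {k : ℕ} (hk : k < D.h) (hd : ¬ D.K ∣ k) : D.G k / 8 ∈ Z2 := by
  induction k using Nat.strong_induction_on with
  | _ k ih =>
    rcases k with _ | k
    · exact absurd (dvd_zero _) hd
    · rw [D.hG, Finset.sum_div]
      refine Z2.sum_mem fun l hl => ?_
      have hl' : l ≤ k := by
        have := Finset.mem_range.mp hl
        omega
      by_cases hl2 : D.K ∣ l + 1
      · have h1 : ¬ D.K ∣ k - l := fun h2 => by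
          apply hd
          have h3 : k + 1 = (l + 1) + (k - l) := by omega
          rw [h3]
          exact dvd_add hl2 h2
        have h2 := ih (k - l) (by omega) (by omega) h1
        have h3 := D.kap_h (i := l + 1) (by omega) (D.not_h (by omega) (by omega))
        have h4 : ((2 * k + 1).choose (2 * l + 1) : ℚ) * D.κ (l + 1) * D.G (k - l) / 8 =
            ((2 * k + 1).choose (2 * l + 1) : ℚ) * D.κ (l + 1) * (D.G (k - l) / 8) := by ring
        rw [h4]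
        exact Z2.mul_mem (Z2.mul_mem (nat_mem _) h3) h2
      · exact D.term8 hl' (by omega) hl2

theorem term16 {k l : ℕ} (hl : l ≤ k) (hk : k + 1 ≤ D.h) (hd : D.H ∣ k + 1)
    (hl2 : ¬ D.H ∣ l + 1) :
    ((2 * k + 1).choose (2 * l + 1) : ℚ) * D.κ (l + 1) * D.G (k - l) / 16 ∈ Z2 := by
  have h1 := D.kap_H (i := l + 1) (by omega) hl2
  have h2 := D.G_quart (k := k - l) (by omega) (fun h3 => by
    apply hl2
    have h4 : l + 1 = (k + 1) - (k - l) := by omega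
    rw [h4]
    exact Nat.dvd_sub hd h3)
  have h4 : ((2 * k + 1).choose (2 * l + 1) : ℚ) * D.κ (l + 1) * D.G (k - l) / 16 =
      ((2 * k + 1).choose (2 * l + 1) : ℚ) * (D.κ (l + 1) / 4) * (D.G (k - l) / 4) := by ring
  rw [h4]
  exact Z2.mul_mem (Z2.mul_mem (nat_mem _) h1) h2

theorem H_pos : 0 < D.H := D.toDat.H_pos

theorem sum_splitH (μ : ℕ) (F : ℕ → ℚ) : ∑ l ∈ range (D.H * μ), F l =
    ∑ ν ∈ range μ, F (D.H * (ν + 1) - 1) +
      ∑ l ∈ (range (D.H * μ)).filter (fun l => ¬ D.H ∣ l + 1), F l := by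
  have hH := D.H_pos
  rw [← Finset.sum_filter_add_sum_filter_not (range (D.H * μ)) (fun l => D.H ∣ l + 1)]
  congr 1
  have h1 : (range (D.H * μ)).filter (fun l => D.H ∣ l + 1) =
      (range μ).image (fun ν => D.H * (ν + 1) - 1) := by
    ext i
    simp only [Finset.mem_filter, Finset.mem_range, Finset.mem_image]
    constructor
    · rintro ⟨h1, l, hl⟩
      have hl0 : l ≠ 0 := by
        rintro rfl
        omega
      refine ⟨l - 1, ?_, ?_⟩
      · have h2 : D.H * l ≤ D.H * μ := by omega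
        have := Nat.le_of_mul_le_mul_left h2 hH
        omega
      · have h3 : l - 1 + 1 = l := by omega
        rw [h3, ← hl, Nat.add_sub_cancel]
    · rintro ⟨l, hl, rfl⟩
      have h2 : D.H * (l + 1) ≤ D.H * μ := Nat.mul_le_mul_left _ (by omega)
      have h3 : 0 < D.H * (l + 1) := Nat.mul_pos hH (by omega)
      exact ⟨by omega, ⟨l + 1, by omega⟩⟩
  rw [h1, Finset.sum_image]
  intro a _ b _ hab
  have h3 : 0 < D.H * (a + 1) := Nat.mul_pos hH (by omega)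
  have h4 : 0 < D.H * (b + 1) := Nat.mul_pos hH (by omega)
  have hab' : D.H * (a + 1) - 1 = D.H * (b + 1) - 1 := hab
  have h5 : D.H * (a + 1) = D.H * (b + 1) := by omega
  have := Nat.eq_of_mul_eq_mul_left hH h5
  omega

theorem G_split {μ : ℕ} (h1 : 1 ≤ μ) (h4 : μ ≤ 4) : ∃ z ∈ Z2, D.G (D.H * μ) =
    ∑ ν ∈ range μ, ((2 * (D.H * μ) - 1).choose (2 * (D.H * (ν + 1)) - 1) : ℚ) *
      D.κ (D.H * (ν + 1)) * D.G (D.H * μ - D.H * (ν + 1)) + 16 * z := by
  have hH := D.H_pos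
  have hpos : 0 < D.H * μ := Nat.mul_pos hH h1
  have hle : D.H * μ ≤ D.h := by
    rw [Dat.h_eq, mul_comm]
    exact Nat.mul_le_mul_right _ h4
  obtain ⟨k, hk⟩ : ∃ k, D.H * μ = k + 1 := ⟨D.H * μ - 1, by omega⟩
  set F : ℕ → ℚ := fun l => ((2 * k + 1).choose (2 * l + 1) : ℚ) * D.κ (l + 1) * D.G (k - l)
    with hF
  have h2 := D.sum_splitH μ F
  refine ⟨∑ l ∈ (range (D.H * μ)).filter (fun l => ¬ D.H ∣ l + 1), F l / 16, ?_, ?_⟩
  · refine Z2.sum_mem fun l hl => ?_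
    rw [Finset.mem_filter, Finset.mem_range] at hl
    exact D.term16 (by omega) (by omega) ⟨μ, hk.symm⟩ hl.2
  · have h3 : D.G (D.H * μ) = ∑ l ∈ range (D.H * μ), F l := by
      rw [hk, D.hG]
    rw [h3, h2, ← Finset.sum_div]
    have h5 : ∀ ν ∈ range μ, F (D.H * (ν + 1) - 1) =
        ((2 * (D.H * μ) - 1).choose (2 * (D.H * (ν + 1)) - 1) : ℚ) *
          D.κ (D.H * (ν + 1)) * D.G (D.H * μ - D.H * (ν + 1)) := by
      intro ν _
      have h6 : 0 < D.H * (ν + 1) := Nat.mul_pos hH (by omega)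
      have e1 : 2 * k + 1 = 2 * (D.H * μ) - 1 := by omega
      have e2 : 2 * (D.H * (ν + 1) - 1) + 1 = 2 * (D.H * (ν + 1)) - 1 := by omega
      have e3 : D.H * (ν + 1) - 1 + 1 = D.H * (ν + 1) := by omega
      have e4 : k - (D.H * (ν + 1) - 1) = D.H * μ - D.H * (ν + 1) := by omega
      simp only [hF]
      rw [e1, e2, e3, e4]
    rw [Finset.sum_congr rfl h5]
    ring

end Dat2

end Pool.Agent.Helper66.PF
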