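import Pool.Agent.Helper66.PF.PowTwo

/-! # one block: the values modulo 16 -/

namespace Pool.Agent.Helper66.PF

open Finset

namespace Dat2

variable (D : Dat2)

theorem Hdef : D.H = 2 ^ D.f := rfl

theorem g1 : Cg 3 (D.G D.H / 2) (-1) := by
  obtain ⟨z, hz, h⟩ := D.G_split (μ := 1) le_rfl (by norm_num)
  rw [Finset.sum_range_one, zero_add, mul_one, Nat.sub_self, D.hG0, Nat.choose_self] at h
  have h1 : D.G D.H / 2 = D.κ D.H / 2 + 2 ^ 3 * z := by
    rw [h]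
    push_cast
    ring
  rw [h1]
  exact (D.k1.add (Cg_pow_mul hz)).red (by norm_num)

theorem C41 : Cg 1 ((2 * (D.H * 2) - 1).choose (2 * (D.H * 1) - 1) : ℚ) 1 := by
  have h1 := choose_odd 1 le_rfl (D.f + 2) (2 * (D.H * 1) - 1) (by
    have : 2 ^ (D.f + 2) = 4 * D.H := by rw [pow_add, Hdef]; ring
    have := D.H_pos
    omega)
  have e : 2 ^ (D.f + 2) * 1 - 1 = 2 * (D.H * 2) - 1 := by
    have : 2 ^ (D.f + 2) = 4 * D.H := by rw [pow_add, Hdef]; ring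
    omega
  rw [e] at h1
  exact Cg_of_Od (Od_nat h1)

theorem C83 : Cg 1 ((2 * (D.H * 4) - 1).choose (2 * (D.H * 3) - 1) : ℚ) 1 := by
  have h1 := choose_odd 1 le_rfl (D.f + 3) (2 * (D.H * 3) - 1) (by
    have : 2 ^ (D.f + 3) = 8 * D.H := by rw [pow_add, Hdef]; ring
    have := D.H_pos
    omega)
  have e : 2 ^ (D.f + 3) * 1 - 1 = 2 * (D.H * 4) - 1 := by
    have : 2 ^ (D.f + 3) = 8 * D.H := by rw [pow_add, Hdef]; ring
    omega
  rw [e] at h1
  exact Cg_of_Od (Od_nat h1)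

theorem C61 : Cg 2 ((2 * (D.H * 3) - 1).choose (2 * (D.H * 1) - 1) : ℚ) 5 := by
  have h := (b62 D.f).mono (by norm_num : 2 ≤ 4)
  have e1 : 6 * 2 ^ D.f = 2 * (D.H * 3) := by rw [Hdef]; ring
  have e2 : 2 * 2 ^ D.f = 2 * (D.H * 1) := by rw [Hdef]; ring
  rw [e1, e2] at h
  exact h

theorem C62 : Cg 2 ((2 * (D.H * 3) - 1).choose (2 * (D.H * 2) - 1) : ℚ) 10 := by
  have h := (b64 D.f).mono (by norm_num : 2 ≤ 4)
  have e1 : 6 * 2 ^ D.f = 2 * (D.H * 3) := by rw [Hdef]; ring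
  have e2 : 4 * 2 ^ D.f = 2 * (D.H * 2) := by rw [Hdef]; ring
  rw [e1, e2] at h
  exact h

theorem C82 : Cg 3 ((2 * (D.H * 4) - 1).choose (2 * (D.H * 2) - 1) : ℚ) 3 := by
  have h := b84 D.f
  have e1 : 8 * 2 ^ D.f = 2 * (D.H * 4) := by rw [Hdef]; ring
  have e2 : 4 * 2 ^ D.f = 2 * (D.H * 2) := by rw [Hdef]; ring
  rw [e1, e2] at h
  exact h

theorem g2 : Cg 3 (D.G (D.H * 2)) 3 := by
  obtain ⟨z, hz, h⟩ := D.G_split (μ := 2) (by norm_num) (by norm_num)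
  rw [Finset.sum_range_succ, Finset.sum_range_one, zero_add, one_add_one_eq_two, Nat.sub_self,
    D.hG0, Nat.choose_self] at h
  have e1 : D.H * 2 - D.H * 1 = D.H := by omega
  rw [e1] at h
  have h1 : D.G (D.H * 2) = 2 * (2 * (((2 * (D.H * 2) - 1).choose (2 * (D.H * 1) - 1) : ℚ) *
      (D.κ D.H / 2) * (D.G D.H / 2))) + D.κ (2 * D.H) + 2 ^ 3 * (2 * z) := by
    rw [h, mul_one, mul_comm 2 D.H]
    push_cast
    ring
  have k1' : Cg 1 (D.κ D.H / 2) (-1) := D.k1.mono (by norm_num)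
  have g1' : Cg 1 (D.G D.H / 2) (-1) := D.g1.mono (by norm_num)
  rw [h1]
  exact ((((D.C41.mul k1').mul g1').two.two.add D.k2).add
    (Cg_pow_mul (Z2.mul_mem two_mem hz))).red (by norm_num)

theorem g3 : Cg 3 (D.G (D.H * 3)) 0 := by
  obtain ⟨z, hz, h⟩ := D.G_split (μ := 3) (by norm_num) (by norm_num)
  rw [Finset.sum_range_succ, Finset.sum_range_succ, Finset.sum_range_one, zero_add,
    one_add_one_eq_two, show 2 + 1 = 3 by norm_num, Nat.sub_self,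
    D.hG0, Nat.choose_self] at h
  have e1 : D.H * 3 - D.H * 1 = D.H * 2 := by omega
  have e2 : D.H * 3 - D.H * 2 = D.H := by omega
  rw [e1, e2] at h
  have h1 : D.G (D.H * 3) = 2 * (((2 * (D.H * 3) - 1).choose (2 * (D.H * 1) - 1) : ℚ) *
      (D.κ D.H / 2) * D.G (D.H * 2) + ((2 * (D.H * 3) - 1).choose (2 * (D.H * 2) - 1) : ℚ) *
      D.κ (2 * D.H) * (D.G D.H / 2) + D.κ (3 * D.H) / 2) + 2 ^ 3 * (2 * z) := by
    rw [h, mul_one, mul_comm 2 D.H, mul_comm 3 D.H]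
    push_cast
    ring
  have k1' : Cg 2 (D.κ D.H / 2) (-1) := D.k1.mono (by norm_num)
  have k2' : Cg 2 (D.κ (2 * D.H)) (-1) := D.k2.mono (by norm_num)
  have g1' : Cg 2 (D.G D.H / 2) (-1) := D.g1.mono (by norm_num)
  have g2' : Cg 2 (D.G (D.H * 2)) 3 := D.g2.mono (by norm_num)
  rw [h1]
  exact (((((D.C61.mul k1').mul g2').add ((D.C62.mul k2').mul g1')).add D.k3).two.add
    (Cg_pow_mul (Z2.mul_mem two_mem hz))).red (by norm_num)

theorem g4 : Cg 4 (2 * D.G (D.H * 4)) 5 := by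
  obtain ⟨z, hz, h⟩ := D.G_split (μ := 4) (by norm_num) (by norm_num)
  rw [Finset.sum_range_succ, Finset.sum_range_succ, Finset.sum_range_succ, Finset.sum_range_one,
    zero_add, one_add_one_eq_two, show 2 + 1 = 3 by norm_num, show 3 + 1 = 4 by norm_num,
    Nat.sub_self, D.hG0, Nat.choose_self] at h
  have e1 : D.H * 4 - D.H * 1 = D.H * 3 := by omega
  have e2 : D.H * 4 - D.H * 2 = D.H * 2 := by omega
  have e3 : D.H * 4 - D.H * 3 = D.H := by omega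
  rw [e1, e2, e3] at h
  have h1 : 2 * D.G (D.H * 4) = 2 * (2 * (((2 * (D.H * 4) - 1).choose (2 * (D.H * 1) - 1) : ℚ) *
      (D.κ D.H / 2) * D.G (D.H * 3))) + 2 * (((2 * (D.H * 4) - 1).choose (2 * (D.H * 2) - 1) : ℚ) *
      D.κ (2 * D.H) * D.G (D.H * 2)) + 2 * (2 * (2 *
      (((2 * (D.H * 4) - 1).choose (2 * (D.H * 3) - 1) : ℚ) *
      (D.κ (3 * D.H) / 2) * (D.G D.H / 2)))) + 2 * D.κ (4 * D.H) + 2 ^ 4 * (2 * z) := by
    rw [h, mul_one, mul_comm 2 D.H, mul_comm 3 D.H, mul_comm 4 D.H]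
    push_cast
    ring
  have k3' : Cg 1 (D.κ (3 * D.H) / 2) 1 := D.k3.mono (by norm_num)
  have g1' : Cg 1 (D.G D.H / 2) (-1) := D.g1.mono (by norm_num)
  have g2' : Cg 3 (D.G (D.H * 2)) 3 := D.g2
  have c0 : Cg 3 ((2 * (D.H * 4) - 1).choose (2 * (D.H * 1) - 1) : ℚ)
      (((2 * (D.H * 4) - 1).choose (2 * (D.H * 1) - 1) : ℕ) : ℤ) := Cg_nat _ _
  have k4' : Cg 4 (2 * D.κ (4 * D.H)) (-1) := D.k4
  have t1 : Cg 4 (2 * (2 * (((2 * (D.H * 4) - 1).choose (2 * (D.H * 1) - 1) : ℚ) *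
      (D.κ D.H / 2) * D.G (D.H * 3)))) 0 := by
    have := (((c0.mul D.k1).mul D.g3).two.two).mono (by norm_num : 4 ≤ 5)
    exact this.red (by
      rw [mul_zero, mul_zero, mul_zero, sub_self]
      exact dvd_zero _)
  have t2 := ((D.C82.mul D.k2).mul g2').two
  have t3 := ((D.C83.mul k3').mul g1').two.two.two
  rw [h1]
  exact ((((t1.add t2).add t3).add k4').add
    (Cg_pow_mul (Z2.mul_mem two_mem hz))).red (by norm_num)

/-! ### the coefficients of the square -/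

theorem cc2 : Cg 3 (D.c (D.H * 2)) 7 := by
  have e : D.H * 2 = 2 * 2 ^ D.f := by rw [Hdef]; ring
  have h := D.b2.mul D.g2
  rw [D.hc]
  rw [e] at h ⊢
  exact h.red (by norm_num)

theorem cc3 : D.c (D.H * 3) / 8 ∈ Z2 := by
  have h := (Cg_nat 3 (D.Bin (D.H * 3))).mul D.g3
  rw [mul_zero] at h
  rw [D.hc]
  have := h.zero
  norm_num at this
  exact this

theorem cc4 : Cg 4 (2 * D.c (D.H * 4)) (-1) := by
  have e : D.H * 4 = 4 * 2 ^ D.f := by rw [Hdef]; ring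
  have h := D.b4.mul D.g4
  rw [D.hc]
  rw [e] at h ⊢
  have e2 : 2 * ((D.Bin (4 * 2 ^ D.f) : ℚ) * D.G (4 * 2 ^ D.f)) =
      (D.Bin (4 * 2 ^ D.f) : ℚ) * (2 * D.G (4 * 2 ^ D.f)) := by ring
  rw [e2]
  exact h.red (by norm_num)

theorem c8 {k : ℕ} (hk : k < D.h) (hd : ¬ D.K ∣ k) : D.c k / 8 ∈ Z2 := by
  rw [D.hc, mul_div_assoc]
  exact Z2.mul_mem (nat_mem _) (D.G8 hk hd)

theorem K_dvd_H : D.K ∣ D.H := ⟨2, by rw [H_eq]; ring⟩

theorem not_K_of_lt {i : ℕ} (h1 : 1 ≤ i) (h2 : i < D.K) : ¬ D.K ∣ i := fun hd => by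
  have := Nat.le_of_dvd h1 hd
  omega

theorem not_K_of_lt2 {i : ℕ} (h0 : i ≠ D.K) (h1 : 1 ≤ i) (h2 : i < 2 * D.K) : ¬ D.K ∣ i := by
  rintro ⟨c, hc⟩
  have hc1 : c < 2 := by
    by_contra h3
    have : D.K * 2 ≤ D.K * c := Nat.mul_le_mul_left _ (by omega)
    omega
  interval_cases c <;> omega

theorem not_H_of_lt2 {i : ℕ} (h0 : i ≠ D.H) (h1 : 1 ≤ i) (h2 : i < 2 * D.H) : ¬ D.H ∣ i := by
  rintro ⟨c, hc⟩
  have hc1 : c < 2 := by
    by_contra h3
    have : D.H * 2 ≤ D.H * c := Nat.mul_le_mul_left _ (by omega)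
    omega
  interval_cases c <;> omega

theorem cK1 : Od (D.c D.K / 4) := by
  have hK := D.K_pos
  have hH := D.H_eq
  obtain ⟨k, hk⟩ : ∃ k, D.K = k + 1 := ⟨D.K - 1, by omega⟩
  have hh := Dat.h_eq D.toDat
  have h1 := D.G_last k
  have h2 : (∑ l ∈ range k, ((2 * k + 1).choose (2 * l + 1) : ℚ) * D.κ (l + 1) *
      D.G (k - l)) / 8 ∈ Z2 := by
    rw [Finset.sum_div]
    refine Z2.sum_mem fun l hl => ?_
    have hl' := Finset.mem_range.mp hl
    exact D.term8 (by omega) (by omega) (D.not_K_of_lt (by omega) (by omega))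
  have h3 := D.kapK1
  have hG : Od (D.G D.K / 4) := by
    rw [hk] at h3 ⊢
    rw [h1, add_div]
    refine h3.add ?_
    rw [div_div]
    norm_num
    exact h2
  rw [D.hc, mul_div_assoc]
  exact (Od_nat (D.hBin _ (by change D.K ≤ D.h; omega))).mul hG

theorem cK3 : Od (D.c (3 * D.K) / 4) := by
  have hK := D.K_pos
  have hH := D.H_eq
  obtain ⟨k, hk⟩ : ∃ k, 3 * D.K = k + 1 := ⟨3 * D.K - 1, by omega⟩
  have hh := Dat.h_eq D.toDat
  have h1 := D.G_last k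
  have hGK : D.G D.K / 4 ∈ Z2 := by
    obtain ⟨k', hk'⟩ : ∃ k, D.K = k + 1 := ⟨D.K - 1, by omega⟩
    have h1 := D.G_last k'
    have h2 : (∑ l ∈ range k', ((2 * k' + 1).choose (2 * l + 1) : ℚ) * D.κ (l + 1) *
        D.G (k' - l)) / 4 ∈ Z2 := by
      rw [Finset.sum_div]
      refine Z2.sum_mem fun l hl => ?_
      have hl' := Finset.mem_range.mp hl
      have := D.term8 (k := k') (l := l) (by omega) (by omega)
        (D.not_K_of_lt (by omega) (by omega))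
      have e : ((2 * k' + 1).choose (2 * l + 1) : ℚ) * D.κ (l + 1) * D.G (k' - l) / 4 =
        2 * (((2 * k' + 1).choose (2 * l + 1) : ℚ) * D.κ (l + 1) * D.G (k' - l) / 8) := by ring
      rw [e]
      exact Z2.mul_mem two_mem this
    have h3 := D.kapK1.mem
    rw [hk'] at h3 ⊢
    rw [h1, add_div]
    exact Z2.add_mem h3 h2
  have h2 : (∑ l ∈ range k, ((2 * k + 1).choose (2 * l + 1) : ℚ) * D.κ (l + 1) *
      D.G (k - l)) / 8 ∈ Z2 := by
    rw [Finset.sum_div]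
    refine Z2.sum_mem fun l hl => ?_
    have hl' := Finset.mem_range.mp hl
    by_cases c1 : l + 1 = D.K
    · have e1 : k - l = D.H := by omega
      rw [c1, e1]
      have e2 : ((2 * k + 1).choose (2 * l + 1) : ℚ) * D.κ D.K * D.G D.H / 8 =
          ((2 * k + 1).choose (2 * l + 1) : ℚ) * (D.κ D.K / 4) * (D.G D.H / 2) := by ring
      rw [e2]
      exact Z2.mul_mem (Z2.mul_mem (nat_mem _) D.kapK1.mem) D.g1.mem
    · by_cases c2 : l + 1 = D.H
      · have e1 : k - l = D.K := by omega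
        rw [c2, e1]
        have e2 : ((2 * k + 1).choose (2 * l + 1) : ℚ) * D.κ D.H * D.G D.K / 8 =
            ((2 * k + 1).choose (2 * l + 1) : ℚ) * (D.κ D.H / 2) * (D.G D.K / 4) := by ring
        rw [e2]
        exact Z2.mul_mem (Z2.mul_mem (nat_mem _) D.k1.mem) hGK
      · refine D.term8 (by omega) (by omega) ?_
        rintro ⟨c, hc⟩
        have hc1 : c < 3 := by
          by_contra h3
          have : D.K * 3 ≤ D.K * c := Nat.mul_le_mul_left _ (by omega)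
          omega
        interval_cases c <;> omega
  have h3 := D.kapK3
  have hG : Od (D.G (3 * D.K) / 4) := by
    rw [hk] at h3 ⊢
    rw [h1, add_div]
    refine h3.add ?_
    rw [div_div]
    norm_num
    exact h2
  rw [D.hc, mul_div_assoc]
  exact (Od_nat (D.hBin _ (by change 3 * D.K ≤ D.h; omega))).mul hG

end Dat2

end Pool.Agent.Helper66.PF
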