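import Pool.Agent.Helper66.PF.PowTwoB

/-! # one block: the square root modulo 16 -/

namespace Pool.Agent.Helper66.PF

open Finset

namespace Dat2

variable (D : Dat2)

theorem q4 {k : ℕ} (hk : k < D.h) (hd : ¬ D.K ∣ k) : D.q k / 4 ∈ Z2 := by
  induction k using Nat.strong_induction_on with
  | _ k ih =>
    rcases k with _ | t
    · exact absurd (dvd_zero _) hd
    · have h1 : D.q (t + 1) / 4 = D.c (t + 1) / 8 -
          (∑ l ∈ range (t / 2), D.q (l + 1) * D.q (t - l) / 4 +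
            if t % 2 = 1 then 2 * ((D.q (t / 2 + 1) / 4) * (D.q (t / 2 + 1) / 4)) else 0) := by
        rw [Dat.q_rec, Dat.inner_half, ← Finset.sum_div]
        split_ifs
        · ring
        · ring
      rw [h1]
      refine Z2.sub_mem (D.c8 hk hd) (Z2.add_mem (Z2.sum_mem fun l hl => ?_) ?_)
      · have hl' := Finset.mem_range.mp hl
        by_cases hl2 : D.K ∣ l + 1
        · have h2 : ¬ D.K ∣ t - l := fun h3 => by
            apply hd
            have h4 : t + 1 = (l + 1) + (t - l) := by omega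
            rw [h4]
            exact dvd_add hl2 h3
          have h5 : D.q (l + 1) * D.q (t - l) / 4 = D.q (l + 1) * (D.q (t - l) / 4) := by ring
          rw [h5]
          exact Z2.mul_mem (D.q_mem (by omega)) (ih _ (by omega) (by omega) h2)
        · have h5 : D.q (l + 1) * D.q (t - l) / 4 = (D.q (l + 1) / 4) * D.q (t - l) := by ring
          rw [h5]
          exact Z2.mul_mem (ih _ (by omega) (by omega) hl2) (D.q_mem (by omega))
      · split_ifs with h
        · have h2 : ¬ D.K ∣ t / 2 + 1 := fun h3 => by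
            apply hd
            have h4 : t + 1 = (t / 2 + 1) + (t / 2 + 1) := by omega
            rw [h4]
            exact dvd_add h3 h3
          have h5 := ih (t / 2 + 1) (by omega) (by omega) h2
          exact Z2.mul_mem two_mem (Z2.mul_mem h5 h5)
        · exact Z2.zero_mem

theorem q2 {k : ℕ} (hk1 : 1 ≤ k) (hk : k < D.h) (hd : ¬ D.H ∣ k) : D.q k / 2 ∈ Z2 :=
  (D.low hk1 hk).2.1 hd

theorem qH : Od (D.q D.H) := by
  have := D.H_pos
  exact (D.low (k := D.H) (by omega) (by rw [Dat.h_eq]; omega)).2.2 rfl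

theorem qK1 : Od (D.q D.K / 2) := by
  have hK := D.K_pos
  have hH := D.H_eq
  have hh := Dat.h_eq D.toDat
  obtain ⟨t, ht⟩ : ∃ k, D.K = k + 1 := ⟨D.K - 1, by omega⟩
  have h1 : D.q (t + 1) / 2 = D.c (t + 1) / 4 -
      2 * (∑ l ∈ range (t / 2), D.q (l + 1) / 4 * D.q (t - l) +
        if t % 2 = 1 then 2 * ((D.q (t / 2 + 1) / 4) * (D.q (t / 2 + 1) / 4)) else 0) := by
    have e : ∑ l ∈ range (t / 2), D.q (l + 1) / 4 * D.q (t - l) =
        (∑ l ∈ range (t / 2), D.q (l + 1) * D.q (t - l)) / 4 := by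
      rw [Finset.sum_div]
      exact Finset.sum_congr rfl fun l _ => by ring
    rw [Dat.q_rec, Dat.inner_half, e]
    split_ifs
    · ring
    · ring
  have h3 := D.cK1
  rw [ht] at h3 ⊢
  rw [h1]
  refine h3.sub ?_
  rw [mul_comm, mul_div_assoc, div_self two_ne_zero, mul_one]
  refine Z2.add_mem (Z2.sum_mem fun l hl => ?_) ?_
  · have hl' := Finset.mem_range.mp hl
    exact Z2.mul_mem (D.q4 (by omega) (D.not_K_of_lt (by omega) (by omega)))
      (D.q_mem (by omega))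
  · split_ifs with h
    · have h5 := D.q4 (k := t / 2 + 1) (by omega) (D.not_K_of_lt (by omega) (by omega))
      exact Z2.mul_mem two_mem (Z2.mul_mem h5 h5)
    · exact Z2.zero_mem

theorem qK3 : D.q (3 * D.K) / 4 ∈ Z2 := by
  have hK := D.K_pos
  have hH := D.H_eq
  have hh := Dat.h_eq D.toDat
  obtain ⟨L, hL, hKL⟩ := D.K_even
  obtain ⟨t, ht⟩ : ∃ k, 3 * D.K = k + 1 := ⟨3 * D.K - 1, by omega⟩
  have hmem : D.K - 1 ∈ range (t / 2) := by
    rw [Finset.mem_range]
    omega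
  have h1 : D.q (t + 1) / 4 = (D.c (t + 1) / 4 - (D.q D.K / 2) * D.q D.H) / 2 -
      (∑ l ∈ (range (t / 2)).erase (D.K - 1), D.q (l + 1) / 4 * D.q (t - l) +
        2 * ((D.q (t / 2 + 1) / 4) * (D.q (t / 2 + 1) / 4))) := by
    have e : ∑ l ∈ (range (t / 2)).erase (D.K - 1), D.q (l + 1) / 4 * D.q (t - l) =
        (∑ l ∈ (range (t / 2)).erase (D.K - 1), D.q (l + 1) * D.q (t - l)) / 4 := by
      rw [Finset.sum_div]
      exact Finset.sum_congr rfl fun l _ => by ring
    have e1 : D.K - 1 + 1 = D.K := by omega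
    have e2 : t - (D.K - 1) = D.H := by omega
    rw [Dat.q_rec, Dat.inner_half, e, if_pos (by omega), ← Finset.add_sum_erase _ _ hmem, e1, e2]
    ring
  rw [ht, h1]
  have h3 := D.cK3
  rw [ht] at h3
  refine Z2.sub_mem (h3.sub_odd (D.qK1.mul D.qH)) (Z2.add_mem (Z2.sum_mem fun l hl => ?_) ?_)
  · rw [Finset.mem_erase, Finset.mem_range] at hl
    refine Z2.mul_mem (D.q4 (by omega) ?_) (D.q_mem (by omega))
    exact D.not_K_of_lt2 (by omega) (by omega) (by omega)
  · have h5 := D.q4 (k := t / 2 + 1) (by omega)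
      (D.not_K_of_lt2 (by omega) (by omega) (by omega))
    exact Z2.mul_mem two_mem (Z2.mul_mem h5 h5)

theorem quart_of {k i j : ℕ} (hk : k ≤ D.h) (hi : 1 ≤ i) (hj : 1 ≤ j) (hij : i + j = k)
    (hd : D.H ∣ k) (hdi : ¬ D.H ∣ i) : D.q i * D.q j / 4 ∈ Z2 := by
  have hdj : ¬ D.H ∣ j := fun h => by
    apply hdi
    have h4 : i = k - j := by omega
    rw [h4]
    exact Nat.dvd_sub hd h
  have h5 : D.q i * D.q j / 4 = (D.q i / 2) * (D.q j / 2) := by ring
  rw [h5]
  exact Z2.mul_mem (D.q2 hi (by omega) hdi) (D.q2 hj (by omega) hdj)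

theorem qH2 : Cg 2 (D.q (2 * D.H)) 3 := by
  have hH := D.H_pos
  have hh := Dat.h_eq D.toDat
  obtain ⟨t, ht⟩ : ∃ k, 2 * D.H = k + 1 := ⟨2 * D.H - 1, by omega⟩
  have e1 : t / 2 + 1 = D.H := by omega
  have h2 : D.q (t + 1) = (D.c (t + 1) - D.q D.H * D.q D.H) / 2 -
      2 ^ 2 * ∑ l ∈ range (t / 2), D.q (l + 1) * D.q (t - l) / 4 := by
    rw [Dat.q_rec, Dat.inner_half, if_pos (by omega), e1, ← Finset.sum_div]
    ring
  have h3 : Cg 3 (D.c (t + 1) - D.q D.H * D.q D.H) (7 - 1) := by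
    have h4 := D.cc2
    rw [mul_comm, ht] at h4
    exact h4.sub D.qH.sq
  have h5 : Cg 2 ((D.c (t + 1) - D.q D.H * D.q D.H) / 2) 3 := by
    apply Cg.half
    have e : 2 * ((D.c (t + 1) - D.q D.H * D.q D.H) / 2) = D.c (t + 1) - D.q D.H * D.q D.H := by
      ring
    rw [e]
    exact h3.red (by norm_num)
  rw [ht, h2]
  refine (h5.sub (Cg_pow_mul (Z2.sum_mem fun l hl => ?_))).red (by norm_num)
  have hl' := Finset.mem_range.mp hl
  refine D.quart_of (k := t + 1) (by omega) (by omega) (by omega) (by omega) ⟨2, by omega⟩ ?_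
  intro hd
  have := Nat.le_of_dvd (by omega) hd
  omega

theorem qH3 : Cg 2 (D.q (3 * D.H) + D.q D.H * D.q (2 * D.H)) 0 := by
  have hH := D.H_pos
  have hHK := D.H_eq
  have hh := Dat.h_eq D.toDat
  obtain ⟨t, ht⟩ : ∃ k, 3 * D.H = k + 1 := ⟨3 * D.H - 1, by omega⟩
  have hmem : D.H - 1 ∈ range (t / 2) := by
    rw [Finset.mem_range]
    obtain ⟨L, hL, hKL⟩ := D.K_even
    omega
  have e1 : D.H - 1 + 1 = D.H := by omega
  have e2 : t - (D.H - 1) = 2 * D.H := by omega
  have e3 : t / 2 + 1 = 3 * D.K := by omega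
  have h2 : D.q (t + 1) + D.q D.H * D.q (2 * D.H) = 2 ^ 2 * (D.c (t + 1) / 8 -
      ∑ l ∈ (range (t / 2)).erase (D.H - 1), D.q (l + 1) * D.q (t - l) / 4 -
        2 * ((D.q (3 * D.K) / 4) * (D.q (3 * D.K) / 4))) := by
    rw [Dat.q_rec, Dat.inner_half, if_pos (by omega), ← Finset.add_sum_erase _ _ hmem, e1, e2,
      e3, ← Finset.sum_div]
    ring
  rw [ht, h2]
  refine Cg_pow_mul (Z2.sub_mem (Z2.sub_mem ?_ (Z2.sum_mem fun l hl => ?_)) ?_)
  · have h4 := D.cc3
    rw [mul_comm, ht] at h4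
    exact h4
  · rw [Finset.mem_erase, Finset.mem_range] at hl
    refine D.quart_of (k := t + 1) (by omega) (by omega) (by omega) (by omega) ⟨3, by omega⟩ ?_
    exact D.not_H_of_lt2 (by omega) (by omega) (by omega)
  · have h5 := D.qK3
    exact Z2.mul_mem two_mem (Z2.mul_mem h5 h5)

theorem final : Cg 4 (4 * D.q (4 * D.H)) 9 := by
  have hH := D.H_pos
  have hHK := D.H_eq
  have hh := Dat.h_eq D.toDat
  obtain ⟨t, ht⟩ : ∃ k, 4 * D.H = k + 1 := ⟨4 * D.H - 1, by omega⟩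
  have hmem : D.H - 1 ∈ range (t / 2) := by
    rw [Finset.mem_range]
    obtain ⟨L, hL, hKL⟩ := D.K_even
    omega
  have e1 : D.H - 1 + 1 = D.H := by omega
  have e2 : t - (D.H - 1) = 3 * D.H := by omega
  have e3 : t / 2 + 1 = 2 * D.H := by omega
  have h2 : 4 * D.q (t + 1) = 2 * D.c (t + 1) - 2 * (2 * (D.q D.H * D.q (3 * D.H))) -
      2 * (D.q (2 * D.H) * D.q (2 * D.H)) -
      2 ^ 4 * ∑ l ∈ (range (t / 2)).erase (D.H - 1), D.q (l + 1) * D.q (t - l) / 4 := by
    rw [Dat.q_rec, Dat.inner_half, if_pos (by omega), ← Finset.add_sum_erase _ _ hmem, e1, e2,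
      e3, ← Finset.sum_div]
    ring
  have hc : Cg 4 (2 * D.c (t + 1)) (-1) := by
    have h4 := D.cc4
    rw [mul_comm D.H, ht] at h4
    exact h4
  have hprod : Cg 2 (D.q D.H * D.q (3 * D.H)) 1 := by
    have e4 : D.q D.H * D.q (3 * D.H) = D.q D.H * (D.q (3 * D.H) + D.q D.H * D.q (2 * D.H)) -
        (D.q D.H * D.q D.H) * D.q (2 * D.H) := by ring
    rw [e4]
    obtain ⟨z, hz, ez⟩ := D.qH3
    have h5 : Cg 2 (D.q D.H * (D.q (3 * D.H) + D.q D.H * D.q (2 * D.H))) 0 := by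
      rw [ez]
      exact ⟨D.q D.H * z, Z2.mul_mem D.qH.mem hz, by push_cast; ring⟩
    have h6 : Cg 2 (D.q D.H * D.q D.H) 1 := D.qH.sq.mono (by norm_num)
    exact (h5.sub (h6.mul D.qH2)).red (by norm_num)
  have hOd : Od (D.q (2 * D.H)) := by
    have h7 : Cg 1 (D.q (2 * D.H)) 3 := D.qH2.mono (by norm_num)
    exact Cg.Od (h7.red (by norm_num))
  rw [ht, h2]
  refine (((hc.sub hprod.two.two).sub hOd.sq.two).sub
    (Cg_pow_mul (Z2.sum_mem fun l hl => ?_))).red (by norm_num)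
  rw [Finset.mem_erase, Finset.mem_range] at hl
  refine D.quart_of (k := t + 1) (by omega) (by omega) (by omega) (by omega) ⟨4, by omega⟩ ?_
  exact D.not_H_of_lt2 (by omega) (by omega) (by omega)

end Dat2

end Pool.Agent.Helper66.PF
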