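import Pool.Agent.Helper66.PF.PowTwoC
import Pool.Agent.Helper66.PF.BernTwo
import Pool.Agent.Helper66.PF.Pairs

/-! # finiteness for all odd `m < n` with `m n` a square -/

namespace Pool.Agent.Helper66.PF

open Finset Pool.Agent.Helper30.PF

theorem third_cg : Cg 2 (1 / 3 : ℚ) 3 := by
  refine ⟨-2 * (1 / ((3 : ℕ) : ℚ)), Z2.mul_mem (Z2.neg_mem two_mem) (inv_mem (by norm_num)), ?_⟩
  push_cast
  norm_num

/-- the data for `s + 1 = 2^(f+3)` -/
noncomputable def dat2 (s f : ℕ) (hf : 2 ≤ f) (hs : s + 1 = 2 ^ (f + 3)) : Dat2 where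
  toDat := dat s f 1 rfl (by rw [mul_one]; exact hs)
  hf := hf
  k1 := by
    have hn : 2 * s + 1 + 1 = 2 ^ (f + 4) := by
      have : 2 ^ (f + 4) = 2 * 2 ^ (f + 3) := by ring
      omega
    obtain ⟨E, hE, h⟩ := kap_two (μ := 1) hf hn le_rfl
    show Cg 3 (kap (2 * s + 1) (2 ^ f) / 2) (-1)
    rw [mul_one] at h
    have e : kap (2 * s + 1) (2 ^ f) / 2 = -E := by
      rw [h]
      push_cast
      ring
    rw [e]
    exact hE.neg.mono (by norm_num)
  k2 := by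
    have hn : 2 * s + 1 + 1 = 2 ^ (f + 4) := by
      have : 2 ^ (f + 4) = 2 * 2 ^ (f + 3) := by ring
      omega
    obtain ⟨E, hE, h⟩ := kap_two (μ := 2) hf hn (by norm_num)
    show Cg 3 (kap (2 * s + 1) (2 * 2 ^ f)) (-1)
    rw [mul_comm (2 ^ f) 2] at h
    have e : kap (2 * s + 1) (2 * 2 ^ f) = -E := by
      rw [h]
      push_cast
      ring
    rw [e]
    exact hE.neg.mono (by norm_num)
  k3 := by
    have hn : 2 * s + 1 + 1 = 2 ^ (f + 4) := by
      have : 2 ^ (f + 4) = 2 * 2 ^ (f + 3) := by ring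
      omega
    obtain ⟨E, hE, h⟩ := kap_two (μ := 3) hf hn (by norm_num)
    show Cg 2 (kap (2 * s + 1) (3 * 2 ^ f) / 2) 1
    rw [mul_comm (2 ^ f) 3] at h
    have e : kap (2 * s + 1) (3 * 2 ^ f) / 2 = -(E * (1 / 3)) := by
      rw [h]
      push_cast
      ring
    rw [e]
    have hE' : Cg 2 E 1 := hE.mono (by norm_num)
    exact (hE'.mul third_cg).neg.red (by norm_num)
  k4 := by
    have hn : 2 * s + 1 + 1 = 2 ^ (f + 4) := by
      have : 2 ^ (f + 4) = 2 * 2 ^ (f + 3) := by ring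
      omega
    obtain ⟨E, hE, h⟩ := kap_two (μ := 4) hf hn (by norm_num)
    show Cg 4 (2 * kap (2 * s + 1) (4 * 2 ^ f)) (-1)
    rw [mul_comm (2 ^ f) 4] at h
    have e : 2 * kap (2 * s + 1) (4 * 2 ^ f) = -E := by
      rw [h]
      push_cast
      ring
    rw [e]
    exact hE.neg
  b2 := by
    show Cg 3 (((2 * s).choose (2 * (2 * 2 ^ f)) : ℕ) : ℚ) 5
    have e1 : 2 * s = 16 * 2 ^ f - 2 := by
      have : 2 ^ (f + 3) = 8 * 2 ^ f := by ring
      omega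
    have e2 : 2 * (2 * 2 ^ f) = 4 * 2 ^ f := by ring
    rw [e1, e2]
    exact b16_4 hf
  b4 := by
    show Cg 4 (((2 * s).choose (2 * (4 * 2 ^ f)) : ℕ) : ℚ) 3
    have e1 : 2 * s = 16 * 2 ^ f - 2 := by
      have : 2 ^ (f + 3) = 8 * 2 ^ f := by ring
      omega
    have e2 : 2 * (4 * 2 ^ f) = 8 * 2 ^ f := by ring
    rw [e1, e2]
    exact b16_8 hf

theorem four_q_mod {s f : ℕ} (hf : 2 ≤ f) (hs : s + 1 = 2 ^ (f + 3)) :
    Cg 4 (4 * sq (cc s) (s + 1)) 9 := by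
  have h1 := (dat2 s f hf hs).final
  have h2 : (dat2 s f hf hs).q (4 * (dat2 s f hf hs).H) = sq (cc s) (s + 1) := by
    show sq (cc s) (2 * (4 * 2 ^ f)) = sq (cc s) (s + 1)
    congr 1
    rw [hs]
    ring
  rw [h2] at h1
  exact h1

theorem doubleFactorial_wd (t : ℕ) : (2 * (t + 1) - 1).doubleFactorial = wd (t + 1) := by
  induction t with
  | zero => simp [wd]
  | succ t ih =>
    have e1 : 2 * (t + 1 + 1) - 1 = (2 * (t + 1) - 1) + 2 := by omega
    rw [e1, Nat.doubleFactorial_add_two, ih, wd_succ (t + 1)]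
    have e2 : 2 * (t + 1) - 1 + 2 = 2 * (t + 1) + 1 := by omega
    rw [e2, mul_comm]

theorem X_mod {s f : ℕ} (hs : s + 1 = 2 ^ (f + 3)) (hf : 2 ≤ f) :
    Cg 4 (((2 * s + 1) * s * (2 * s - 1).doubleFactorial ^ 2 : ℕ) : ℚ) 1 := by
  have hp : 2 ^ (f + 3) = 8 * 2 ^ f := by ring
  obtain ⟨g, rfl⟩ := Nat.exists_eq_add_of_le hf
  have hg : 0 < 2 ^ g := by positivity
  have e1 : 2 ^ (2 + g) = 4 * 2 ^ g := by rw [pow_add]; norm_num
  obtain ⟨t, ht⟩ : ∃ t, s = t + 1 := ⟨s - 1, by omega⟩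
  have hW : (2 * s - 1).doubleFactorial = wd s := by
    rw [ht]
    exact doubleFactorial_wd t
  rw [hW]
  have h1 : wd s * (2 * s + 1) = wd (s + 1) := (wd_succ s).symm
  have h2 : wd (s + 1) % 16 = 1 := by
    have e2 : s + 1 = 2 * (16 * 2 ^ g) := by omega
    rw [e2]
    have h3 := wd_even (16 * 2 ^ g)
    unfold Nat.ModEq at h3
    rw [h3, pow_mul, Nat.pow_mod]
    norm_num
  set W := wd s with hWd
  set X := (2 * s + 1) * s * W ^ 2 with hX
  have h4 : X * (2 * s + 1) = s * (wd (s + 1)) ^ 2 := by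
    rw [← h1, hX]
    ring
  have h5 : Cg 4 (((s * (wd (s + 1)) ^ 2 : ℕ)) : ℚ) (-1) := by
    have a1 : Cg 4 ((s : ℕ) : ℚ) (-1) := (Cg_nat 4 s).red (by
      have : (s : ℤ) + 1 = 16 * (2 * 2 ^ g) := by
        have : s + 1 = 16 * (2 * 2 ^ g) := by omega
        exact_mod_cast this
      exact ⟨2 * 2 ^ g, by norm_num; linarith⟩)
    have a2 : Cg 4 ((wd (s + 1) : ℕ) : ℚ) 1 := (Cg_nat 4 _).red (by
      have : (wd (s + 1) : ℤ) % 16 = 1 := by exact_mod_cast h2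
      norm_num
      omega)
    have a3 := a1.mul (a2.mul a2)
    have e3 : (((s * (wd (s + 1)) ^ 2 : ℕ)) : ℚ) =
        ((s : ℕ) : ℚ) * (((wd (s + 1) : ℕ) : ℚ) * ((wd (s + 1) : ℕ) : ℚ)) := by
      push_cast
      ring
    rw [e3]
    exact a3.red (by norm_num)
  rw [← h4] at h5
  have h6 : ((X : ℕ) : ℚ) = -((X * (2 * s + 1) : ℕ) : ℚ) + 2 ^ 4 * ((X * (4 * 2 ^ g) : ℕ) : ℚ) := by
    have e4 : (s : ℚ) + 1 = 32 * 2 ^ g := by
      have : s + 1 = 32 * 2 ^ g := by omega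
      exact_mod_cast this
    push_cast
    have e5 : (s : ℚ) = 32 * 2 ^ g - 1 := by linarith
    rw [e5]
    ring
  rw [h6]
  exact (h5.neg.add (Cg_pow_mul (nat_mem _))).red (by norm_num)

theorem nonVan_pow {s f : ℕ} (hf : 2 ≤ f) (hs : s + 1 = 2 ^ (f + 3)) : NonVan s := by
  have hs1 : 1 ≤ s := by
    have : 2 ^ (f + 3) = 8 * 2 ^ f := by ring
    have : 0 < 2 ^ f := by positivity
    omega
  have h2 := two_mul_fact_v (s := s) hs1
  obtain ⟨z, hz, hq⟩ := four_q_mod hf hs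
  obtain ⟨w, hw, hX⟩ := X_mod hs hf
  rw [← h2] at hX
  constructor
  · intro h
    have h3 : z - w = -1 / 2 := by
      push_cast at hq hX
      linarith
    apply half_not
    have h4 : (1 / 2 : ℚ) = -(z - w) := by
      rw [h3]
      norm_num
    have h5 : (1 / 2 : ℚ) ∈ Z2 := by
      rw [h4]
      exact Z2.neg_mem (Z2.sub_mem hz hw)
    exact h5
  · intro h
    have h3 : z + w = -5 / 8 := by
      push_cast at hq hX
      linarith
    apply half_not
    have h4 : (1 / 2 : ℚ) = 4 * (z + w) + 3 := by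
      rw [h3]
      norm_num
    have h5 : (1 / 2 : ℚ) ∈ Z2 := by
      rw [h4]
      exact Z2.add_mem (Z2.mul_mem Dat.four_mem (Z2.add_mem hz hw)) (by exact_mod_cast nat_mem 3)
    exact h5

end Pool.Agent.Helper66.PF
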