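import Pool.Agent.Helper66.PF.Block
import Pool.Agent.Helper30.PF.TwoAdic

/-! # the square root of the coefficient series, 2-adically: blocks -/

namespace Pool.Agent.Helper66.PF

open Finset

/-- a symmetric sum -/
theorem sum_sym (f : ℕ → ℚ) (t : ℕ) (hf : ∀ l < t, f l = f (t - 1 - l)) :
    ∑ l ∈ range t, f l = 2 * ∑ l ∈ range (t / 2), f l + if t % 2 = 1 then f (t / 2) else 0 := by
  rcases Nat.even_or_odd' t with ⟨u, hu | hu⟩
  · have e1 : t / 2 = u := by omega
    have e2 : t = u + u := by omega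
    rw [if_neg (by omega), e1, add_zero, e2, Finset.sum_range_add, two_mul]
    congr 1
    rw [← Finset.sum_range_reflect]
    refine Finset.sum_congr rfl fun l hl => ?_
    have hl' := Finset.mem_range.mp hl
    rw [hf l (by omega)]
    congr 1
    omega
  · have e1 : t / 2 = u := by omega
    have e2 : t = u + 1 + u := by omega
    rw [if_pos (by omega), e1]
    have h1 : ∑ l ∈ range t, f l = ∑ l ∈ range (u + 1), f l + ∑ l ∈ range u, f (u + 1 + l) := by
      rw [e2, Finset.sum_range_add]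
    have h2 : ∑ l ∈ range u, f (u + 1 + l) = ∑ l ∈ range u, f l := by
      rw [← Finset.sum_range_reflect]
      refine Finset.sum_congr rfl fun l hl => ?_
      have hl' := Finset.mem_range.mp hl
      rw [hf l (by omega)]
      congr 1
      omega
    rw [h1, h2, Finset.sum_range_succ]
    ring

namespace Dat

variable (D : Dat)

/-- the inner convolution -/
def inner (t : ℕ) : ℚ := ∑ l ∈ range t, D.q (l + 1) * D.q (t - l)

theorem q_rec (t : ℕ) : D.q (t + 1) = D.c (t + 1) / 2 - D.inner t / 2 := by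
  have h := D.hq (t + 1)
  rw [Finset.sum_range_succ, Finset.sum_range_succ', Nat.sub_self, Nat.sub_zero, D.hq0] at h
  have h1 : ∑ l ∈ range t, D.q (l + 1) * D.q (t + 1 - (l + 1)) = D.inner t := by
    unfold inner
    refine Finset.sum_congr rfl fun l _ => ?_
    rw [Nat.add_sub_add_right]
  rw [h1] at h
  linarith

theorem inner_half (t : ℕ) : D.inner t / 2 =
    ∑ l ∈ range (t / 2), D.q (l + 1) * D.q (t - l) +
      if t % 2 = 1 then D.q (t / 2 + 1) * D.q (t / 2 + 1) / 2 else 0 := by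
  unfold inner
  rw [sum_sym _ t fun l hl => by
    have e1 : t - 1 - l + 1 = t - l := by omega
    have e2 : t - (t - 1 - l) = l + 1 := by omega
    rw [e1, e2, mul_comm]]
  split_ifs with h
  · have e3 : t - t / 2 = t / 2 + 1 := by omega
    rw [e3]
    ring
  · ring

/-- the integrality statement below `h` -/
def Low (k : ℕ) : Prop := D.q k ∈ Z2 ∧ (¬ D.H ∣ k → D.q k / 2 ∈ Z2) ∧ (k = D.H → Od (D.q k))

/-- if no two multiples meet, the half of the inner sum is even -/
theorem inner_quart {t : ℕ} (ih : ∀ k, 1 ≤ k → k ≤ t → D.Low k)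
    (hd : ∀ l < t, ¬ D.H ∣ l + 1 ∨ ¬ D.H ∣ t - l) : D.inner t / 2 / 2 ∈ Z2 := by
  rw [inner_half, add_div, Finset.sum_div]
  refine Z2.add_mem (Z2.sum_mem fun l hl => ?_) ?_
  · have hl' := Finset.mem_range.mp hl
    have h1 := ih (l + 1) (by omega) (by omega)
    have h2 := ih (t - l) (by omega) (by omega)
    rcases hd l (by omega) with h | h
    · have h3 : D.q (l + 1) * D.q (t - l) / 2 = (D.q (l + 1) / 2) * D.q (t - l) := by ring
      rw [h3]
      exact Z2.mul_mem (h1.2.1 h) h2.1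
    · have h3 : D.q (l + 1) * D.q (t - l) / 2 = D.q (l + 1) * (D.q (t - l) / 2) := by ring
      rw [h3]
      exact Z2.mul_mem h1.1 (h2.2.1 h)
  · split_ifs with h
    · have h1 := ih (t / 2 + 1) (by omega) (by omega)
      have h2 : ¬ D.H ∣ t / 2 + 1 := by
        rcases hd (t / 2) (by omega) with h3 | h3
        · exact h3
        · have e3 : t - t / 2 = t / 2 + 1 := by omega
          rwa [e3] at h3
      have h3 := h1.2.1 h2
      have h4 : D.q (t / 2 + 1) * D.q (t / 2 + 1) / 2 / 2 =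
          (D.q (t / 2 + 1) / 2) * (D.q (t / 2 + 1) / 2) := by ring
      rw [h4]
      exact Z2.mul_mem h3 h3
    · rw [zero_div]
      exact Z2.zero_mem

theorem low_of_not {t : ℕ} (ht : t + 1 < D.h) (ih : ∀ k, 1 ≤ k → k ≤ t → D.Low k)
    (hd : ¬ D.H ∣ t + 1) : D.Low (t + 1) := by
  have h1 : D.q (t + 1) / 2 ∈ Z2 := by
    have h2 := D.inner_quart ih (fun l hl => by
      by_contra hc
      push Not at hc
      apply hd
      have h3 : t + 1 = (l + 1) + (t - l) := by omega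
      rw [h3]
      exact dvd_add hc.1 hc.2)
    have h3 := D.c_quart ht hd
    have h4 : D.q (t + 1) / 2 = D.c (t + 1) / 4 - D.inner t / 2 / 2 := by
      rw [q_rec]
      ring
    rw [h4]
    exact Z2.sub_mem h3 h2
  refine ⟨?_, fun _ => h1, ?_⟩
  · have h2 : D.q (t + 1) = 2 * (D.q (t + 1) / 2) := by ring
    rw [h2]
    exact Z2.mul_mem two_mem h1
  · intro h2
    exact absurd (by rw [h2]) hd

theorem low_one {t : ℕ} (ht : t + 1 = D.H) (ih : ∀ k, 1 ≤ k → k ≤ t → D.Low k) :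
    D.Low (t + 1) := by
  have h1 : Od (D.q (t + 1)) := by
    have h2 := D.inner_quart ih (fun l hl => Or.inl fun hd => by
      have := Nat.le_of_dvd (by omega) hd
      omega)
    rw [q_rec]
    have h3 := D.c1
    rw [← ht] at h3
    exact h3.sub h2
  exact ⟨h1.mem, fun hd => absurd (by rw [ht]) hd, fun _ => h1⟩

theorem low_two {t : ℕ} (ht : t + 1 = 2 * D.H) (ih : ∀ k, 1 ≤ k → k ≤ t → D.Low k) :
    D.Low (t + 1) := by
  have hH := D.H_pos
  have h1 : D.q (t + 1) ∈ Z2 := by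
    have e1 : t / 2 + 1 = D.H := by omega
    have h2 : D.q (t + 1) = (D.c (t + 1) - D.q D.H * D.q D.H) / 2 -
        ∑ l ∈ range (t / 2), D.q (l + 1) * D.q (t - l) := by
      rw [q_rec, inner_half, if_pos (by omega), e1]
      ring
    rw [h2]
    have h3 := D.c2
    rw [← ht] at h3
    have h4 := (ih D.H (by omega) (by omega)).2.2 rfl
    refine Z2.sub_mem (h3.sub_odd (h4.mul h4)) (Z2.sum_mem fun l hl => ?_)
    have hl' := Finset.mem_range.mp hl
    exact Z2.mul_mem (ih _ (by omega) (by omega)).1 (ih _ (by omega) (by omega)).1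
  exact ⟨h1, fun hd => absurd (by rw [ht]; exact Dvd.intro_left 2 rfl) hd, fun h2 => by omega⟩

theorem low_three {t : ℕ} (ht : t + 1 = 3 * D.H) (ih : ∀ k, 1 ≤ k → k ≤ t → D.Low k) :
    D.Low (t + 1) := by
  have hH := D.H_pos
  have h1 : D.q (t + 1) ∈ Z2 := by
    rw [q_rec, inner_half]
    have h3 := D.c3
    rw [← ht] at h3
    refine Z2.sub_mem h3 (Z2.add_mem (Z2.sum_mem fun l hl => ?_) ?_)
    · have hl' := Finset.mem_range.mp hl
      exact Z2.mul_mem (ih _ (by omega) (by omega)).1 (ih _ (by omega) (by omega)).1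
    · split_ifs with h
      · have h4 := ih (t / 2 + 1) (by omega) (by omega)
        have h5 : ¬ D.H ∣ t / 2 + 1 := by
          rintro ⟨c, hc⟩
          have h6 : 2 * (D.H * c) = 3 * D.H := by omega
          have h7 : D.H * (2 * c) = D.H * 3 := by
            rw [mul_comm D.H 3, ← h6]
            ring
          have h8 := Nat.eq_of_mul_eq_mul_left hH h7
          omega
        have h6 : D.q (t / 2 + 1) * D.q (t / 2 + 1) / 2 =
            (D.q (t / 2 + 1) / 2) * D.q (t / 2 + 1) := by ring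
        rw [h6]
        exact Z2.mul_mem (h4.2.1 h5) h4.1
      · exact Z2.zero_mem
  exact ⟨h1, fun hd => absurd (by rw [ht]; exact Dvd.intro_left 3 rfl) hd, fun h2 => by omega⟩

theorem low {k : ℕ} (hk1 : 1 ≤ k) (hk : k < D.h) : D.Low k := by
  induction k using Nat.strong_induction_on with
  | _ k ih =>
    obtain ⟨t, rfl⟩ : ∃ t, k = t + 1 := ⟨k - 1, by omega⟩
    have ih' : ∀ k, 1 ≤ k → k ≤ t → D.Low k := fun k h1 h2 => ih k (by omega) h1 (by omega)
    by_cases hd : D.H ∣ t + 1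
    · obtain ⟨c, hc⟩ := hd
      have h4 : c < 4 := by
        by_contra hc4
        have : D.H * 4 ≤ D.H * c := Nat.mul_le_mul_left _ (by omega)
        rw [h_eq] at hk
        omega
      interval_cases c
      · omega
      · exact D.low_one (by omega) ih'
      · exact D.low_two (by omega) ih'
      · exact D.low_three (by omega) ih'
    · exact D.low_of_not hk ih' hd

theorem q_mem {k : ℕ} (hk : k < D.h) : D.q k ∈ Z2 := by
  rcases k with _ | k
  · rw [D.hq0]
    exact Z2.one_mem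
  · exact (D.low (by omega) hk).1

/-! ### the scaled coefficients -/

/-- `4^m m! q_k`, `m = ⌊k/h⌋` -/
def sc (k : ℕ) : ℚ := 4 ^ (k / D.h) * ((k / D.h).factorial : ℚ) * D.q k

theorem fact_split {m m1 m2 : ℕ} (h : m1 + m2 ≤ m) :
    ∃ N : ℕ, (m.factorial : ℚ) = m1.factorial * m2.factorial * N := by
  have h1 : m1.factorial * m2.factorial ∣ m.factorial :=
    (Nat.factorial_mul_factorial_dvd_factorial_add m1 m2).trans (Nat.factorial_dvd_factorial h)
  obtain ⟨N, hN⟩ := h1
  exact ⟨N, by exact_mod_cast hN⟩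

theorem sc_mul {k i j : ℕ} (hij : i + j = k) : ∃ N : ℕ,
    4 ^ (k / D.h) * ((k / D.h).factorial : ℚ) * (D.q i * D.q j) =
      4 ^ (k / D.h - (i / D.h + j / D.h)) * N * (D.sc i * D.sc j) := by
  have h1 : i / D.h + j / D.h ≤ k / D.h := by
    rw [← hij]
    exact Nat.div_add_div_le_add_div
  obtain ⟨N, hN⟩ := fact_split h1
  refine ⟨N, ?_⟩
  obtain ⟨r, hr⟩ := Nat.exists_eq_add_of_le h1
  have h2 : k / D.h - (i / D.h + j / D.h) = r := by omega
  rw [hN, h2, sc, sc]
  have h3 : (4 : ℚ) ^ (k / D.h) = 4 ^ (i / D.h) * 4 ^ (j / D.h) * 4 ^ r := by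
    rw [hr, pow_add, pow_add]
  rw [h3]
  ring

theorem four_mem : (4 : ℚ) ∈ Z2 := by exact_mod_cast nat_mem 4

theorem sc_sq {i : ℕ} (hi : D.h ≤ 2 * i) (hs : D.sc i ∈ Z2) :
    4 ^ (2 * i / D.h) * ((2 * i / D.h).factorial : ℚ) * (D.q i * D.q i) / 2 ∈ Z2 := by
  have h1 : i / D.h + i / D.h ≤ 2 * i / D.h := by
    rw [two_mul]
    exact Nat.div_add_div_le_add_div
  rcases Nat.lt_or_ge (i / D.h + i / D.h) (2 * i / D.h) with h2 | h2
  · obtain ⟨N, hN⟩ := D.sc_mul (k := 2 * i) (i := i) (j := i) (by ring)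
    rw [hN]
    obtain ⟨r, hr⟩ : ∃ r, 2 * i / D.h - (i / D.h + i / D.h) = r + 1 :=
      ⟨2 * i / D.h - (i / D.h + i / D.h) - 1, by omega⟩
    have h3 : 4 ^ (2 * i / D.h - (i / D.h + i / D.h)) * (N : ℚ) * (D.sc i * D.sc i) / 2 =
        ((2 * 4 ^ r * N : ℕ) : ℚ) * (D.sc i * D.sc i) := by
      rw [hr]
      push_cast
      ring
    rw [h3]
    exact Z2.mul_mem (nat_mem _) (Z2.mul_mem hs hs)
  · have h3 : 2 * i / D.h = 2 * (i / D.h) := by omega
    have h4 : 1 ≤ 2 * i / D.h := (Nat.one_le_div_iff D.h_pos).mpr hi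
    set m := i / D.h with hm
    obtain ⟨u, hu⟩ := Nat.two_dvd_centralBinom_of_one_le (n := m) (by omega)
    have h5 : ((2 * m).factorial : ℚ) = 2 * u * m.factorial * m.factorial := by
      have := Nat.choose_mul_factorial_mul_factorial (n := 2 * m) (k := m) (by omega)
      have e : 2 * m - m = m := by omega
      rw [e, ← Nat.centralBinom_eq_two_mul_choose, hu] at this
      exact_mod_cast this.symm
    have h6 : 4 ^ (2 * i / D.h) * ((2 * i / D.h).factorial : ℚ) * (D.q i * D.q i) / 2 =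
        (u : ℚ) * (D.sc i * D.sc i) := by
      rw [h3, h5, sc, ← hm, two_mul, pow_add]
      ring
    rw [h6]
    exact Z2.mul_mem (nat_mem _) (Z2.mul_mem hs hs)

theorem sc_mem (k : ℕ) : D.sc k ∈ Z2 := by
  induction k using Nat.strong_induction_on with
  | _ k ih =>
    rcases Nat.lt_or_ge k D.h with hk | hk
    · rw [sc, Nat.div_eq_of_lt hk, pow_zero, Nat.factorial_zero, Nat.cast_one, one_mul, one_mul]
      exact D.q_mem hk
    · have hh := D.h_pos
      obtain ⟨t, rfl⟩ : ∃ t, k = t + 1 := ⟨k - 1, by omega⟩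
      set m := (t + 1) / D.h with hm
      have hm1 : 1 ≤ m := (Nat.one_le_div_iff D.h_pos).mpr hk
      have h1 : D.sc (t + 1) = 4 ^ m * (m.factorial : ℚ) * D.c (t + 1) / 2 -
          (∑ l ∈ range (t / 2), 4 ^ m * (m.factorial : ℚ) * (D.q (l + 1) * D.q (t - l)) +
            if t % 2 = 1 then
              4 ^ m * (m.factorial : ℚ) * (D.q (t / 2 + 1) * D.q (t / 2 + 1)) / 2 else 0) := by
        rw [sc, ← hm, q_rec, inner_half, ← Finset.mul_sum]
        split_ifs
        · ring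
        · ring
      rw [h1]
      refine Z2.sub_mem (D.c_all hm1 hm.symm) (Z2.add_mem (Z2.sum_mem fun l hl => ?_) ?_)
      · have hl' := Finset.mem_range.mp hl
        obtain ⟨N, hN⟩ := D.sc_mul (k := t + 1) (i := l + 1) (j := t - l) (by omega)
        rw [hm, hN]
        exact Z2.mul_mem (Z2.mul_mem (Z2.pow_mem four_mem _) (nat_mem _))
          (Z2.mul_mem (ih _ (by omega)) (ih _ (by omega)))
      · split_ifs with h
        · have e1 : t + 1 = 2 * (t / 2 + 1) := by omega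
          rw [hm]
          have h2 := D.sc_sq (i := t / 2 + 1) (by omega) (ih _ (by omega))
          rw [← e1] at h2
          exact h2
        · exact Z2.zero_mem

/-! ### the block convolution -/

/-- block coefficients -/
def Q (m : ℕ) : ℚ := D.sc (D.h * m)

theorem Q_eq (m : ℕ) : D.Q m = 4 ^ m * (m.factorial : ℚ) * D.q (D.h * m) := by
  rw [Q, sc, Nat.mul_div_cancel_left _ D.h_pos]

/-- block convolution -/
def Cc (m : ℕ) : ℚ := ∑ l ∈ range (m + 1), (m.choose l : ℚ) * D.Q l * D.Q (m - l)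

theorem Cc_eq (m : ℕ) : D.Cc m = 4 ^ m * (m.factorial : ℚ) *
    ∑ l ∈ range (m + 1), D.q (D.h * l) * D.q (D.h * m - D.h * l) := by
  rw [Cc, Finset.mul_sum]
  refine Finset.sum_congr rfl fun l hl => ?_
  have hl' : l ≤ m := by
    have := Finset.mem_range.mp hl
    omega
  have h1 : ((m.choose l : ℚ)) * l.factorial * (m - l).factorial = m.factorial := by
    exact_mod_cast Nat.choose_mul_factorial_mul_factorial hl'
  have h2 : (4 : ℚ) ^ m = 4 ^ l * 4 ^ (m - l) := by
    rw [← pow_add]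
    congr 1
    omega
  rw [Q_eq, Q_eq, h2, ← h1, Nat.mul_sub]
  ring

theorem sum_split (m : ℕ) (F : ℕ → ℚ) : ∑ i ∈ range (D.h * m + 1), F i =
    ∑ l ∈ range (m + 1), F (D.h * l) +
      ∑ i ∈ (range (D.h * m + 1)).filter (fun i => ¬ D.h ∣ i), F i := by
  rw [← Finset.sum_filter_add_sum_filter_not (range (D.h * m + 1)) (fun i => D.h ∣ i)]
  congr 1
  have h1 : (range (D.h * m + 1)).filter (fun i => D.h ∣ i) =
      (range (m + 1)).image (fun l => D.h * l) := by
    ext i
    simp only [Finset.mem_filter, Finset.mem_range, Finset.mem_image]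
    constructor
    · rintro ⟨h1, l, rfl⟩
      refine ⟨l, ?_, rfl⟩
      have h2 : D.h * l ≤ D.h * m := by omega
      have := Nat.le_of_mul_le_mul_left h2 D.h_pos
      omega
    · rintro ⟨l, hl, rfl⟩
      have h2 : D.h * l ≤ D.h * m := Nat.mul_le_mul_left _ (by omega)
      exact ⟨by omega, Dvd.intro _ rfl⟩
  rw [h1, Finset.sum_image]
  intro a _ b _ hab
  exact Nat.eq_of_mul_eq_mul_left D.h_pos hab

theorem Cc_mem {m : ℕ} (hm : 2 ≤ m) : D.Cc m / 4 ∈ Z2 := by
  have h1 := D.hq (D.h * m)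
  rw [D.sum_split m (fun l => D.q l * D.q (D.h * m - l))] at h1
  have h2 : D.Cc m / 4 = 4 ^ m * (m.factorial : ℚ) * D.c (D.h * m) / 4 -
      ∑ i ∈ (range (D.h * m + 1)).filter (fun i => ¬ D.h ∣ i),
        4 ^ m * (m.factorial : ℚ) * (D.q i * D.q (D.h * m - i)) / 4 := by
    rw [Cc_eq, ← h1, ← Finset.sum_div, ← Finset.mul_sum]
    ring
  rw [h2]
  refine Z2.sub_mem (D.c_block hm) (Z2.sum_mem fun i hi => ?_)
  rw [Finset.mem_filter, Finset.mem_range] at hi
  obtain ⟨hi1, hi2⟩ := hi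
  obtain ⟨j, hj⟩ : ∃ j, j = D.h * m - i := ⟨_, rfl⟩
  have hij : i + j = D.h * m := by omega
  obtain ⟨N, hN⟩ := D.sc_mul hij
  rw [Nat.mul_div_cancel_left _ D.h_pos] at hN
  rw [← hj, hN]
  have h3 : i / D.h + j / D.h < m := by
    by_contra hc
    apply hi2
    have h4 : D.h * m ≤ D.h * (i / D.h + j / D.h) := Nat.mul_le_mul_left _ (by omega)
    rw [mul_add] at h4
    have h5 := Nat.mul_div_le i D.h
    have h6 := Nat.mul_div_le j D.h
    exact ⟨i / D.h, by omega⟩
  obtain ⟨r, hr⟩ : ∃ r, m - (i / D.h + j / D.h) = r + 1 :=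
    ⟨m - (i / D.h + j / D.h) - 1, by omega⟩
  have h4 : 4 ^ (m - (i / D.h + j / D.h)) * (N : ℚ) * (D.sc i * D.sc j) / 4 =
      ((4 ^ r * N : ℕ) : ℚ) * (D.sc i * D.sc j) := by
    rw [hr]
    push_cast
    ring
  rw [h4]
  exact Z2.mul_mem (nat_mem _) (Z2.mul_mem (D.sc_mem _) (D.sc_mem _))

theorem Cc_one : (D.Cc 1 - 2) / 4 ∈ Z2 := by
  have hh := D.h_pos
  obtain ⟨t, ht⟩ : ∃ t, D.h = t + 1 := ⟨D.h - 1, by omega⟩
  have h1 : D.Cc 1 = 2 * (4 * D.q D.h) := by
    have e0 : D.Q 0 = 1 := by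
      rw [Q_eq, mul_zero, D.hq0]
      simp
    have e1 : D.Q 1 = 4 * D.q D.h := by
      rw [Q_eq, mul_one]
      simp
    rw [Cc, Finset.sum_range_succ, Finset.sum_range_succ, Finset.sum_range_zero]
    simp only [Nat.choose_zero_right, Nat.choose_self, Nat.cast_one, Nat.sub_zero, Nat.sub_self,
      e0, e1]
    ring
  have h2 : (D.Cc 1 - 2) / 4 = (2 * D.c D.h - 1) / 2 - D.inner t := by
    rw [h1, ht, q_rec]
    ring
  rw [h2]
  refine Z2.sub_mem D.c4 (Z2.sum_mem fun l hl => ?_)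
  have hl' := Finset.mem_range.mp hl
  exact Z2.mul_mem (D.q_mem (by omega)) (D.q_mem (by omega))

theorem Q_odd {m : ℕ} (hm : 1 ≤ m) : Od (D.Q m) :=
  Pool.Agent.Helper30.PF.core Z2 D.Q D.Cc (by
    rw [Q_eq, mul_zero, D.hq0]
    simp) (fun k => rfl) D.Cc_one (fun k hk => D.Cc_mem hk) m hm

theorem not_mem {b : ℕ} (hb : 2 ≤ b) : 4 * D.q (D.h * b) ∉ Z2 := by
  intro hmem
  obtain ⟨t, ht⟩ : 2 ∣ b.factorial := Nat.dvd_factorial (by norm_num) hb
  obtain ⟨b', hb'⟩ : ∃ b', b = b' + 1 := ⟨b - 1, by omega⟩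
  have h1 : D.Q b / 2 = ((4 ^ b' * t : ℕ) : ℚ) * (4 * D.q (D.h * b)) := by
    have ht' : (b.factorial : ℚ) = 2 * t := by exact_mod_cast ht
    have h4 : (4 : ℚ) ^ b = 4 ^ b' * 4 := by rw [hb', pow_succ]
    rw [Q_eq, ht', h4]
    push_cast
    ring
  have h2 := D.Q_odd (m := b) (by omega)
  apply h2.not_even
  rw [h1]
  exact Z2.mul_mem (nat_mem _) hmem

end Dat

end Pool.Agent.Helper66.PF
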